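import Mathlib
import Pool.Agent.H419.BS.Defs

/-! Definitions for the Sato-Tate averages to large moduli. -/

set_option autoImplicit false

namespace Pool.Agent.H419.LC

open NumberField IsDedekindDomain Pool.Agent.H419.BS

variable {K : Type} [Field K] [NumberField K]

/-- The value of a Dirichlet character at an integer. -/
noncomputable def ev (c : Σ q : ℕ, DirichletCharacter ℂ q) (n : ℕ) : ℂ := c.2 (n : ZMod c.1)

/-- Two Dirichlet characters which are different at an integer prime to both moduli (different
primitive characters have this property). -/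
def Differ (c c' : Σ q : ℕ, DirichletCharacter ℂ q) : Prop :=
  ∃ n : ℕ, n.Coprime c.1 ∧ n.Coprime c'.1 ∧ ev c n ≠ ev c' n

/-- The modulus `m` is regular at `N`, up to `η`: for all reduced classes modulo `m`, apart from
at most `η φ(m)` of them, the number of the primes `v` of `K` of norm at most `N` in the class
and the mean value of `g` over them are the expected ones. -/
def Regular (g : HeightOneSpectrum (𝓞 K) → ℂ) (η : ℝ) (N m : ℕ) : Prop :=
  ∃ B : Finset (ZMod m)ˣ, (B.card : ℝ) ≤ η * Nat.totient m ∧ ∀ c ∉ B,
    |(Nat.card {v : HeightOneSpectrum (𝓞 K) // (q v : ZMod m) = c ∧ q v ≤ N} : ℝ) -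
      (Nat.card {v : HeightOneSpectrum (𝓞 K) // q v ≤ N} : ℝ) / Nat.totient m| ≤
      η * ((Nat.card {v : HeightOneSpectrum (𝓞 K) // q v ≤ N} : ℝ) / Nat.totient m) ∧
    ‖mean (fun v => (q v : ZMod m) = c) g N - meanAll g N‖ ≤ η

end Pool.Agent.H419.LC
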