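import Mathlib
import Pool.Graph.R_seed8.Helper112.MultLS

/-! The inequality of Polya and Vinogradov for all nonprincipal characters. -/

set_option autoImplicit false

open Finset

namespace Pool.Agent.H419.LC

open Pool.Agent.Helper112 Pool.Agent.Helper112.MLS

theorem two_mul_le_sin {x : ℝ} (h0 : 0 ≤ x) (h1 : x ≤ 1 / 2) : 2 * x ≤ Real.sin (Real.pi * x) := by
  have h := Real.mul_le_sin (x := Real.pi * x) (by positivity)
    (by have := Real.pi_pos; nlinarith)
  have e : 2 / Real.pi * (Real.pi * x) = 2 * x := by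
    field_simp
  rwa [e] at h

theorem inv_sin_le {x : ℝ} (h0 : 0 < x) (h1 : x < 1) :
    1 / Real.sin (Real.pi * x) ≤ (1 / x + 1 / (1 - x)) / 2 := by
  have h1x : 0 < 1 - x := by linarith
  rcases le_or_gt x (1 / 2) with h | h
  · have h2 := two_mul_le_sin h0.le h
    have h3 : 1 / Real.sin (Real.pi * x) ≤ 1 / (2 * x) :=
      one_div_le_one_div_of_le (by positivity) h2
    have h4 : 0 < 1 / (1 - x) := by positivity
    have h5 : 1 / (2 * x) = (1 / x) / 2 := by field_simp
    linarith
  · have h2 := two_mul_le_sin (x := 1 - x) h1x.le (by linarith)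
    have e : Real.sin (Real.pi * (1 - x)) = Real.sin (Real.pi * x) := by
      rw [mul_sub, mul_one, Real.sin_pi_sub]
    rw [e] at h2
    have h3 : 1 / Real.sin (Real.pi * x) ≤ 1 / (2 * (1 - x)) :=
      one_div_le_one_div_of_le (by positivity) h2
    have h4 : 0 < 1 / x := by positivity
    have h5 : 1 / (2 * (1 - x)) = (1 / (1 - x)) / 2 := by field_simp
    linarith

theorem geom_le {x : ℝ} (h0 : 0 < x) (h1 : x < 1) (N : ℕ) :
    ‖∑ n ∈ Icc 1 N, ee (n * x)‖ ≤ (1 / x + 1 / (1 - x)) / 2 := by
  refine le_trans ?_ (inv_sin_le h0 h1)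
  have hs : 0 < Real.sin (Real.pi * x) := by
    apply Real.sin_pos_of_pos_of_lt_pi
    · positivity
    · have := Real.pi_pos
      nlinarith
  have hpow : ∀ n : ℕ, ee (n * x) = (ee x) ^ n := by
    intro n
    simp only [ee]
    rw [← Complex.exp_nat_mul]
    congr 1
    push_cast
    ring
  have hz : ‖ee x - 1‖ = 2 * Real.sin (Real.pi * x) := by
    have h := Complex.norm_exp_I_mul_ofReal_sub_one (2 * Real.pi * x)
    have e : ee x = Complex.exp (Complex.I * ((2 * Real.pi * x : ℝ) : ℂ)) := by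
      simp only [ee]
      congr 1
      push_cast
      ring
    rw [e, h]
    rw [show 2 * Real.pi * x / 2 = Real.pi * x by ring, Real.norm_eq_abs, abs_mul,
      abs_of_pos hs, abs_of_pos two_pos]
  have hz0 : ee x - 1 ≠ 0 := by
    intro h
    rw [h, norm_zero] at hz
    linarith
  have hn1 : ‖ee x‖ = 1 := by
    have e : ee x = Complex.exp (((2 * Real.pi * x : ℝ) : ℂ) * Complex.I) := by
      simp only [ee]
      congr 1
      push_cast
      ring
    rw [e, Complex.norm_exp_ofReal_mul_I]
  have e1 : (∑ n ∈ Icc 1 N, ee (n * x)) * (ee x - 1) = ee x * ((ee x) ^ N - 1) := by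
    have e2 : ∑ n ∈ Icc 1 N, ee (n * x) = ee x * ∑ n ∈ range N, (ee x) ^ n := by
      rw [Finset.sum_congr rfl (fun n _ => hpow n)]
      induction N with
      | zero => simp
      | succ N ih =>
        rw [Finset.sum_Icc_succ_top (by omega), Finset.sum_range_succ, ih]
        ring
    rw [e2, mul_assoc, geom_sum_mul]
  have e3 : ‖∑ n ∈ Icc 1 N, ee (n * x)‖ * (2 * Real.sin (Real.pi * x)) ≤ 2 := by
    rw [← hz, ← norm_mul, e1, norm_mul, hn1, one_mul]
    refine (norm_sub_le _ _).trans ?_
    rw [norm_pow, hn1, one_pow, norm_one]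
    norm_num
  rw [le_div_iff₀ hs]
  linarith


theorem pv_prim (f : ℕ) [NeZero f] (hf : 1 < f) {χ : DirichletCharacter ℂ f} (hχ : χ.IsPrimitive)
    (N : ℕ) : ‖∑ n ∈ Icc 1 N, χ (n : ZMod f)‖ ≤ √f * (1 + Real.log f) := by
  have hf0 : (0 : ℝ) < f := by exact_mod_cast (by omega : 0 < f)
  have h1 := sum_char_T f N (fun _ => 1) hχ
  simp only [one_mul] at h1
  have hinv : (χ⁻¹).IsPrimitive := by
    rw [DirichletCharacter.isPrimitive_def, DirichletCharacter.conductor_inv]
    exact hχ
  have h2 := norm_gauss f hinv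
  have h3 : ‖gaussSum χ⁻¹ (ZMod.stdAddChar : AddChar (ZMod f) ℂ)‖ = √f := by
    rw [← h2, Real.sqrt_sq (norm_nonneg _)]
  have h4 : ‖∑ n ∈ Icc 1 N, χ (n : ZMod f)‖ * √f ≤ f * (1 + Real.log f) := by
    rw [← h3, ← norm_mul, ← h1]
    refine (norm_sum_le _ _).trans ?_
    have h5 : ∑ a : ZMod f, ‖χ⁻¹ a * T f N (fun _ => 1) a‖ =
        ∑ a ∈ range f, ‖χ⁻¹ (a : ZMod f) * T f N (fun _ => 1) (a : ZMod f)‖ := by
      rw [← Finset.sum_bij (s := range f) (t := (univ : Finset (ZMod f)))
        (f := fun a => ‖χ⁻¹ (a : ZMod f) * T f N (fun _ => 1) (a : ZMod f)‖)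
        (i := fun a _ => (a : ZMod f))]
      · intro a _
        exact Finset.mem_univ _
      · intro a ha b hb hab
        rw [Finset.mem_range] at ha hb
        have := (ZMod.natCast_eq_natCast_iff' a b f).1 hab
        rwa [Nat.mod_eq_of_lt ha, Nat.mod_eq_of_lt hb] at this
      · intro b _
        exact ⟨b.val, Finset.mem_range.2 (ZMod.val_lt b), ZMod.natCast_rightInverse b⟩
      · intro a _
        rfl
    rw [h5]
    have h6 : ∀ a ∈ range f, ‖χ⁻¹ (a : ZMod f) * T f N (fun _ => 1) (a : ZMod f)‖ ≤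
        if a = 0 then 0 else (f / 2 : ℝ) * (1 / a + 1 / ((f : ℝ) - a)) := by
      intro a ha
      rw [Finset.mem_range] at ha
      split_ifs with h0
      · subst h0
        have : χ⁻¹ ((0 : ℕ) : ZMod f) = 0 := by
          apply MulChar.map_nonunit
          rw [Nat.cast_zero]
          intro hu
          have : Nontrivial (ZMod f) := ZMod.nontrivial_iff.2 (by omega)
          exact not_isUnit_zero hu
        rw [this, zero_mul, norm_zero]
      · have ha0 : (0 : ℝ) < a := by exact_mod_cast Nat.pos_of_ne_zero h0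
        have haf : (a : ℝ) < f := by exact_mod_cast ha
        rw [norm_mul]
        have hn : ‖χ⁻¹ (a : ZMod f)‖ ≤ 1 := DirichletCharacter.norm_le_one _ _
        have hg : ‖T f N (fun _ => 1) (a : ZMod f)‖ ≤ (1 / ((a : ℝ) / f) + 1 / (1 - (a : ℝ) / f)) / 2 := by
          rw [T_eq]
          have e : ∑ n ∈ Icc 1 N, (1 : ℂ) * ee (n * a / f) = ∑ n ∈ Icc 1 N, ee (n * ((a : ℝ) / f)) := by
            refine Finset.sum_congr rfl fun n _ => ?_
            rw [one_mul]
            congr 1
            ring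
          rw [e]
          exact geom_le (by positivity) (by rw [div_lt_one hf0]; exact haf) N
        have e : (1 / ((a : ℝ) / f) + 1 / (1 - (a : ℝ) / f)) / 2 =
            (f / 2 : ℝ) * (1 / a + 1 / ((f : ℝ) - a)) := by
          have h7 : (f : ℝ) - a ≠ 0 := by linarith
          have h8 : 1 - (a : ℝ) / f ≠ 0 := by
            rw [one_sub_div hf0.ne']
            exact div_ne_zero h7 hf0.ne'
          field_simp
        rw [← e]
        calc ‖χ⁻¹ (a : ZMod f)‖ * ‖T f N (fun _ => 1) (a : ZMod f)‖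
            ≤ 1 * ‖T f N (fun _ => 1) (a : ZMod f)‖ := by gcongr
          _ ≤ _ := by rw [one_mul]; exact hg
    refine (Finset.sum_le_sum h6).trans ?_
    have h7 : ∑ a ∈ range f, (if a = 0 then (0 : ℝ) else (f / 2 : ℝ) * (1 / a + 1 / ((f : ℝ) - a))) =
        f * ∑ a ∈ Icc 1 (f - 1), (1 / (a : ℝ)) := by
      have e1 : ∑ a ∈ range f, (if a = 0 then (0 : ℝ) else (f / 2 : ℝ) * (1 / a + 1 / ((f : ℝ) - a))) =
          ∑ a ∈ Icc 1 (f - 1), (f / 2 : ℝ) * (1 / a + 1 / ((f : ℝ) - a)) := by
        rw [← Finset.sum_filter_add_sum_filter_not (range f) (fun a => a = 0)]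
        rw [Finset.sum_eq_zero (s := (range f).filter (fun a => a = 0))]
        · rw [zero_add]
          refine Finset.sum_congr ?_ fun a ha => ?_
          · ext a
            simp only [Finset.mem_filter, Finset.mem_range, Finset.mem_Icc]
            omega
          · rw [Finset.mem_Icc] at ha
            rw [if_neg (by omega)]
        · intro a ha
          rw [Finset.mem_filter] at ha
          rw [if_pos ha.2]
      rw [e1, ← Finset.mul_sum, Finset.sum_add_distrib]
      have e2 : ∑ a ∈ Icc 1 (f - 1), (1 / ((f : ℝ) - a)) = ∑ a ∈ Icc 1 (f - 1), (1 / (a : ℝ)) := by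
        refine Finset.sum_bij (fun a _ => f - a) ?_ ?_ ?_ ?_
        · intro a ha
          rw [Finset.mem_Icc] at ha ⊢
          omega
        · intro a ha b hb hab
          rw [Finset.mem_Icc] at ha hb
          omega
        · intro b hb
          rw [Finset.mem_Icc] at hb
          exact ⟨f - b, by rw [Finset.mem_Icc]; omega, by omega⟩
        · intro a ha
          rw [Finset.mem_Icc] at ha
          rw [Nat.cast_sub (by omega)]
      rw [e2]
      ring
    rw [h7]
    have h8 : ∑ a ∈ Icc 1 (f - 1), (1 / (a : ℝ)) ≤ 1 + Real.log f := by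
      have h9 := harmonic_le_one_add_log (f - 1)
      rw [harmonic_eq_sum_Icc] at h9
      push_cast at h9
      have h10 : ∑ a ∈ Icc 1 (f - 1), (1 / (a : ℝ)) = ∑ a ∈ Icc 1 (f - 1), (a : ℝ)⁻¹ :=
        Finset.sum_congr rfl fun a _ => one_div _
      rw [h10]
      refine h9.trans ?_
      have : Real.log ((f - 1 : ℕ) : ℝ) ≤ Real.log f := by
        apply Real.log_le_log
        · exact_mod_cast (by omega : 0 < f - 1)
        · exact_mod_cast (by omega : f - 1 ≤ f)
      linarith
    gcongr
  have hs : 0 < √(f : ℝ) := Real.sqrt_pos.2 hf0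
  have h5 : √(f : ℝ) * (1 + Real.log f) * √(f : ℝ) = f * (1 + Real.log f) := by
    rw [mul_right_comm, Real.mul_self_sqrt hf0.le]
  rw [← h5] at h4
  exact le_of_mul_le_mul_right h4 hs

end Pool.Agent.H419.LC
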