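import Mathlib
import Pool.Agent.H419.LC.PV

set_option autoImplicit false

open Finset
open scoped ArithmeticFunction.Moebius ArithmeticFunction.zeta

namespace Pool.Agent.H419.LC

theorem card_divisors_le (k : ℕ) : ((k.divisors).card : ℝ) ≤ 2 * √k := by
  have h1 : (k.divisors).card ≤ 2 * Nat.sqrt k := by
    rw [← Finset.card_filter_add_card_filter_not (s := k.divisors) (fun d => d * d ≤ k), two_mul]
    have hA : (k.divisors.filter (fun d => d * d ≤ k)).card ≤ Nat.sqrt k := by
      have : k.divisors.filter (fun d => d * d ≤ k) ⊆ Icc 1 (Nat.sqrt k) := by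
        intro d hd
        rw [Finset.mem_filter, Nat.mem_divisors] at hd
        rw [Finset.mem_Icc]
        exact ⟨Nat.pos_of_dvd_of_pos hd.1.1 (Nat.pos_of_ne_zero hd.1.2), Nat.le_sqrt.2 hd.2⟩
      calc _ ≤ (Icc 1 (Nat.sqrt k)).card := Finset.card_le_card this
        _ = Nat.sqrt k := by simp
    have hB : (k.divisors.filter (fun d => ¬ d * d ≤ k)).card ≤
        (k.divisors.filter (fun d => d * d ≤ k)).card := by
      refine Finset.card_le_card_of_injOn (fun d => k / d) ?_ ?_
      · intro d hd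
        rw [Finset.mem_coe, Finset.mem_filter, Nat.mem_divisors] at hd
        rw [Finset.mem_coe, Finset.mem_filter, Nat.mem_divisors]
        refine ⟨⟨Nat.div_dvd_of_dvd hd.1.1, hd.1.2⟩, ?_⟩
        obtain ⟨e, rfl⟩ := hd.1.1
        have hd0 : 0 < d := Nat.pos_of_ne_zero fun h => by simp [h] at hd
        show d * e / d * (d * e / d) ≤ d * e
        rw [Nat.mul_div_cancel_left _ hd0]
        have h2 : d * e < d * d := not_le.1 hd.2
        have h3 : e < d := lt_of_mul_lt_mul_left h2 (Nat.zero_le _)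
        exact Nat.mul_le_mul_right e h3.le
      · intro a ha b hb hab
        rw [Finset.mem_coe, Finset.mem_filter, Nat.mem_divisors] at ha hb
        have h1 : k / a = k / b := hab
        rw [← Nat.div_div_self ha.1.1 ha.1.2, h1, Nat.div_div_self hb.1.1 hb.1.2]
    omega
  have h2 : ((Nat.sqrt k : ℕ) : ℝ) ≤ √k := Real.nat_sqrt_le_real_sqrt
  calc ((k.divisors).card : ℝ) ≤ ((2 * Nat.sqrt k : ℕ) : ℝ) := by exact_mod_cast h1
    _ = 2 * (Nat.sqrt k : ℝ) := by push_cast; ring
    _ ≤ _ := by linarith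

theorem sum_moebius_gcd (n Q : ℕ) (hQ : Q ≠ 0) :
    ∑ d ∈ Q.divisors, (if d ∣ n then (μ d : ℂ) else 0) = if Nat.Coprime n Q then 1 else 0 := by
  have hg : Nat.gcd n Q ≠ 0 := (Nat.gcd_pos_of_pos_right n (Nat.pos_of_ne_zero hQ)).ne'
  have h1 : (Q.divisors).filter (fun d => d ∣ n) = (Nat.gcd n Q).divisors := by
    ext d
    rw [Finset.mem_filter, Nat.mem_divisors, Nat.mem_divisors, Nat.dvd_gcd_iff]
    constructor
    · rintro ⟨⟨h1, _⟩, h2⟩
      exact ⟨⟨h2, h1⟩, hg⟩
    · rintro ⟨⟨h1, h2⟩, _⟩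
      exact ⟨⟨h2, hQ⟩, h1⟩
  rw [← Finset.sum_filter, h1]
  have h2 := ArithmeticFunction.coe_mul_zeta_apply (f := (μ : ArithmeticFunction ℤ)) (x := Nat.gcd n Q)
  rw [ArithmeticFunction.moebius_mul_coe_zeta, ArithmeticFunction.one_apply] at h2
  have h3 : ((∑ d ∈ (Nat.gcd n Q).divisors, μ d : ℤ) : ℂ) = if Nat.gcd n Q = 1 then 1 else 0 := by
    rw [← h2]
    split_ifs <;> simp
  push_cast at h3
  exact h3

/-- **Polya-Vinogradov** for all nonprincipal characters. -/
theorem pv {Q : ℕ} [NeZero Q] {χ : DirichletCharacter ℂ Q} (hχ : χ ≠ 1) (M : ℕ) :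
    ‖∑ n ∈ Icc 1 M, χ (n : ZMod Q)‖ ≤ 2 * √Q * (1 + Real.log Q) := by
  have hQ : Q ≠ 0 := NeZero.ne Q
  set f := χ.conductor with hf
  have hf0 : f ≠ 0 := χ.conductor_ne_zero
  have hf1 : f ≠ 1 := fun h => hχ ((DirichletCharacter.eq_one_iff_conductor_eq_one).2 h)
  have : NeZero f := ⟨hf0⟩
  have hfQ : f ∣ Q := χ.conductor_dvd_level
  set ψ : DirichletCharacter ℂ f := χ.primitiveCharacter with hψ
  have hprim : ψ.IsPrimitive := χ.primitiveCharacter_isPrimitive
  have hval : ∀ n : ℕ, χ (n : ZMod Q) = if Nat.Coprime n Q then ψ (n : ZMod f) else 0 := by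
    intro n
    split_ifs with h
    · have h1 := χ.primitiveCharacter_apply_of_isCoprime (a := (n : ℤ)) (Nat.isCoprime_iff_coprime.2 h)
      push_cast at h1
      exact h1.symm
    · apply MulChar.map_nonunit
      rw [ZMod.isUnit_iff_coprime]
      exact h
  have e1 : ∑ n ∈ Icc 1 M, χ (n : ZMod Q) =
      ∑ d ∈ Q.divisors, (μ d : ℂ) * ψ (d : ZMod f) * ∑ m ∈ Icc 1 (M / d), ψ (m : ZMod f) := by
    calc ∑ n ∈ Icc 1 M, χ (n : ZMod Q)
        = ∑ n ∈ Icc 1 M, ∑ d ∈ Q.divisors, (if d ∣ n then (μ d : ℂ) else 0) * ψ (n : ZMod f) := by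
          refine Finset.sum_congr rfl fun n _ => ?_
          rw [← Finset.sum_mul, sum_moebius_gcd n Q hQ, hval n]
          split_ifs <;> simp
      _ = ∑ d ∈ Q.divisors, ∑ n ∈ Icc 1 M, (if d ∣ n then (μ d : ℂ) else 0) * ψ (n : ZMod f) :=
          Finset.sum_comm
      _ = _ := by
          refine Finset.sum_congr rfl fun d hd => ?_
          have hd0 : 0 < d := Nat.pos_of_mem_divisors hd
          rw [Finset.mul_sum]
          have e2 : ∑ n ∈ Icc 1 M, (if d ∣ n then (μ d : ℂ) else 0) * ψ (n : ZMod f) =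
              ∑ n ∈ (Icc 1 M).filter (fun n => d ∣ n), (μ d : ℂ) * ψ (n : ZMod f) := by
            rw [Finset.sum_filter]
            refine Finset.sum_congr rfl fun n _ => ?_
            split_ifs <;> simp
          rw [e2]
          symm
          refine Finset.sum_bij (fun m _ => d * m) ?_ ?_ ?_ ?_
          · intro m hm
            rw [Finset.mem_Icc] at hm
            rw [Finset.mem_filter, Finset.mem_Icc]
            refine ⟨⟨Nat.mul_pos hd0 hm.1, ?_⟩, dvd_mul_right _ _⟩
            calc d * m ≤ d * (M / d) := Nat.mul_le_mul_left _ hm.2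
              _ ≤ M := Nat.mul_div_le M d
          · intro a _ b _ hab
            exact Nat.eq_of_mul_eq_mul_left hd0 hab
          · intro n hn
            rw [Finset.mem_filter, Finset.mem_Icc] at hn
            obtain ⟨m, rfl⟩ := hn.2
            refine ⟨m, ?_, rfl⟩
            rw [Finset.mem_Icc]
            refine ⟨?_, ?_⟩
            · rcases Nat.eq_zero_or_pos m with h | h
              · subst h
                simp at hn
              · exact h
            · rw [Nat.le_div_iff_mul_le hd0, mul_comm]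
              exact hn.1.2
          · intro m _
            rw [Nat.cast_mul, map_mul]
            ring
  have hB : 0 ≤ √(f : ℝ) * (1 + Real.log f) := by
    have : 0 ≤ Real.log (f : ℝ) := Real.log_natCast_nonneg f
    positivity
  have h2 : ∀ d ∈ Q.divisors, ‖(μ d : ℂ) * ψ (d : ZMod f) * ∑ m ∈ Icc 1 (M / d), ψ (m : ZMod f)‖ ≤
      if Nat.Coprime d f then √(f : ℝ) * (1 + Real.log f) else 0 := by
    intro d _
    split_ifs with h
    · rw [norm_mul, norm_mul]
      have h3 : ‖(μ d : ℂ)‖ ≤ 1 := by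
        rw [Complex.norm_intCast]
        exact_mod_cast ArithmeticFunction.abs_moebius_le_one
      have h4 : ‖ψ (d : ZMod f)‖ ≤ 1 := DirichletCharacter.norm_le_one _ _
      have h5 := pv_prim f (by omega) hprim (M / d)
      calc ‖(μ d : ℂ)‖ * ‖ψ (d : ZMod f)‖ * ‖∑ m ∈ Icc 1 (M / d), ψ (m : ZMod f)‖
          ≤ 1 * 1 * (√(f : ℝ) * (1 + Real.log f)) := by gcongr
        _ = _ := by ring
    · have : ψ (d : ZMod f) = 0 := by
        apply MulChar.map_nonunit
        rw [ZMod.isUnit_iff_coprime]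
        exact h
      rw [this, mul_zero, zero_mul, norm_zero]
  obtain ⟨k, hk⟩ := hfQ
  have hk0 : k ≠ 0 := fun h => hQ (by rw [hk, h, mul_zero])
  have h3 : ((Q.divisors.filter (fun d => Nat.Coprime d f)).card : ℝ) ≤ 2 * √k := by
    refine le_trans ?_ (card_divisors_le k)
    have : Q.divisors.filter (fun d => Nat.Coprime d f) ⊆ k.divisors := by
      intro d hd
      rw [Finset.mem_filter, Nat.mem_divisors] at hd
      rw [Nat.mem_divisors]
      refine ⟨?_, hk0⟩
      have h4 : d ∣ f * k := hk ▸ hd.1.1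
      exact hd.2.dvd_of_dvd_mul_left h4
    exact_mod_cast Finset.card_le_card this
  rw [e1]
  calc ‖∑ d ∈ Q.divisors, (μ d : ℂ) * ψ (d : ZMod f) * ∑ m ∈ Icc 1 (M / d), ψ (m : ZMod f)‖
      ≤ ∑ d ∈ Q.divisors, (if Nat.Coprime d f then √(f : ℝ) * (1 + Real.log f) else 0) :=
        (norm_sum_le _ _).trans (Finset.sum_le_sum h2)
    _ = ((Q.divisors.filter (fun d => Nat.Coprime d f)).card : ℝ) * (√(f : ℝ) * (1 + Real.log f)) := by
        rw [← Finset.sum_filter, Finset.sum_const, nsmul_eq_mul]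
    _ ≤ (2 * √k) * (√(f : ℝ) * (1 + Real.log f)) := by gcongr
    _ = 2 * √Q * (1 + Real.log f) := by
        have : √(Q : ℝ) = √(f : ℝ) * √(k : ℝ) := by
          rw [hk, Nat.cast_mul, Real.sqrt_mul (Nat.cast_nonneg f)]
        rw [this]
        ring
    _ ≤ 2 * √Q * (1 + Real.log Q) := by
        have : Real.log (f : ℝ) ≤ Real.log Q := by
          apply Real.log_le_log
          · exact_mod_cast Nat.pos_of_ne_zero hf0
          · exact_mod_cast Nat.le_of_dvd (Nat.pos_of_ne_zero hQ) (χ.conductor_dvd_level)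
        gcongr

end Pool.Agent.H419.LC
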