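import Mathlib
import Pool.Graph.R_seed8.Helper923.PPS.BT

/-! Selberg's weights of a small level. -/

set_option autoImplicit false

open Finset BoundingSieve

namespace Pool.Agent.H419.LC

open Pool.Agent.Helper923.PPS

theorem card_lcm (N d : ℕ) (hd : 0 < d) :
    |(((Icc 1 N).filter (fun n => d ∣ n)).card : ℝ) - N / d| ≤ 1 := by
  have h1 : ((Icc 1 N).filter (fun n => d ∣ n)).card = N / d := by
    have : (Icc 1 N).filter (fun n => d ∣ n) = (Ioc 0 N).filter (fun n => d ∣ n) := by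
      ext n
      simp only [Finset.mem_filter, Finset.mem_Icc, Finset.mem_Ioc]
      omega
    rw [this, Nat.Ioc_filter_dvd_card_eq_div]
  rw [h1]
  have hd' : (0 : ℝ) < d := by exact_mod_cast hd
  have h2 : ((N / d : ℕ) : ℝ) ≤ N / d := Nat.cast_div_le
  have h3 : (N : ℝ) / d < ((N / d : ℕ) : ℝ) + 1 := by
    rw [div_lt_iff₀ hd']
    have : N < (N / d + 1) * d := by
      have := Nat.lt_div_mul_add (a := N) hd
      nlinarith
    exact_mod_cast this
  rw [abs_le]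
  constructor <;> linarith

/-- The weights. -/
theorem weight (N R : ℕ) (hR : 1 ≤ R) : ∃ w : ℕ → ℝ, w 1 = 1 ∧ (∀ d, |w d| ≤ d) ∧
    ∑ n ∈ Icc 1 N, (∑ d ∈ (Icc 1 R).filter (fun d => d ∣ n), w d) ^ 2 ≤
      4 * N / Real.log ((R : ℝ) + 1) + (R : ℝ) ^ 4 := by
  classical
  set s := apSieve 0 1 N R with hs
  have hR' : (1 : ℝ) ≤ R := by exact_mod_cast hR
  have hP0 : s.prodPrimes ≠ 0 := prodPrimes_ne_zero
  set w : ℕ → ℝ := fun d => if d ∣ s.prodPrimes then selW s R d else 0 with hw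
  have hnu : ∀ d : ℕ, s.nu d = (d : ℝ)⁻¹ := fun d => rfl
  have hwle : ∀ d, |w d| ≤ d := by
    intro d
    simp only [hw]
    split_ifs with h
    · have := abs_selW_le s (R : ℝ) hR' h
      rwa [hnu, inv_inv] at this
    · rw [abs_zero]
      positivity
  have hlog : 0 < Real.log ((R : ℝ) + 1) := Real.log_pos (by linarith)
  -- the main term
  have hmain : ∑ d1 ∈ Icc 1 R, ∑ d2 ∈ Icc 1 R, w d1 * w d2 * ((Nat.lcm d1 d2 : ℕ) : ℝ)⁻¹ ≤
      4 / Real.log ((R : ℝ) + 1) := by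
    have h1 := mainSum_selW s (R : ℝ) hR'
    rw [mainSum_lambdaSquared_eq_sum_sum_mul] at h1
    have h2 := selS_ge_log (a := 0) (q := 1) (N := N) (R := R) (Or.inl rfl)
    have h3 : (selS s R)⁻¹ ≤ 4 / Real.log ((R : ℝ) + 1) := by
      rw [← inv_div]
      exact inv_anti₀ (by positivity) h2
    refine le_trans (le_of_eq ?_) h3
    rw [← h1]
    have hzero : ∀ d : ℕ, R < d → selW s R d = 0 := fun d hd =>
      selW_eq_zero s (R : ℝ) (by exact_mod_cast hd)
    -- extend the sums to a common set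
    have hA : ∀ F : ℕ → ℝ, (∀ d, w d = 0 → F d = 0) →
        ∑ d ∈ Icc 1 R, F d = ∑ d ∈ s.prodPrimes.divisors, F d := by
      intro F hF
      rw [← Finset.sum_filter_add_sum_filter_not (Icc 1 R) (fun d => d ∣ s.prodPrimes),
        Finset.sum_eq_zero (s := (Icc 1 R).filter (fun d => ¬ d ∣ s.prodPrimes)), add_zero]
      · refine Finset.sum_subset ?_ ?_
        · intro d hd
          rw [Finset.mem_filter] at hd
          exact Nat.mem_divisors.2 ⟨hd.2, hP0⟩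
        · intro d hd hd'
          rw [Nat.mem_divisors] at hd
          apply hF
          have hd0 : 0 < d := Nat.pos_of_ne_zero (ne_zero_of_dvd_ne_zero hd.2 hd.1)
          have : R < d := by
            by_contra hcon
            apply hd'
            rw [Finset.mem_filter, Finset.mem_Icc]
            exact ⟨⟨hd0, not_lt.1 hcon⟩, hd.1⟩
          simp only [hw]
          rw [if_pos hd.1, hzero d this]
      · intro d hd
        rw [Finset.mem_filter] at hd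
        apply hF
        simp only [hw]
        rw [if_neg hd.2]
    rw [hA (fun d1 => ∑ d2 ∈ Icc 1 R, w d1 * w d2 * ((Nat.lcm d1 d2 : ℕ) : ℝ)⁻¹)
      (fun d hd => by simp [hd])]
    refine Finset.sum_congr rfl fun d1 hd1 => ?_
    rw [hA (fun d2 => w d1 * w d2 * ((Nat.lcm d1 d2 : ℕ) : ℝ)⁻¹) (fun d hd => by simp [hd])]
    refine Finset.sum_congr rfl fun d2 hd2 => ?_
    rw [Nat.mem_divisors] at hd1 hd2
    simp only [hw]
    rw [if_pos hd1.1, if_pos hd2.1]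
    simp only [hnu]
    have hg : ((Nat.gcd d1 d2 : ℕ) : ℝ) * ((Nat.lcm d1 d2 : ℕ) : ℝ) = d1 * d2 := by
      exact_mod_cast Nat.gcd_mul_lcm d1 d2
    have h10 : (d1 : ℝ) ≠ 0 := by exact_mod_cast ne_zero_of_dvd_ne_zero hd1.2 hd1.1
    have h20 : (d2 : ℝ) ≠ 0 := by exact_mod_cast ne_zero_of_dvd_ne_zero hd2.2 hd2.1
    have hl0 : ((Nat.lcm d1 d2 : ℕ) : ℝ) ≠ 0 := by
      intro h
      rw [h, mul_zero] at hg
      exact (mul_ne_zero h10 h20) hg.symm
    have hg0 : ((Nat.gcd d1 d2 : ℕ) : ℝ) ≠ 0 := by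
      intro h
      rw [h, zero_mul] at hg
      exact (mul_ne_zero h10 h20) hg.symm
    have e : ((Nat.lcm d1 d2 : ℕ) : ℝ)⁻¹ = (d1 : ℝ)⁻¹ * (d2 : ℝ)⁻¹ * (((Nat.gcd d1 d2 : ℕ) : ℝ)⁻¹)⁻¹ := by
      rw [inv_inv]
      field_simp
      linarith
    rw [e]
    ring
  refine ⟨w, ?_, hwle, ?_⟩
  · simp only [hw]
    rw [if_pos (one_dvd _), selW_one s (R : ℝ) hR']
  · have hexp : ∑ n ∈ Icc 1 N, (∑ d ∈ (Icc 1 R).filter (fun d => d ∣ n), w d) ^ 2 =
        ∑ d1 ∈ Icc 1 R, ∑ d2 ∈ Icc 1 R,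
          w d1 * w d2 * (((Icc 1 N).filter (fun n => Nat.lcm d1 d2 ∣ n)).card : ℝ) := by
      calc ∑ n ∈ Icc 1 N, (∑ d ∈ (Icc 1 R).filter (fun d => d ∣ n), w d) ^ 2
          = ∑ n ∈ Icc 1 N, ∑ d1 ∈ Icc 1 R, ∑ d2 ∈ Icc 1 R,
              w d1 * w d2 * (if Nat.lcm d1 d2 ∣ n then 1 else 0) := by
            refine Finset.sum_congr rfl fun n _ => ?_
            rw [sq, Finset.sum_filter, Finset.sum_mul_sum]
            refine Finset.sum_congr rfl fun d1 _ => Finset.sum_congr rfl fun d2 _ => ?_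
            by_cases h1 : d1 ∣ n <;> by_cases h2 : d2 ∣ n <;> simp [Nat.lcm_dvd_iff, h1, h2]
        _ = ∑ d1 ∈ Icc 1 R, ∑ d2 ∈ Icc 1 R, ∑ n ∈ Icc 1 N,
              w d1 * w d2 * (if Nat.lcm d1 d2 ∣ n then 1 else 0) := by
            rw [Finset.sum_comm]
            refine Finset.sum_congr rfl fun d1 _ => ?_
            rw [Finset.sum_comm]
        _ = _ := by
            refine Finset.sum_congr rfl fun d1 _ => Finset.sum_congr rfl fun d2 _ => ?_
            rw [← Finset.mul_sum, Finset.sum_boole]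
    rw [hexp]
    have hterm : ∀ d1 ∈ Icc 1 R, ∀ d2 ∈ Icc 1 R,
        w d1 * w d2 * (((Icc 1 N).filter (fun n => Nat.lcm d1 d2 ∣ n)).card : ℝ) ≤
        N * (w d1 * w d2 * ((Nat.lcm d1 d2 : ℕ) : ℝ)⁻¹) + (R : ℝ) * R := by
      intro d1 hd1 d2 hd2
      rw [Finset.mem_Icc] at hd1 hd2
      have hl : 0 < Nat.lcm d1 d2 := Nat.lcm_pos hd1.1 hd2.1
      have h1 := card_lcm N _ hl
      have h2 : |w d1 * w d2| ≤ (R : ℝ) * R := by
        rw [abs_mul]
        have h3 : |w d1| ≤ R := (hwle d1).trans (by exact_mod_cast hd1.2)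
        have h4 : |w d2| ≤ R := (hwle d2).trans (by exact_mod_cast hd2.2)
        gcongr
      have h3 : w d1 * w d2 * ((((Icc 1 N).filter (fun n => Nat.lcm d1 d2 ∣ n)).card : ℝ) -
          N / (Nat.lcm d1 d2 : ℕ)) ≤ (R : ℝ) * R * 1 := by
        refine (le_abs_self _).trans ?_
        rw [abs_mul]
        gcongr
      have e : N * (w d1 * w d2 * ((Nat.lcm d1 d2 : ℕ) : ℝ)⁻¹) =
          w d1 * w d2 * (N / (Nat.lcm d1 d2 : ℕ)) := by ring
      rw [e]
      linarith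
    calc ∑ d1 ∈ Icc 1 R, ∑ d2 ∈ Icc 1 R,
          w d1 * w d2 * (((Icc 1 N).filter (fun n => Nat.lcm d1 d2 ∣ n)).card : ℝ)
        ≤ ∑ d1 ∈ Icc 1 R, ∑ d2 ∈ Icc 1 R,
          (N * (w d1 * w d2 * ((Nat.lcm d1 d2 : ℕ) : ℝ)⁻¹) + (R : ℝ) * R) :=
          Finset.sum_le_sum fun d1 hd1 => Finset.sum_le_sum fun d2 hd2 => hterm d1 hd1 d2 hd2
      _ = N * (∑ d1 ∈ Icc 1 R, ∑ d2 ∈ Icc 1 R, w d1 * w d2 * ((Nat.lcm d1 d2 : ℕ) : ℝ)⁻¹) +
          (R : ℝ) ^ 4 := by
          simp only [Finset.sum_add_distrib, ← Finset.mul_sum, Finset.sum_const, Nat.card_Icc,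
            nsmul_eq_mul]
          push_cast [show R + 1 - 1 = R by omega]
          ring
      _ ≤ N * (4 / Real.log ((R : ℝ) + 1)) + (R : ℝ) ^ 4 := by gcongr
      _ = _ := by ring

end Pool.Agent.H419.LC
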