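import Mathlib
import Pool.Agent.H419.LC.PV2
import Pool.Agent.H419.LC.Weight
import Pool.Agent.H419.LC.Defs

/-! Duality. -/

set_option autoImplicit false

open Finset ComplexConjugate

namespace Pool.Agent.H419.LC

/-- **The dual inequality.** -/
theorem dual {ι : Type*} [DecidableEq ι] (I : Finset ι) (φ : ι → ℕ → ℂ) (N : ℕ) (v : ℕ → ℝ)
    (hv : ∀ n, 0 ≤ v n) (a : ℕ → ℂ) (ha : ∀ n ∈ Icc 1 N, a n ≠ 0 → 1 ≤ v n) (V E : ℝ)
    (hV0 : 0 ≤ V) (hE0 : 0 ≤ E)
    (hV : ∀ i ∈ I, ‖∑ n ∈ Icc 1 N, (v n : ℂ) * (φ i n * conj (φ i n))‖ ≤ V)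
    (hE : ∀ i ∈ I, ∀ j ∈ I, i ≠ j → ‖∑ n ∈ Icc 1 N, (v n : ℂ) * (φ i n * conj (φ j n))‖ ≤ E) :
    ∑ i ∈ I, ‖∑ n ∈ Icc 1 N, a n * φ i n‖ ^ 2 ≤
      (∑ n ∈ Icc 1 N, ‖a n‖ ^ 2) * (V + I.card * E) := by
  set S : ι → ℂ := fun i => ∑ n ∈ Icc 1 N, a n * φ i n with hS
  set T : ℝ := ∑ i ∈ I, ‖S i‖ ^ 2 with hT
  set A : ℝ := ∑ n ∈ Icc 1 N, ‖a n‖ ^ 2 with hA
  set b : ℕ → ℂ := fun n => ∑ i ∈ I, conj (S i) * φ i n with hb
  have hT0 : 0 ≤ T := Finset.sum_nonneg fun i _ => by positivity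
  have hA0 : 0 ≤ A := Finset.sum_nonneg fun i _ => by positivity
  have h1 : (T : ℂ) = ∑ n ∈ Icc 1 N, a n * b n := by
    have e1 : ∀ i, ((‖S i‖ ^ 2 : ℝ) : ℂ) = conj (S i) * S i := by
      intro i
      rw [← Complex.normSq_eq_norm_sq, Complex.normSq_eq_conj_mul_self]
    rw [hT, Complex.ofReal_sum, Finset.sum_congr rfl (fun i _ => e1 i)]
    calc ∑ i ∈ I, conj (S i) * S i = ∑ i ∈ I, ∑ n ∈ Icc 1 N, a n * (conj (S i) * φ i n) := by
          refine Finset.sum_congr rfl fun i _ => ?_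
          conv_lhs => rw [show S i = ∑ n ∈ Icc 1 N, a n * φ i n from rfl]
          rw [Finset.mul_sum]
          exact Finset.sum_congr rfl fun n _ => by ring
      _ = _ := by
          rw [Finset.sum_comm]
          exact Finset.sum_congr rfl fun n _ => (Finset.mul_sum _ _ _).symm
  -- Cauchy-Schwarz
  have h2 : T ^ 2 ≤ A * ∑ n ∈ Icc 1 N, v n * ‖b n‖ ^ 2 := by
    have h3 : T ≤ ∑ n ∈ Icc 1 N, ‖a n‖ * (√(v n) * ‖b n‖) := by
      have e : T = ‖(T : ℂ)‖ := by rw [Complex.norm_real, Real.norm_of_nonneg hT0]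
      rw [e, h1]
      refine (norm_sum_le _ _).trans (Finset.sum_le_sum fun n hn => ?_)
      rw [norm_mul]
      by_cases h : a n = 0
      · rw [h, norm_zero, zero_mul, zero_mul]
      · have h4 : 1 ≤ √(v n) := by
          rw [Real.one_le_sqrt]
          exact ha n hn h
        have h5 : ‖b n‖ ≤ √(v n) * ‖b n‖ := by
          nlinarith [norm_nonneg (b n)]
        gcongr
    calc T ^ 2 ≤ (∑ n ∈ Icc 1 N, ‖a n‖ * (√(v n) * ‖b n‖)) ^ 2 := by gcongr
      _ ≤ (∑ n ∈ Icc 1 N, ‖a n‖ ^ 2) * ∑ n ∈ Icc 1 N, (√(v n) * ‖b n‖) ^ 2 :=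
          Finset.sum_mul_sq_le_sq_mul_sq _ _ _
      _ = _ := by
          congr 1
          refine Finset.sum_congr rfl fun n _ => ?_
          rw [mul_pow, Real.sq_sqrt (hv n)]
  -- expansion
  have h3 : ∑ n ∈ Icc 1 N, v n * ‖b n‖ ^ 2 ≤ T * (V + I.card * E) := by
    have e1 : ((∑ n ∈ Icc 1 N, v n * ‖b n‖ ^ 2 : ℝ) : ℂ) =
        ∑ i ∈ I, ∑ j ∈ I, conj (S i) * S j *
          ∑ n ∈ Icc 1 N, (v n : ℂ) * (φ i n * conj (φ j n)) := by
      have e2 : ∀ n, ((v n * ‖b n‖ ^ 2 : ℝ) : ℂ) = ∑ i ∈ I, ∑ j ∈ I, conj (S i) * S j *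
          ((v n : ℂ) * (φ i n * conj (φ j n))) := by
        intro n
        rw [Complex.ofReal_mul, ← Complex.normSq_eq_norm_sq, ← Complex.mul_conj]
        have e3 : b n * conj (b n) = ∑ i ∈ I, ∑ j ∈ I,
            (conj (S i) * φ i n) * (S j * conj (φ j n)) := by
          rw [hb]
          simp only [map_sum, map_mul, Complex.conj_conj]
          rw [Finset.sum_mul_sum]
        rw [e3, Finset.mul_sum]
        refine Finset.sum_congr rfl fun i _ => ?_
        rw [Finset.mul_sum]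
        exact Finset.sum_congr rfl fun j _ => by ring
      rw [Complex.ofReal_sum, Finset.sum_congr rfl (fun n _ => e2 n), Finset.sum_comm]
      refine Finset.sum_congr rfl fun i _ => ?_
      rw [Finset.sum_comm]
      exact Finset.sum_congr rfl fun j _ => (Finset.mul_sum _ _ _).symm
    have h0 : 0 ≤ ∑ n ∈ Icc 1 N, v n * ‖b n‖ ^ 2 :=
      Finset.sum_nonneg fun n _ => mul_nonneg (hv n) (by positivity)
    have e3 : ∑ n ∈ Icc 1 N, v n * ‖b n‖ ^ 2 =
        ‖((∑ n ∈ Icc 1 N, v n * ‖b n‖ ^ 2 : ℝ) : ℂ)‖ := by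
      rw [Complex.norm_real, Real.norm_of_nonneg h0]
    rw [e3, e1]
    refine (norm_sum_le _ _).trans ?_
    have h4 : ∀ i ∈ I, ‖∑ j ∈ I, conj (S i) * S j *
        ∑ n ∈ Icc 1 N, (v n : ℂ) * (φ i n * conj (φ j n))‖ ≤
        ‖S i‖ ^ 2 * V + ‖S i‖ * (∑ j ∈ I, ‖S j‖) * E := by
      intro i hi
      refine (norm_sum_le _ _).trans ?_
      have h5 : ∀ j ∈ I, ‖conj (S i) * S j *
          ∑ n ∈ Icc 1 N, (v n : ℂ) * (φ i n * conj (φ j n))‖ ≤
          (if j = i then ‖S i‖ ^ 2 * V else 0) + ‖S i‖ * ‖S j‖ * E := by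
        intro j hj
        rw [norm_mul, norm_mul, RCLike.norm_conj]
        by_cases hij : j = i
        · subst hij
          rw [if_pos rfl]
          have h6 := hV j hj
          have h7 : ‖S j‖ * ‖S j‖ * ‖∑ n ∈ Icc 1 N, (v n : ℂ) * (φ j n * conj (φ j n))‖ ≤
              ‖S j‖ * ‖S j‖ * V := by gcongr
          have h8 : 0 ≤ ‖S j‖ * ‖S j‖ * E := by positivity
          rw [sq]
          linarith
        · rw [if_neg hij, zero_add]
          have h6 := hE i hi j hj (Ne.symm hij)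
          gcongr
      refine (Finset.sum_le_sum h5).trans (le_of_eq ?_)
      rw [Finset.sum_add_distrib, Finset.sum_ite_eq' I i, if_pos hi, ← Finset.sum_mul,
        ← Finset.mul_sum]
    refine (Finset.sum_le_sum h4).trans ?_
    rw [Finset.sum_add_distrib, ← Finset.sum_mul, ← Finset.sum_mul, ← Finset.sum_mul]
    have h5 : (∑ i ∈ I, ‖S i‖) * (∑ j ∈ I, ‖S j‖) ≤ I.card * T := by
      rw [← sq]
      exact sq_sum_le_card_mul_sum_sq
    have h6 : (∑ i ∈ I, ‖S i‖) * (∑ j ∈ I, ‖S j‖) * E ≤ I.card * T * E := by gcongr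
    calc _ ≤ T * V + I.card * T * E := by linarith
      _ = T * (V + I.card * E) := by ring
  rcases hT0.eq_or_lt with h | h
  · rw [← h]
    positivity
  · have h4 : T * T ≤ T * (A * (V + I.card * E)) := by
      calc T * T = T ^ 2 := by ring
        _ ≤ A * ∑ n ∈ Icc 1 N, v n * ‖b n‖ ^ 2 := h2
        _ ≤ A * (T * (V + I.card * E)) := by gcongr
        _ = _ := by ring
    exact le_of_mul_le_mul_left h4 h

theorem ev_mul (c : Σ q : ℕ, DirichletCharacter ℂ q) (m n : ℕ) :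
    ev c (m * n) = ev c m * ev c n := by
  rw [ev, Nat.cast_mul, map_mul]
  rfl

theorem norm_ev_le (c : Σ q : ℕ, DirichletCharacter ℂ q) (n : ℕ) : ‖ev c n‖ ≤ 1 :=
  DirichletCharacter.norm_le_one _ _

/-- The product of a character and the conjugate of another one. -/
theorem exists_product {c c' : Σ q : ℕ, DirichletCharacter ℂ q} (hc : c.1 ≠ 0) (hc' : c'.1 ≠ 0)
    (h : Differ c c') : ∃ ψ : DirichletCharacter ℂ (c.1 * c'.1), ψ ≠ 1 ∧
      ∀ n : ℕ, ψ (n : ZMod (c.1 * c'.1)) = ev c n * conj (ev c' n) := by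
  have hm : c.1 * c'.1 ≠ 0 := mul_ne_zero hc hc'
  have : NeZero (c.1 * c'.1) := ⟨hm⟩
  set ψ : DirichletCharacter ℂ (c.1 * c'.1) :=
    DirichletCharacter.changeLevel (dvd_mul_right c.1 c'.1) c.2 *
      (DirichletCharacter.changeLevel (dvd_mul_left c'.1 c.1) c'.2)⁻¹ with hψ
  have hval : ∀ n : ℕ, ψ (n : ZMod (c.1 * c'.1)) = ev c n * conj (ev c' n) := by
    intro n
    by_cases hn : n.Coprime (c.1 * c'.1)
    · have hn1 : IsCoprime (n : ℤ) ((c.1 * c'.1 : ℕ) : ℤ) := Nat.isCoprime_iff_coprime.2 hn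
      have e1 := DirichletCharacter.changeLevel_eq_cast_of_dvd' c.2 (dvd_mul_right c.1 c'.1) hn1
      have e2 := DirichletCharacter.changeLevel_eq_cast_of_dvd' c'.2 (dvd_mul_left c'.1 c.1) hn1
      simp only [Int.cast_natCast] at e1 e2
      have hn2 : n.Coprime c'.1 := Nat.Coprime.coprime_dvd_right (dvd_mul_left _ _) hn
      rw [hψ, MulChar.mul_apply, MulChar.inv_apply_eq_inv', e1, e2]
      congr 1
      have hu : IsUnit ((n : ZMod c'.1)) := (ZMod.isUnit_iff_coprime n c'.1).2 hn2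
      have : ‖c'.2 (n : ZMod c'.1)‖ = 1 := by
        have : NeZero c'.1 := ⟨hc'⟩
        obtain ⟨u, hu'⟩ := hu
        rw [← hu']
        exact c'.2.unit_norm_eq_one u
      rw [ev, ← Complex.inv_eq_conj this]
    · have h1 : ψ (n : ZMod (c.1 * c'.1)) = 0 := by
        apply MulChar.map_nonunit
        rw [ZMod.isUnit_iff_coprime]
        exact hn
      rw [h1]
      symm
      rw [Nat.coprime_mul_iff_right, not_and_or] at hn
      rcases hn with hn | hn
      · have : ev c n = 0 := by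
          apply MulChar.map_nonunit
          rw [ZMod.isUnit_iff_coprime]
          exact hn
        rw [this, zero_mul]
      · have : ev c' n = 0 := by
          apply MulChar.map_nonunit
          rw [ZMod.isUnit_iff_coprime]
          exact hn
        rw [this, map_zero, mul_zero]
  refine ⟨ψ, ?_, hval⟩
  intro h1
  obtain ⟨n, hn, hn', hne⟩ := h
  apply hne
  have h2 := hval n
  have hu : IsUnit ((n : ZMod (c.1 * c'.1))) :=
    (ZMod.isUnit_iff_coprime n _).2 (Nat.Coprime.mul_right hn hn')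
  rw [h1, MulChar.one_apply hu] at h2
  have hn1 : ‖ev c' n‖ = 1 := by
    have : NeZero c'.1 := ⟨hc'⟩
    obtain ⟨u, hu'⟩ := (ZMod.isUnit_iff_coprime n c'.1).2 hn'
    rw [ev, ← hu']
    exact c'.2.unit_norm_eq_one u
  have h3 : conj (ev c' n) * ev c' n = 1 := by
    rw [mul_comm, Complex.mul_conj, Complex.normSq_eq_norm_sq, hn1]
    norm_num
  calc ev c n = ev c n * (conj (ev c' n) * ev c' n) := by rw [h3, mul_one]
    _ = (ev c n * conj (ev c' n)) * ev c' n := by ring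
    _ = ev c' n := by rw [← h2, one_mul]

/-- The Gram matrix off the diagonal. -/
theorem gram {c c' : Σ q : ℕ, DirichletCharacter ℂ q} (hc : c.1 ≠ 0) (hc' : c'.1 ≠ 0)
    (h : Differ c c') (N R : ℕ) (w : ℕ → ℝ) (hw : ∀ d, |w d| ≤ d) :
    ‖∑ n ∈ Icc 1 N, (((∑ d ∈ (Icc 1 R).filter (fun d => d ∣ n), w d) ^ 2 : ℝ) : ℂ) *
      (ev c n * conj (ev c' n))‖ ≤
      (R : ℝ) ^ 4 * (2 * √((c.1 : ℝ) * c'.1) * (1 + Real.log ((c.1 : ℝ) * c'.1))) := by
  classical
  obtain ⟨ψ, hψ, hval⟩ := exists_product hc hc' h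
  have hm : c.1 * c'.1 ≠ 0 := mul_ne_zero hc hc'
  have : NeZero (c.1 * c'.1) := ⟨hm⟩
  set P : ℝ := 2 * √((c.1 : ℝ) * c'.1) * (1 + Real.log ((c.1 : ℝ) * c'.1)) with hP
  have hpv : ∀ M : ℕ, ‖∑ n ∈ Icc 1 M, ψ (n : ZMod (c.1 * c'.1))‖ ≤ P := by
    intro M
    have := pv hψ M
    rw [hP]
    push_cast at this ⊢
    exact this
  have hexp : ∑ n ∈ Icc 1 N, (((∑ d ∈ (Icc 1 R).filter (fun d => d ∣ n), w d) ^ 2 : ℝ) : ℂ) *
      (ev c n * conj (ev c' n)) =
      ∑ d1 ∈ Icc 1 R, ∑ d2 ∈ Icc 1 R, ((w d1 * w d2 : ℝ) : ℂ) *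
        (ψ ((Nat.lcm d1 d2 : ℕ) : ZMod (c.1 * c'.1)) *
          ∑ m ∈ Icc 1 (N / Nat.lcm d1 d2), ψ (m : ZMod (c.1 * c'.1))) := by
    calc ∑ n ∈ Icc 1 N, (((∑ d ∈ (Icc 1 R).filter (fun d => d ∣ n), w d) ^ 2 : ℝ) : ℂ) *
          (ev c n * conj (ev c' n))
        = ∑ n ∈ Icc 1 N, ∑ d1 ∈ Icc 1 R, ∑ d2 ∈ Icc 1 R,
            ((w d1 * w d2 : ℝ) : ℂ) * (if Nat.lcm d1 d2 ∣ n then ψ (n : ZMod (c.1 * c'.1)) else 0) := by
          refine Finset.sum_congr rfl fun n _ => ?_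
          rw [← hval n, sq, Finset.sum_filter, Finset.sum_mul_sum]
          push_cast
          rw [Finset.sum_mul]
          refine Finset.sum_congr rfl fun d1 _ => ?_
          rw [Finset.sum_mul]
          refine Finset.sum_congr rfl fun d2 _ => ?_
          by_cases h1 : d1 ∣ n <;> by_cases h2 : d2 ∣ n <;> simp [Nat.lcm_dvd_iff, h1, h2]
      _ = ∑ d1 ∈ Icc 1 R, ∑ d2 ∈ Icc 1 R, ∑ n ∈ Icc 1 N,
            ((w d1 * w d2 : ℝ) : ℂ) * (if Nat.lcm d1 d2 ∣ n then ψ (n : ZMod (c.1 * c'.1)) else 0) := by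
          rw [Finset.sum_comm]
          refine Finset.sum_congr rfl fun d1 _ => ?_
          rw [Finset.sum_comm]
      _ = _ := by
          refine Finset.sum_congr rfl fun d1 hd1 => Finset.sum_congr rfl fun d2 hd2 => ?_
          rw [Finset.mem_Icc] at hd1 hd2
          have hl : 0 < Nat.lcm d1 d2 := Nat.lcm_pos hd1.1 hd2.1
          rw [← Finset.mul_sum, ← Finset.sum_filter]
          congr 1
          rw [Finset.mul_sum]
          symm
          refine Finset.sum_bij (fun m _ => Nat.lcm d1 d2 * m) ?_ ?_ ?_ ?_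
          · intro m hm
            rw [Finset.mem_Icc] at hm
            rw [Finset.mem_filter, Finset.mem_Icc]
            refine ⟨⟨Nat.mul_pos hl hm.1, ?_⟩, dvd_mul_right _ _⟩
            calc Nat.lcm d1 d2 * m ≤ Nat.lcm d1 d2 * (N / Nat.lcm d1 d2) :=
                  Nat.mul_le_mul_left _ hm.2
              _ ≤ N := Nat.mul_div_le N _
          · intro a _ b _ hab
            exact Nat.eq_of_mul_eq_mul_left hl hab
          · intro n hn
            rw [Finset.mem_filter, Finset.mem_Icc] at hn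
            obtain ⟨m, hm⟩ := hn.2
            refine ⟨m, ?_, hm.symm⟩
            rw [Finset.mem_Icc]
            refine ⟨?_, ?_⟩
            · rcases Nat.eq_zero_or_pos m with h | h
              · subst h
                simp at hm
                omega
              · exact h
            · rw [Nat.le_div_iff_mul_le hl, mul_comm, ← hm]
              exact hn.1.2
          · intro m _
            rw [Nat.cast_mul, map_mul]
  rw [hexp]
  have hP0 : 0 ≤ P := (norm_nonneg _).trans (hpv 0)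
  calc ‖∑ d1 ∈ Icc 1 R, ∑ d2 ∈ Icc 1 R, ((w d1 * w d2 : ℝ) : ℂ) *
        (ψ ((Nat.lcm d1 d2 : ℕ) : ZMod (c.1 * c'.1)) *
          ∑ m ∈ Icc 1 (N / Nat.lcm d1 d2), ψ (m : ZMod (c.1 * c'.1)))‖
      ≤ ∑ d1 ∈ Icc 1 R, ∑ d2 ∈ Icc 1 R, ((R : ℝ) * R * P) := by
        refine (norm_sum_le _ _).trans (Finset.sum_le_sum fun d1 hd1 => ?_)
        refine (norm_sum_le _ _).trans (Finset.sum_le_sum fun d2 hd2 => ?_)
        rw [Finset.mem_Icc] at hd1 hd2
        rw [norm_mul, norm_mul, Complex.norm_real, Real.norm_eq_abs, abs_mul]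
        have h3 : |w d1| ≤ R := (hw d1).trans (by exact_mod_cast hd1.2)
        have h4 : |w d2| ≤ R := (hw d2).trans (by exact_mod_cast hd2.2)
        have h5 : ‖ψ ((Nat.lcm d1 d2 : ℕ) : ZMod (c.1 * c'.1))‖ ≤ 1 :=
          DirichletCharacter.norm_le_one _ _
        calc |w d1| * |w d2| * (‖ψ ((Nat.lcm d1 d2 : ℕ) : ZMod (c.1 * c'.1))‖ *
              ‖∑ m ∈ Icc 1 (N / Nat.lcm d1 d2), ψ (m : ZMod (c.1 * c'.1))‖)
            ≤ (R : ℝ) * R * (1 * P) := by
              gcongr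
              exact hpv _
          _ = _ := by ring
    _ = _ := by
        simp only [Finset.sum_const, Nat.card_Icc, nsmul_eq_mul]
        push_cast [show R + 1 - 1 = R by omega]
        ring

end Pool.Agent.H419.LC
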