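import Mathlib
import Pool.Agent.H419.LC.Dual
import Pool.Agent.H419.BS.LS

/-! The large sieve for few characters of large conductor, over the primes. -/

set_option autoImplicit false

open Finset ComplexConjugate Filter Topology

namespace Pool.Agent.H419.LC

open Pool.Agent.H419.BS (pr card_pr pnt)

/-- asymptotic facts -/
theorem asym (ε K : ℝ) (hε : 0 < ε) (hK : 0 < K) : ∀ᶠ N : ℕ in atTop,
    K * Real.log N ^ 2 ≤ (N : ℝ) ^ ε := by
  have h1 := (isLittleO_log_rpow_rpow_atTop 2 hε).comp_tendsto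
    (tendsto_natCast_atTop_atTop (R := ℝ))
  have h2 := h1.bound (show (0 : ℝ) < 1 / K by positivity)
  filter_upwards [h2, eventually_ge_atTop 1] with N hN hN1
  simp only [Function.comp_apply] at hN
  have h0 : (0 : ℝ) ≤ (N : ℝ) ^ ε := by positivity
  rw [Real.norm_of_nonneg h0, Real.rpow_two, Real.norm_of_nonneg (by positivity)] at hN
  calc K * Real.log N ^ 2 ≤ K * (1 / K * (N : ℝ) ^ ε) := by gcongr
    _ = (N : ℝ) ^ ε := by field_simp

set_option maxHeartbeats 4000000 in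
/-- **The large sieve for few characters over the primes.** -/
theorem large (ε d : ℝ) (hε : 0 < ε) (hε1 : ε ≤ 1) (hd : 0 < d) : ∃ C : ℝ, 0 < C ∧
    ∀ B : ℝ, 0 < B → ∃ N₀ : ℕ, ∀ N : ℕ, N₀ ≤ N →
    ∀ (Q : ℝ) (I : Finset (Σ q : ℕ, DirichletCharacter ℂ q)), 1 ≤ Q → Q ≤ N →
    (∀ c ∈ I, c.1 ≠ 0 ∧ (c.1 : ℝ) ≤ Q) → (∀ c ∈ I, ∀ c' ∈ I, c ≠ c' → Differ c c') →
    (I.card : ℝ) * Q ≤ B * (N : ℝ) ^ (1 - ε) →
    ∀ a : ℕ → ℂ, (∀ n, ‖a n‖ ≤ d) →
    ∑ c ∈ I, ‖∑ n ∈ pr N, a n * ev c n‖ ^ 2 ≤ C * ((N : ℝ) / Real.log N) ^ 2 := by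
  classical
  refine ⟨2 * (2 * d ^ 2 * (64 / ε + 2)) + 1, by positivity, fun B hB => ?_⟩
  have hpnt := pnt.eventually_lt_const (show (1 : ℝ) < 2 by norm_num)
  have h1 := asym (ε / 4) (6 * B + 1) (by positivity) (by positivity)
  have h2 := asym (ε / 4) (2 * B * d ^ 2 + 1) (by positivity) (by positivity)
  have h3 : ∀ᶠ N : ℕ in atTop, (1 : ℝ) ≤ Real.log N :=
    (Real.tendsto_log_atTop.comp tendsto_natCast_atTop_atTop).eventually_ge_atTop 1
  obtain ⟨N₀, hN₀⟩ := eventually_atTop.1 (hpnt.and (h1.and (h2.and (h3.and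
    (eventually_ge_atTop 2)))))
  refine ⟨N₀, fun N hN Q I hQ1 hQN hI hdiff hIQ a ha => ?_⟩
  obtain ⟨hpi, hB1, hB2, hlog1, hN2⟩ := hN₀ N hN
  have hN0 : (0 : ℝ) < N := by exact_mod_cast (by omega : 0 < N)
  have hN1 : (1 : ℝ) ≤ N := by exact_mod_cast (by omega : 1 ≤ N)
  set L : ℝ := Real.log N with hL
  have hL0 : 0 < L := by linarith
  set R : ℕ := ⌊(N : ℝ) ^ (ε / 16)⌋₊ with hR
  have hRle : (R : ℝ) ≤ (N : ℝ) ^ (ε / 16) := Nat.floor_le (by positivity)
  have hR1 : 1 ≤ R := by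
    rw [hR, Nat.one_le_floor_iff]
    exact Real.one_le_rpow hN1 (by positivity)
  have hRlog : ε / 16 * L ≤ Real.log ((R : ℝ) + 1) := by
    rw [hL, ← Real.log_rpow hN0]
    exact Real.log_le_log (by positivity) (Nat.lt_floor_add_one _).le
  have hR4 : (R : ℝ) ^ 4 ≤ (N : ℝ) ^ (ε / 4) := by
    calc (R : ℝ) ^ 4 ≤ ((N : ℝ) ^ (ε / 16)) ^ 4 := by gcongr
      _ = (N : ℝ) ^ (ε / 4) := by
        rw [← Real.rpow_natCast, ← Real.rpow_mul hN0.le]
        congr 1
        push_cast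
        ring
  have hR2 : (R : ℝ) ^ 2 ≤ (N : ℝ) ^ (ε / 4) := by
    refine le_trans ?_ hR4
    exact pow_le_pow_right₀ (by exact_mod_cast hR1) (by norm_num)
  -- the exponents
  have hsplit : ∀ x y : ℝ, (N : ℝ) ^ x * (N : ℝ) ^ y = (N : ℝ) ^ (x + y) :=
    fun x y => (Real.rpow_add hN0 x y).symm
  have hNL : (N : ℝ) ^ (ε / 4) ≤ N / L := by
    rw [le_div_iff₀ hL0]
    have h4 : L ≤ (N : ℝ) ^ (ε / 4) := by
      have : (1 : ℝ) * L ^ 2 ≤ (6 * B + 1) * L ^ 2 := by gcongr; linarith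
      nlinarith
    calc (N : ℝ) ^ (ε / 4) * L ≤ (N : ℝ) ^ (ε / 4) * (N : ℝ) ^ (ε / 4) := by gcongr
      _ = (N : ℝ) ^ (ε / 4 + ε / 4) := hsplit _ _
      _ ≤ (N : ℝ) ^ (1 : ℝ) := Real.rpow_le_rpow_of_exponent_le hN1 (by linarith)
      _ = N := Real.rpow_one _
  obtain ⟨w, hw1, hwle, hwsum⟩ := weight N R hR1
  set v : ℕ → ℝ := fun n => (∑ e ∈ (Icc 1 R).filter (fun e => e ∣ n), w e) ^ 2 with hv
  have hv0 : ∀ n, 0 ≤ v n := fun n => sq_nonneg _
  set V : ℝ := 4 * N / Real.log ((R : ℝ) + 1) + (R : ℝ) ^ 4 with hV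
  have hlogR : 0 < Real.log ((R : ℝ) + 1) := lt_of_lt_of_le (by positivity) hRlog
  have hVle : V ≤ (64 / ε + 1) * (N / L) := by
    have h4 : 4 * (N : ℝ) / Real.log ((R : ℝ) + 1) ≤ 4 * N / (ε / 16 * L) := by gcongr
    have h5 : 4 * (N : ℝ) / (ε / 16 * L) = 64 / ε * (N / L) := by
      field_simp
      ring
    rw [hV]
    linarith [hR4.trans hNL]
  have hV0 : 0 ≤ V := by positivity
  set E : ℝ := (R : ℝ) ^ 4 * (2 * Q * (1 + 2 * L)) with hE
  have hE0 : 0 ≤ E := by positivity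
  -- the coefficients
  set a' : ℕ → ℂ := fun n => if n ∈ pr N ∧ R < n then a n else 0 with ha'
  have hpr : ∀ n ∈ pr N, n.Prime ∧ 1 ≤ n ∧ n ≤ N := by
    intro n hn
    simp only [pr, Finset.mem_filter, Finset.mem_Ioc] at hn
    exact ⟨hn.2, hn.2.one_lt.le, hn.1.2⟩
  have hav : ∀ n ∈ Icc 1 N, a' n ≠ 0 → 1 ≤ v n := by
    intro n _ hne
    have h4 : n ∈ pr N ∧ R < n := by
      by_contra hcon
      exact hne (by simp only [ha']; rw [if_neg hcon])
    have h5 : (Icc 1 R).filter (fun e => e ∣ n) = {1} := by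
      ext e
      rw [Finset.mem_filter, Finset.mem_Icc, Finset.mem_singleton]
      constructor
      · rintro ⟨⟨h6, h7⟩, h8⟩
        rcases (Nat.dvd_prime (hpr n h4.1).1).1 h8 with h9 | h9
        · exact h9
        · omega
      · rintro rfl
        exact ⟨⟨le_rfl, hR1⟩, one_dvd _⟩
    simp only [hv]
    rw [h5, Finset.sum_singleton, hw1]
    norm_num
  have hdual := dual I (fun c n => ev c n) N v hv0 a' hav V E hV0 hE0 ?_ ?_
  · -- conclusion
    have hA : ∑ n ∈ Icc 1 N, ‖a' n‖ ^ 2 ≤ d ^ 2 * (2 * (N / L)) := by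
      have h4 : ∀ n ∈ Icc 1 N, ‖a' n‖ ^ 2 ≤ if n ∈ pr N then d ^ 2 else 0 := by
        intro n _
        simp only [ha']
        by_cases h5 : n ∈ pr N
        · rw [if_pos h5]
          split_ifs
          · have := ha n
            gcongr
          · rw [norm_zero, zero_pow two_ne_zero]
            positivity
        · rw [if_neg h5, if_neg (fun h => h5 h.1), norm_zero]
          norm_num
      refine (Finset.sum_le_sum h4).trans ?_
      rw [← Finset.sum_filter, Finset.sum_const, nsmul_eq_mul]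
      have h5 : ((Icc 1 N).filter (fun n => n ∈ pr N)).card ≤ (pr N).card :=
        Finset.card_le_card fun n hn => (Finset.mem_filter.1 hn).2
      have h6 : ((pr N).card : ℝ) ≤ 2 * (N / L) := by
        rw [card_pr]
        have h7 : (Nat.primeCounting N : ℝ) * L / N ≤ 2 := hpi.le
        rw [div_le_iff₀ hN0] at h7
        rw [← mul_div_assoc, le_div_iff₀ hL0]
        exact h7
      have h7 : (((Icc 1 N).filter (fun n => n ∈ pr N)).card : ℝ) ≤ 2 * (N / L) :=
        (by exact_mod_cast h5 : (((Icc 1 N).filter (fun n => n ∈ pr N)).card : ℝ) ≤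
          ((pr N).card : ℝ)).trans h6
      rw [mul_comm (d ^ 2)]
      gcongr
    have hIE : (I.card : ℝ) * E ≤ N / L := by
      rw [hE, le_div_iff₀ hL0]
      have h4 : 2 * (1 + 2 * L) * L ≤ 6 * L ^ 2 := by nlinarith
      calc (I.card : ℝ) * ((R : ℝ) ^ 4 * (2 * Q * (1 + 2 * L))) * L
          = ((I.card : ℝ) * Q) * (R : ℝ) ^ 4 * (2 * (1 + 2 * L) * L) := by ring
        _ ≤ (B * (N : ℝ) ^ (1 - ε)) * (N : ℝ) ^ (ε / 4) * (6 * L ^ 2) := by gcongr
        _ = (6 * B * L ^ 2) * ((N : ℝ) ^ (1 - ε) * (N : ℝ) ^ (ε / 4)) := by ring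
        _ ≤ (N : ℝ) ^ (ε / 4) * ((N : ℝ) ^ (1 - ε) * (N : ℝ) ^ (ε / 4)) := by
            gcongr
            refine le_trans ?_ hB1
            gcongr
            linarith
        _ = (N : ℝ) ^ (ε / 4 + (1 - ε + ε / 4)) := by rw [hsplit, hsplit]
        _ ≤ (N : ℝ) ^ (1 : ℝ) := Real.rpow_le_rpow_of_exponent_le hN1 (by linarith)
        _ = N := Real.rpow_one _
    have hNL0 : 0 ≤ (N : ℝ) / L := by positivity
    have hmainb : ∑ c ∈ I, ‖∑ n ∈ Icc 1 N, a' n * ev c n‖ ^ 2 ≤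
        (2 * d ^ 2 * (64 / ε + 2)) * (N / L) ^ 2 := by
      refine hdual.trans ?_
      calc (∑ n ∈ Icc 1 N, ‖a' n‖ ^ 2) * (V + I.card * E)
          ≤ (d ^ 2 * (2 * (N / L))) * ((64 / ε + 1) * (N / L) + N / L) := by gcongr
        _ = _ := by ring
    -- the small primes
    have hdiffc : ∀ c : (Σ q : ℕ, DirichletCharacter ℂ q),
        ‖∑ n ∈ pr N, a n * ev c n - ∑ n ∈ Icc 1 N, a' n * ev c n‖ ≤ d * R := by
      intro c
      have e1 : ∑ n ∈ Icc 1 N, a' n * ev c n = ∑ n ∈ (pr N).filter (fun n => R < n), a n * ev c n := by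
        rw [Finset.sum_filter]
        have hsub : pr N ⊆ Icc 1 N := fun n hn => Finset.mem_Icc.2 ⟨(hpr n hn).2.1, (hpr n hn).2.2⟩
        rw [← Finset.sum_subset hsub (f := fun n => a' n * ev c n)]
        · refine Finset.sum_congr rfl fun n hn => ?_
          simp only [ha']
          by_cases h : R < n
          · rw [if_pos h, if_pos ⟨hn, h⟩]
          · rw [if_neg h, if_neg (fun h' => h h'.2), zero_mul]
        · intro n _ hn
          simp only [ha']
          rw [if_neg (fun h => hn h.1), zero_mul]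
      rw [e1, ← Finset.sum_filter_add_sum_filter_not (pr N) (fun n => R < n), add_sub_cancel_left]
      refine (norm_sum_le _ _).trans ?_
      calc ∑ n ∈ (pr N).filter (fun n => ¬ R < n), ‖a n * ev c n‖
          ≤ ∑ n ∈ (pr N).filter (fun n => ¬ R < n), d := by
            refine Finset.sum_le_sum fun n _ => ?_
            rw [norm_mul]
            calc ‖a n‖ * ‖ev c n‖ ≤ d * 1 := by
                  gcongr
                  · exact ha n
                  · exact norm_ev_le c n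
              _ = d := mul_one d
        _ = (((pr N).filter (fun n => ¬ R < n)).card : ℝ) * d := by
            rw [Finset.sum_const, nsmul_eq_mul]
        _ ≤ (R : ℝ) * d := by
            gcongr
            have : (pr N).filter (fun n => ¬ R < n) ⊆ Icc 1 R := by
              intro n hn
              rw [Finset.mem_filter] at hn
              rw [Finset.mem_Icc]
              exact ⟨(hpr n hn.1).2.1, not_lt.1 hn.2⟩
            calc ((pr N).filter (fun n => ¬ R < n)).card ≤ (Icc 1 R).card :=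
                  Finset.card_le_card this
              _ = R := by simp
        _ = d * R := mul_comm _ _
    have hsmall : (I.card : ℝ) * (2 * (d * R) ^ 2) ≤ (N / L) ^ 2 := by
      have h4 : (I.card : ℝ) ≤ B * (N : ℝ) ^ (1 - ε) := by
        refine le_trans ?_ hIQ
        have : (0 : ℝ) ≤ I.card := by positivity
        nlinarith
      have h5 : (I.card : ℝ) * (2 * (d * R) ^ 2) * L ^ 2 ≤ N := by
        calc (I.card : ℝ) * (2 * (d * R) ^ 2) * L ^ 2
            = (I.card : ℝ) * (R : ℝ) ^ 2 * (2 * d ^ 2 * L ^ 2) := by ring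
          _ ≤ (B * (N : ℝ) ^ (1 - ε)) * (N : ℝ) ^ (ε / 4) * (2 * d ^ 2 * L ^ 2) := by gcongr
          _ = (2 * B * d ^ 2 * L ^ 2) * ((N : ℝ) ^ (1 - ε) * (N : ℝ) ^ (ε / 4)) := by ring
          _ ≤ (N : ℝ) ^ (ε / 4) * ((N : ℝ) ^ (1 - ε) * (N : ℝ) ^ (ε / 4)) := by
              gcongr
              refine le_trans ?_ hB2
              gcongr
              linarith
          _ = (N : ℝ) ^ (ε / 4 + (1 - ε + ε / 4)) := by rw [hsplit, hsplit]
          _ ≤ (N : ℝ) ^ (1 : ℝ) := Real.rpow_le_rpow_of_exponent_le hN1 (by linarith)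
          _ = N := Real.rpow_one _
      rw [div_pow, le_div_iff₀ (by positivity)]
      refine h5.trans ?_
      nlinarith
    calc ∑ c ∈ I, ‖∑ n ∈ pr N, a n * ev c n‖ ^ 2
        ≤ ∑ c ∈ I, (2 * ‖∑ n ∈ Icc 1 N, a' n * ev c n‖ ^ 2 + 2 * (d * R) ^ 2) := by
          refine Finset.sum_le_sum fun c _ => ?_
          have h4 := hdiffc c
          have h5 : ‖∑ n ∈ pr N, a n * ev c n‖ ≤ ‖∑ n ∈ Icc 1 N, a' n * ev c n‖ + d * R := by
            calc ‖∑ n ∈ pr N, a n * ev c n‖ = ‖∑ n ∈ Icc 1 N, a' n * ev c n +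
                  (∑ n ∈ pr N, a n * ev c n - ∑ n ∈ Icc 1 N, a' n * ev c n)‖ := by
                    congr 1; ring
              _ ≤ _ := (norm_add_le _ _).trans (by linarith)
          have h6 : ‖∑ n ∈ pr N, a n * ev c n‖ ^ 2 ≤
              (‖∑ n ∈ Icc 1 N, a' n * ev c n‖ + d * R) ^ 2 := by gcongr
          nlinarith [sq_nonneg (‖∑ n ∈ Icc 1 N, a' n * ev c n‖ - d * R)]
      _ = 2 * (∑ c ∈ I, ‖∑ n ∈ Icc 1 N, a' n * ev c n‖ ^ 2) + I.card * (2 * (d * R) ^ 2) := by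
          rw [Finset.sum_add_distrib, ← Finset.mul_sum, Finset.sum_const, nsmul_eq_mul]
      _ ≤ 2 * ((2 * d ^ 2 * (64 / ε + 2)) * (N / L) ^ 2) + (N / L) ^ 2 := by gcongr
      _ = _ := by ring
  · -- diagonal
    intro c _
    calc ‖∑ n ∈ Icc 1 N, (v n : ℂ) * (ev c n * conj (ev c n))‖
        ≤ ∑ n ∈ Icc 1 N, v n := by
          refine (norm_sum_le _ _).trans (Finset.sum_le_sum fun n _ => ?_)
          rw [norm_mul, norm_mul, RCLike.norm_conj, Complex.norm_real, Real.norm_of_nonneg (hv0 n)]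
          have h4 := norm_ev_le c n
          calc v n * (‖ev c n‖ * ‖ev c n‖) ≤ v n * (1 * 1) := by
                gcongr
            _ = v n := by ring
      _ ≤ V := hwsum
  · -- off the diagonal
    intro c hc c' hc' hne
    have h4 := gram (hI c hc).1 (hI c' hc').1 (hdiff c hc c' hc' hne) N R w hwle
    refine h4.trans ?_
    have hc1 : (1 : ℝ) ≤ c.1 := by exact_mod_cast Nat.one_le_iff_ne_zero.2 (hI c hc).1
    have hc1' : (1 : ℝ) ≤ c'.1 := by exact_mod_cast Nat.one_le_iff_ne_zero.2 (hI c' hc').1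
    have h5 : √((c.1 : ℝ) * c'.1) ≤ Q := by
      rw [Real.sqrt_le_left (by linarith), sq]
      have := (hI c hc).2
      have := (hI c' hc').2
      gcongr
    have h6 : Real.log ((c.1 : ℝ) * c'.1) ≤ 2 * L := by
      have h7 : (c.1 : ℝ) * c'.1 ≤ (N : ℝ) ^ 2 := by
        have h8 : (c.1 : ℝ) ≤ N := (hI c hc).2.trans hQN
        have h9 : (c'.1 : ℝ) ≤ N := (hI c' hc').2.trans hQN
        rw [sq]
        exact mul_le_mul h8 h9 (by positivity) (by positivity)
      calc Real.log ((c.1 : ℝ) * c'.1) ≤ Real.log ((N : ℝ) ^ 2) := Real.log_le_log (by positivity) h7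
        _ = 2 * L := by rw [Real.log_pow]; push_cast; ring
    have h7 : 0 ≤ Real.log ((c.1 : ℝ) * c'.1) := Real.log_nonneg (by nlinarith)
    rw [hE]
    gcongr

end Pool.Agent.H419.LC
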