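import Mathlib
import Pool.Agent.H419.LC.Large
import Pool.Agent.H419.BS.Sum
import Pool.Agent.H419.BS.Law

/-! From the primes of a number field to the prime numbers; the characters. -/

set_option autoImplicit false

namespace Pool.Agent.H419.LC

open NumberField IsDedekindDomain Filter Topology Finset MeasureTheory ComplexConjugate
open Pool.Agent.W540.BE (upto nm mem_upto nf fiber_finite fiber_card norm_nf_le sum_nf two_le_nm)
open Pool.Agent.Helper644_ST (card_composite card_ratio card_pos_ev)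
open Pool.Agent.H419.BS (pr card_pr pnt U U_le U_atTop)

variable {K : Type} [Field K] [NumberField K]

theorem sum_prφ (g : HeightOneSpectrum (𝓞 K) → ℂ) (N : ℕ) (φ : ℕ → ℂ) :
    ∑ n ∈ pr N, nf g n * φ n =
      ∑ v ∈ (upto K N).filter (fun v => (nm K v).Prime), g v * φ (nm K v) := by
  classical
  rw [← Finset.sum_fiberwise_of_maps_to (t := pr N) (g := nm K)
    (s := (upto K N).filter (fun v => (nm K v).Prime))]
  · refine Finset.sum_congr rfl fun n hn => ?_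
    rw [nf, Finset.sum_mul]
    refine Finset.sum_congr ?_ fun v hv => ?_
    · ext v
      rw [Set.Finite.mem_toFinset, Set.mem_ofPred_eq, Finset.mem_filter, Finset.mem_filter,
        mem_upto]
      rw [pr, Finset.mem_filter, Finset.mem_Ioc] at hn
      constructor
      · intro h
        exact ⟨⟨h ▸ hn.1.2, h ▸ hn.2⟩, h⟩
      · exact fun h => h.2
    · rw [Finset.mem_filter] at hv
      rw [hv.2]
  · intro v hv
    rw [Finset.mem_filter, mem_upto] at hv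
    rw [pr, Finset.mem_filter, Finset.mem_Ioc]
    exact ⟨⟨hv.2.pos, hv.1⟩, hv.2⟩

theorem splitφ {g : HeightOneSpectrum (𝓞 K) → ℂ} (hg : ∀ v, ‖g v‖ ≤ 1) (N : ℕ) {φ : ℕ → ℂ}
    (hφ : ∀ n, ‖φ n‖ ≤ 1) :
    ‖∑ v ∈ upto K N, g v * φ (nm K v) - ∑ n ∈ pr N, nf g n * φ n‖ ≤
      Module.finrank ℚ K * (Nat.sqrt N + 1) := by
  classical
  have e : ∑ v ∈ upto K N, g v * φ (nm K v) =
      ∑ v ∈ (upto K N).filter (fun v => (nm K v).Prime), g v * φ (nm K v) +
      ∑ v ∈ (upto K N).filter (fun v => ¬ (nm K v).Prime), g v * φ (nm K v) :=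
    (Finset.sum_filter_add_sum_filter_not _ _ _).symm
  rw [e, sum_prφ, add_sub_cancel_left]
  refine (norm_sum_le _ _).trans ?_
  refine (Finset.sum_le_card_nsmul _ _ 1 fun v _ => ?_).trans ?_
  · rw [norm_mul]
    calc ‖g v‖ * ‖φ (nm K v)‖ ≤ 1 * 1 := by
          gcongr
          · exact hg v
          · exact hφ _
      _ = 1 := one_mul 1
  · rw [nsmul_eq_mul, mul_one]
    have h := card_composite (F := K) N
    have h2 : (((upto K N).filter (fun v => ¬ (nm K v).Prime)).card : ℝ) ≤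
        ((Module.finrank ℚ K * (Nat.sqrt N + 1) : ℕ) : ℝ) := by
      exact_mod_cast h
    push_cast at h2
    exact h2

variable (K) in
/-- the number of the primes of `K` -/
theorem U_bounds : ∀ᶠ N : ℕ in atTop, (N : ℝ) / Real.log N / 2 ≤ U K N ∧
    U K N ≤ 2 * ((N : ℝ) / Real.log N) := by
  have h1 := card_ratio (F := K)
  have h2 := h1.mul pnt
  rw [mul_one] at h2
  have h3 : ∀ᶠ N : ℕ in atTop, (1 : ℝ) ≤ Real.log N :=
    (Real.tendsto_log_atTop.comp tendsto_natCast_atTop_atTop).eventually_ge_atTop 1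
  have h4 : ∀ᶠ N : ℕ in atTop, (0 : ℝ) < Nat.primeCounting N :=
    (tendsto_natCast_atTop_atTop.comp Nat.tendsto_primeCounting).eventually_gt_atTop 0
  filter_upwards [h2.eventually_const_lt (show (1 / 2 : ℝ) < 1 by norm_num),
    h2.eventually_lt_const (show (1 : ℝ) < 2 by norm_num), h3, h4, eventually_ge_atTop 1]
    with N hN1 hN2 hL hpi hN
  have hN0 : (0 : ℝ) < N := by exact_mod_cast (by omega : 0 < N)
  have e : ((upto K N).card : ℝ) / (Nat.primeCounting N : ℝ) *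
      ((Nat.primeCounting N : ℝ) * Real.log N / N) = U K N * Real.log N / N := by
    rw [U]
    field_simp
  rw [e] at hN1 hN2
  have hL0 : 0 < Real.log N := by linarith
  constructor
  · rw [lt_div_iff₀ hN0] at hN1
    rw [div_div, div_le_iff₀ (by positivity)]
    linarith
  · rw [div_lt_iff₀ hN0] at hN2
    rw [← mul_div_assoc, le_div_iff₀ hL0]
    linarith

/-- the primes of higher degree are negligible -/
theorem small_ev (D ε δ : ℝ) (hD : 0 < D) (hε : 0 < ε) (hδ : 0 < δ) : ∀ᶠ N : ℕ in atTop,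
    D * ((Nat.sqrt N : ℝ) + 1) ≤ δ * ((N : ℝ) ^ (1 / 2 + ε) / Real.log N) := by
  have h1 := asym ε (2 * D / δ) hε (by positivity)
  have h3 : ∀ᶠ N : ℕ in atTop, (1 : ℝ) ≤ Real.log N :=
    (Real.tendsto_log_atTop.comp tendsto_natCast_atTop_atTop).eventually_ge_atTop 1
  filter_upwards [h1, h3, eventually_ge_atTop 1] with N hN hL hN1
  have hN0 : (0 : ℝ) < N := by exact_mod_cast (by omega : 0 < N)
  have hN1' : (1 : ℝ) ≤ N := by exact_mod_cast hN1
  have hs : (Nat.sqrt N : ℝ) ≤ (N : ℝ) ^ (1 / 2 : ℝ) := by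
    rw [← Real.sqrt_eq_rpow]
    exact Real.nat_sqrt_le_real_sqrt
  have h1s : (1 : ℝ) ≤ (N : ℝ) ^ (1 / 2 : ℝ) := Real.one_le_rpow hN1' (by norm_num)
  have hL0 : 0 < Real.log N := by linarith
  have h5 : 2 * D / δ * Real.log N ≤ (N : ℝ) ^ ε := by
    refine le_trans ?_ hN
    have : Real.log N ≤ Real.log N ^ 2 := by nlinarith
    gcongr
  have h6 : 2 * D * Real.log N ≤ δ * (N : ℝ) ^ ε := by
    calc 2 * D * Real.log N = δ * (2 * D / δ * Real.log N) := by field_simp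
      _ ≤ _ := by gcongr
  rw [← mul_div_assoc, le_div_iff₀ hL0, Real.rpow_add hN0]
  calc D * ((Nat.sqrt N : ℝ) + 1) * Real.log N
      ≤ D * ((N : ℝ) ^ (1 / 2 : ℝ) + (N : ℝ) ^ (1 / 2 : ℝ)) * Real.log N := by gcongr
    _ = (N : ℝ) ^ (1 / 2 : ℝ) * (2 * D * Real.log N) := by ring
    _ ≤ (N : ℝ) ^ (1 / 2 : ℝ) * (δ * (N : ℝ) ^ ε) := by gcongr
    _ = _ := by ring

variable (K) in
/-- **Few characters.** -/
theorem chars (ε η : ℝ) (hε : 0 < ε) (hε1 : ε ≤ 1) (hη : 0 < η) : ∃ C N₀ : ℕ, ∀ N : ℕ, N₀ ≤ N →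
    ∀ g : HeightOneSpectrum (𝓞 K) → ℂ, (∀ v, ‖g v‖ ≤ 1) →
    ∀ I : Finset (Σ q : ℕ, DirichletCharacter ℂ q),
    (∀ c ∈ I, c.1 ≠ 0 ∧ (c.1 : ℝ) ≤ (N : ℝ) ^ (1 - ε)) →
    (∀ c ∈ I, ∀ c' ∈ I, c ≠ c' → Differ c c') →
    (∀ c ∈ I, η * ((N : ℝ) / Real.log N) ≤ ‖∑ v ∈ upto K N, g v * ev c (nm K v)‖) →
    I.card ≤ C := by
  classical
  have hd : (0 : ℝ) < Module.finrank ℚ K := by exact_mod_cast Module.finrank_pos
  obtain ⟨C₀, hC₀, hlarge⟩ := large ε (Module.finrank ℚ K) hε hε1 hd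
  set C : ℕ := ⌈4 * C₀ / η ^ 2⌉₊ with hC
  obtain ⟨N₁, hN₁⟩ := hlarge ((C : ℝ) + 1) (by positivity)
  have hsmall := small_ev (Module.finrank ℚ K) (1 / 2) (η / 2) hd (by norm_num) (by positivity)
  have h3 : ∀ᶠ N : ℕ in atTop, (1 : ℝ) ≤ Real.log N :=
    (Real.tendsto_log_atTop.comp tendsto_natCast_atTop_atTop).eventually_ge_atTop 1
  obtain ⟨N₂, hN₂⟩ := eventually_atTop.1 (hsmall.and (h3.and (eventually_ge_atTop 1)))
  refine ⟨C, max N₁ N₂, fun N hN g hg I hI hdiff hbig => ?_⟩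
  obtain ⟨hs, hL, hN1⟩ := hN₂ N ((le_max_right _ _).trans hN)
  have hN0 : (0 : ℝ) < N := by exact_mod_cast (by omega : 0 < N)
  have hN1' : (1 : ℝ) ≤ N := by exact_mod_cast hN1
  rw [show (1 / 2 + 1 / 2 : ℝ) = 1 by norm_num, Real.rpow_one] at hs
  set X : ℝ := (N : ℝ) / Real.log N with hX
  have hX0 : 0 < X := by
    have : 0 < Real.log N := by linarith
    positivity
  by_contra hcon
  obtain ⟨J, hJI, hJ⟩ := Finset.exists_subset_card_eq (show C + 1 ≤ I.card by omega)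
  have h4 := hN₁ N ((le_max_left _ _).trans hN) ((N : ℝ) ^ (1 - ε)) J
    (Real.one_le_rpow hN1' (by linarith))
    (by
      calc (N : ℝ) ^ (1 - ε) ≤ (N : ℝ) ^ (1 : ℝ) :=
            Real.rpow_le_rpow_of_exponent_le hN1' (by linarith)
        _ = N := Real.rpow_one _)
    (fun c hc => hI c (hJI hc)) (fun c hc c' hc' => hdiff c (hJI hc) c' (hJI hc'))
    (by rw [hJ]; push_cast; exact le_rfl) (nf g)
    (fun n => by simpa using norm_nf_le (B := 1) hg n)
  have h5 : ∀ c ∈ J, (η / 2 * X) ^ 2 ≤ ‖∑ n ∈ pr N, nf g n * ev c n‖ ^ 2 := by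
    intro c hc
    have h6 := hbig c (hJI hc)
    have h7 := splitφ hg N (φ := fun n => ev c n) (fun n => norm_ev_le c n)
    have h8 : ‖∑ v ∈ upto K N, g v * ev c (nm K v)‖ ≤ ‖∑ n ∈ pr N, nf g n * ev c n‖ +
        ‖∑ v ∈ upto K N, g v * ev c (nm K v) - ∑ n ∈ pr N, nf g n * ev c n‖ := by
      have := norm_add_le (∑ n ∈ pr N, nf g n * ev c n)
        (∑ v ∈ upto K N, g v * ev c (nm K v) - ∑ n ∈ pr N, nf g n * ev c n)
      rwa [add_sub_cancel] at this
    have h9 : η / 2 * X ≤ ‖∑ n ∈ pr N, nf g n * ev c n‖ := by linarith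
    gcongr
  have h6 := (Finset.card_nsmul_le_sum J _ _ h5).trans h4
  rw [hJ, nsmul_eq_mul] at h6
  have h7 : ((C + 1 : ℕ) : ℝ) * (η ^ 2 / 4) ≤ C₀ := by
    have h8 : (((C + 1 : ℕ) : ℝ) * (η ^ 2 / 4)) * X ^ 2 ≤ C₀ * X ^ 2 := by
      calc _ = ((C + 1 : ℕ) : ℝ) * (η / 2 * X) ^ 2 := by ring
        _ ≤ _ := h6
    exact le_of_mul_le_mul_right h8 (by positivity)
  have h8 : 4 * C₀ / η ^ 2 ≤ C := Nat.le_ceil _
  rw [div_le_iff₀ (by positivity)] at h8
  push_cast at h7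
  nlinarith [sq_nonneg η, pow_pos hη 2]

end Pool.Agent.H419.LC
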