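import Mathlib
import Pool.Agent.H419.LC.NF

/-! Few moduli. -/

set_option autoImplicit false

namespace Pool.Agent.H419.LC

open Filter Topology Finset ComplexConjugate
open Pool.Agent.H419.BS (pr card_pr pnt)

/-- the sum over a residue class -/
noncomputable def T (a : ℕ → ℂ) (N m : ℕ) (c : ZMod m) : ℂ :=
  open Classical in ∑ n ∈ (pr N).filter (fun n : ℕ => (n : ZMod m) = c), a n

/-- the sum over the classes prime to the modulus -/
noncomputable def T0 (a : ℕ → ℂ) (N m : ℕ) [NeZero m] : ℂ := ∑ c : (ZMod m)ˣ, T a N m (c : ZMod m)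

/-- the variance -/
noncomputable def Var (a : ℕ → ℂ) (N m : ℕ) [NeZero m] : ℝ :=
  (Nat.totient m : ℝ) * ∑ c : (ZMod m)ˣ, ‖T a N m (c : ZMod m) - T0 a N m / (Nat.totient m : ℂ)‖ ^ 2

theorem sum_units (m : ℕ) [NeZero m] (G : ZMod m → ℂ) (hG : ∀ a, ¬ IsUnit a → G a = 0) :
    ∑ a : ZMod m, G a = ∑ c : (ZMod m)ˣ, G (c : ZMod m) := by
  classical
  have h1 := Finset.sum_filter_add_sum_filter_not (univ : Finset (ZMod m)) (fun a => IsUnit a) G
  rw [← h1, Finset.sum_eq_zero (s := univ.filter (fun a => ¬ IsUnit a)), add_zero]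
  · symm
    refine Finset.sum_bij (fun (c : (ZMod m)ˣ) _ => (c : ZMod m)) ?_ ?_ ?_ ?_
    · intro c _
      simp
    · intro c _ c' _ h
      exact Units.ext h
    · intro b hb
      rw [Finset.mem_filter] at hb
      obtain ⟨u, hu⟩ := hb.2
      exact ⟨u, Finset.mem_univ _, hu⟩
    · intro c _
      rfl
  · intro a ha
    rw [Finset.mem_filter] at ha
    exact hG a ha.2

theorem char_T (a : ℕ → ℂ) (N m : ℕ) [NeZero m] (χ : DirichletCharacter ℂ m) :
    ∑ c : ZMod m, χ c * T a N m c = ∑ n ∈ pr N, a n * χ (n : ZMod m) := by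
  classical
  have e : ∀ c : ZMod m, χ c * T a N m c =
      ∑ n ∈ pr N, if (n : ZMod m) = c then a n * χ (n : ZMod m) else 0 := by
    intro c
    rw [T, Finset.mul_sum, ← Finset.sum_filter]
    refine Finset.sum_congr (by congr) fun n hn => ?_
    rw [Finset.mem_filter] at hn
    rw [hn.2, mul_comm]
  rw [Finset.sum_congr rfl (fun c _ => e c), Finset.sum_comm]
  refine Finset.sum_congr rfl fun n _ => ?_
  rw [Finset.sum_ite_eq, if_pos (Finset.mem_univ _)]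

theorem var_eq (a : ℕ → ℂ) (N m : ℕ) [NeZero m] :
    Var a N m = ∑ χ ∈ (univ : Finset (DirichletCharacter ℂ m)).filter (fun χ => χ ≠ 1),
      ‖∑ n ∈ pr N, a n * χ (n : ZMod m)‖ ^ 2 := by
  classical
  have hφ : (Nat.totient m : ℂ) ≠ 0 := by
    exact_mod_cast (Nat.totient_pos.2 (NeZero.pos m)).ne'
  set w : ℂ := T0 a N m / (Nat.totient m : ℂ) with hw
  have h1 := Pool.Agent.Helper112.MLS.sum_all m (fun c => T a N m c - w)
  have hcard : Fintype.card (ZMod m)ˣ = Nat.totient m := ZMod.card_units_eq_totient m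
  have h2 : ∀ χ : DirichletCharacter ℂ m, ∑ c : ZMod m, χ⁻¹ c * (T a N m c - w) =
      if χ = 1 then 0 else ∑ n ∈ pr N, a n * χ⁻¹ (n : ZMod m) := by
    intro χ
    split_ifs with h
    · subst h
      rw [sum_units m _ (fun a ha => by rw [MulChar.map_nonunit _ ha, zero_mul])]
      have e : ∀ c : (ZMod m)ˣ, ((1 : DirichletCharacter ℂ m)⁻¹ (c : ZMod m)) * (T a N m c - w) =
          T a N m c - w := by
        intro c
        rw [inv_one, MulChar.one_apply c.isUnit, one_mul]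
      rw [Finset.sum_congr rfl (fun c _ => e c), Finset.sum_sub_distrib, Finset.sum_const,
        Finset.card_univ, hcard, nsmul_eq_mul, hw, mul_div_cancel₀ _ hφ]
      exact sub_self _
    · have hne : χ⁻¹ ≠ 1 := fun h' => h (inv_eq_one.1 h')
      have e : ∑ c : ZMod m, χ⁻¹ c * (T a N m c - w) =
          ∑ c : ZMod m, χ⁻¹ c * T a N m c - (∑ c : ZMod m, χ⁻¹ c) * w := by
        rw [Finset.sum_mul, ← Finset.sum_sub_distrib]
        exact Finset.sum_congr rfl fun c _ => by ring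
      rw [e, MulChar.sum_eq_zero_of_ne_one hne, zero_mul, sub_zero, char_T]
  rw [Var, ← h1, Finset.sum_congr rfl (fun χ _ => by rw [h2 χ])]
  have h3 : ∑ χ : DirichletCharacter ℂ m,
      ‖if χ = 1 then (0 : ℂ) else ∑ n ∈ pr N, a n * χ⁻¹ (n : ZMod m)‖ ^ 2 =
      ∑ χ ∈ (univ : Finset (DirichletCharacter ℂ m)).filter (fun χ => χ ≠ 1),
        ‖∑ n ∈ pr N, a n * χ⁻¹ (n : ZMod m)‖ ^ 2 := by
    rw [Finset.sum_filter]
    refine Finset.sum_congr rfl fun χ _ => ?_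
    by_cases h : χ = 1
    · rw [if_pos h, if_neg (fun h' => h' h), norm_zero]
      norm_num
    · rw [if_neg h, if_pos h]
  rw [h3]
  refine Finset.sum_bij (fun χ _ => χ⁻¹) ?_ ?_ ?_ ?_
  · intro χ hχ
    rw [Finset.mem_filter] at hχ ⊢
    exact ⟨Finset.mem_univ _, fun h => hχ.2 (inv_eq_one.1 h)⟩
  · intro χ _ χ' _ h
    exact inv_injective h
  · intro χ hχ
    rw [Finset.mem_filter] at hχ
    exact ⟨χ⁻¹, by rw [Finset.mem_filter]; exact ⟨Finset.mem_univ _, fun h => hχ.2 (inv_eq_one.1 h)⟩,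
      inv_inv χ⟩
  · intro χ _
    rfl

/-- the nonprincipal characters -/
noncomputable def np (m : ℕ) : Finset (DirichletCharacter ℂ m) :=
  open Classical in
  if h : m ≠ 0 then (letI : NeZero m := ⟨h⟩; univ.filter (fun χ => χ ≠ 1)) else ∅

theorem mem_np {m : ℕ} (h : m ≠ 0) {χ : DirichletCharacter ℂ m} : χ ∈ np m ↔ χ ≠ 1 := by
  classical
  rw [np, dif_pos h]
  simp

theorem card_np_le (m : ℕ) : (np m).card ≤ m := by
  classical
  by_cases h : m ≠ 0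
  · have : NeZero m := ⟨h⟩
    have h1 : (np m).card ≤ Fintype.card (DirichletCharacter ℂ m) := Finset.card_le_univ _
    have h2 : Fintype.card (DirichletCharacter ℂ m) = Nat.totient m := by
      rw [← Nat.card_eq_fintype_card, DirichletCharacter.card_eq_totient_of_hasEnoughRootsOfUnity]
    rw [h2] at h1
    exact h1.trans (Nat.totient_le m)
  · rw [np, dif_neg h]
    simp

theorem differ_of {m m' : ℕ} (hm : m ≠ 0) (hm' : m' ≠ 0) (hco : m ≠ m' → m.Coprime m')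
    {χ : DirichletCharacter ℂ m} {χ' : DirichletCharacter ℂ m'} (hχ : χ ≠ 1)
    (hne : (⟨m, χ⟩ : Σ q : ℕ, DirichletCharacter ℂ q) ≠ ⟨m', χ'⟩) :
    Differ ⟨m, χ⟩ ⟨m', χ'⟩ := by
  have : NeZero m := ⟨hm⟩
  by_cases h : m = m'
  · subst h
    have h1 : χ ≠ χ' := fun h => hne (by rw [h])
    obtain ⟨u, hu⟩ : ∃ u : (ZMod m)ˣ, χ u ≠ χ' u := by
      by_contra hcon
      push Not at hcon
      exact h1 (MulChar.ext hcon)
    refine ⟨(u : ZMod m).val, ZMod.val_coe_unit_coprime u, ZMod.val_coe_unit_coprime u, ?_⟩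
    change χ (((u : ZMod m).val : ℕ) : ZMod m) ≠ χ' (((u : ZMod m).val : ℕ) : ZMod m)
    rwa [ZMod.natCast_zmod_val]
  · obtain ⟨u, hu⟩ : ∃ u : (ZMod m)ˣ, χ u ≠ 1 := by
      by_contra hcon
      push Not at hcon
      apply hχ
      refine MulChar.ext fun u => ?_
      rw [hcon u, MulChar.one_apply u.isUnit]
    obtain ⟨n, hn1, hn2⟩ := Nat.chineseRemainder (hco h) (u : ZMod m).val 1
    have e1 : (n : ZMod m) = u := by
      rw [(ZMod.natCast_eq_natCast_iff _ _ _).2 hn1, ZMod.natCast_zmod_val]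
    have e2 : (n : ZMod m') = 1 := by
      rw [(ZMod.natCast_eq_natCast_iff _ _ _).2 hn2, Nat.cast_one]
    refine ⟨n, ?_, ?_, ?_⟩
    · show n.Coprime m
      rw [← ZMod.isUnit_iff_coprime, e1]
      exact u.isUnit
    · show n.Coprime m'
      rw [← ZMod.isUnit_iff_coprime, e2]
      exact isUnit_one
    · change χ (n : ZMod m) ≠ χ' (n : ZMod m')
      rw [e1, e2, map_one]
      exact hu

/-- **The variance for few coprime moduli.** -/
theorem var_le (ε d : ℝ) (hε : 0 < ε) (hε1 : ε ≤ 1 / 2) (hd : 0 < d) : ∃ C : ℝ, 0 < C ∧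
    ∀ k : ℕ, ∃ N₀ : ℕ, ∀ N : ℕ, N₀ ≤ N → ∀ 𝒬 : Finset ℕ, 𝒬.card ≤ k → 
    ∀ h𝒬 : (∀ m ∈ 𝒬, m ≠ 0), (∀ m ∈ 𝒬, (m : ℝ) ≤ (N : ℝ) ^ (1 / 2 - ε)) →
    (∀ m ∈ 𝒬, ∀ m' ∈ 𝒬, m ≠ m' → m.Coprime m') →
    ∀ a : ℕ → ℂ, (∀ n, ‖a n‖ ≤ d) →
    ∑ m ∈ 𝒬.attach, (haveI : NeZero m.1 := ⟨h𝒬 m.1 m.2⟩; Var a N m.1) ≤
      C * ((N : ℝ) / Real.log N) ^ 2 := by
  classical
  obtain ⟨C, hC, hlarge⟩ := large ε d hε (by linarith) hd
  refine ⟨C, hC, fun k => ?_⟩
  obtain ⟨N₁, hN₁⟩ := hlarge ((k : ℝ) + 1) (by positivity)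
  refine ⟨max N₁ 1, fun N hN 𝒬 hk h𝒬 hle hco a ha => ?_⟩
  have hN1 : 1 ≤ N := (le_max_right _ _).trans hN
  have hN0 : (0 : ℝ) < N := by exact_mod_cast (by omega : 0 < N)
  have hN1' : (1 : ℝ) ≤ N := by exact_mod_cast hN1
  set I : Finset (Σ q : ℕ, DirichletCharacter ℂ q) := 𝒬.sigma np with hI
  have hmem : ∀ c ∈ I, c.1 ∈ 𝒬 ∧ c.2 ≠ 1 := by
    intro c hc
    rw [hI, Finset.mem_sigma] at hc
    exact ⟨hc.1, (mem_np (h𝒬 _ hc.1)).1 hc.2⟩
  have hcard : (I.card : ℝ) ≤ k * (N : ℝ) ^ (1 / 2 - ε) := by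
    rw [hI, Finset.card_sigma]
    push_cast
    calc ∑ m ∈ 𝒬, ((np m).card : ℝ) ≤ ∑ m ∈ 𝒬, (N : ℝ) ^ (1 / 2 - ε) := by
          refine Finset.sum_le_sum fun m hm => ?_
          exact (by exact_mod_cast card_np_le m : ((np m).card : ℝ) ≤ m).trans (hle m hm)
      _ = (𝒬.card : ℝ) * (N : ℝ) ^ (1 / 2 - ε) := by rw [Finset.sum_const, nsmul_eq_mul]
      _ ≤ _ := by
          have : (𝒬.card : ℝ) ≤ k := by exact_mod_cast hk
          gcongr
  have h1 := hN₁ N ((le_max_left _ _).trans hN) ((N : ℝ) ^ (1 / 2 - ε)) I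
    (Real.one_le_rpow hN1' (by linarith))
    (by
      calc (N : ℝ) ^ (1 / 2 - ε) ≤ (N : ℝ) ^ (1 : ℝ) :=
            Real.rpow_le_rpow_of_exponent_le hN1' (by linarith)
        _ = N := Real.rpow_one _)
    (fun c hc => ⟨h𝒬 _ (hmem c hc).1, hle _ (hmem c hc).1⟩)
    (fun c hc c' hc' hne => differ_of (h𝒬 _ (hmem c hc).1) (h𝒬 _ (hmem c' hc').1)
      (fun h => hco _ (hmem c hc).1 _ (hmem c' hc').1 h) (hmem c hc).2 hne)
    (by
      calc (I.card : ℝ) * (N : ℝ) ^ (1 / 2 - ε)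
          ≤ (k * (N : ℝ) ^ (1 / 2 - ε)) * (N : ℝ) ^ (1 / 2 - ε) := by gcongr
        _ = k * (N : ℝ) ^ ((1 / 2 - ε) + (1 / 2 - ε)) := by
            rw [Real.rpow_add hN0]
            ring
        _ ≤ k * (N : ℝ) ^ (1 - ε) := by
            gcongr
            linarith
        _ ≤ (k + 1) * (N : ℝ) ^ (1 - ε) := by
            gcongr
            linarith)
    a ha
  refine le_trans (le_of_eq ?_) h1
  rw [hI, Finset.sum_sigma, ← Finset.sum_attach 𝒬]
  refine Finset.sum_congr rfl fun m _ => ?_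
  have hm0 := h𝒬 m.1 m.2
  have : NeZero m.1 := ⟨hm0⟩
  rw [var_eq]
  refine Finset.sum_congr ?_ fun χ _ => rfl
  ext χ
  rw [mem_np hm0, Finset.mem_filter]
  simp

end Pool.Agent.H419.LC
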