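import Mathlib
import Pool.Agent.H419.LC.Defs
import Pool.Graph.R_pool_sql_team_seeded_620a6dc7.Helper368_LD.Kchi

/-! The real characters. -/

set_option autoImplicit false

namespace Pool.Agent.H419.LC

open Pool.Agent.Helper368_LD (kro kchi kchi_natCast)

/-- the character of `k` -/
noncomputable def cq (k : ℕ) : Σ q : ℕ, DirichletCharacter ℂ q :=
  if h : 4 * k ≠ 0 then ⟨4 * k, @kchi k ⟨h⟩⟩ else ⟨1, 1⟩

theorem cq_fst {k : ℕ} (h : k ≠ 0) : (cq k).1 = 4 * k := by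
  rw [cq, dif_pos (by omega)]

theorem ev_cq {k : ℕ} (h : k ≠ 0) (n : ℕ) : ev (cq k) n = ((kro k n : ℤ) : ℂ) := by
  have h4 : 4 * k ≠ 0 := by omega
  rw [cq, dif_pos h4]
  exact @kchi_natCast k ⟨h4⟩ n

end Pool.Agent.H419.LC
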