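import Mathlib
import Pool.Agent.H419.LC.Large

/-! The large sieve for few characters of large conductor, for sequences without small factors. -/

set_option autoImplicit false

open Finset ComplexConjugate Filter Topology

namespace Pool.Agent.H419.LC

set_option maxHeartbeats 4000000 in
/-- **The large sieve for few characters, for sequences without small factors.** -/
theorem large_rough (ε : ℝ) (hε : 0 < ε) (hε1 : ε ≤ 1) : ∃ C : ℝ, 0 < C ∧
    ∀ B : ℝ, 0 < B → ∃ N₀ : ℕ, ∀ N : ℕ, N₀ ≤ N →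
    ∀ (Q : ℝ) (I : Finset (Σ q : ℕ, DirichletCharacter ℂ q)), 1 ≤ Q → Q ≤ N →
    (∀ c ∈ I, c.1 ≠ 0 ∧ (c.1 : ℝ) ≤ Q) → (∀ c ∈ I, ∀ c' ∈ I, c ≠ c' → Differ c c') →
    (I.card : ℝ) * Q ≤ B * (N : ℝ) ^ (1 - ε) →
    ∀ a : ℕ → ℂ, (∀ n, a n ≠ 0 → ∀ e, e ∣ n → (e : ℝ) ≤ (N : ℝ) ^ (ε / 16) → e = 1) →
    ∑ c ∈ I, ‖∑ n ∈ Icc 1 N, a n * ev c n‖ ^ 2 ≤
      C * ((N : ℝ) / Real.log N) * ∑ n ∈ Icc 1 N, ‖a n‖ ^ 2 := by
  classical
  refine ⟨64 / ε + 2, by positivity, fun B hB => ?_⟩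
  have h1 := asym (ε / 4) (6 * B + 1) (by positivity) (by positivity)
  have h3 : ∀ᶠ N : ℕ in atTop, (1 : ℝ) ≤ Real.log N :=
    (Real.tendsto_log_atTop.comp tendsto_natCast_atTop_atTop).eventually_ge_atTop 1
  obtain ⟨N₀, hN₀⟩ := eventually_atTop.1 (h1.and (h3.and (eventually_ge_atTop 2)))
  refine ⟨N₀, fun N hN Q I hQ1 hQN hI hdiff hIQ a ha => ?_⟩
  obtain ⟨hB1, hlog1, hN2⟩ := hN₀ N hN
  have hN0 : (0 : ℝ) < N := by exact_mod_cast (by omega : 0 < N)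
  have hN1 : (1 : ℝ) ≤ N := by exact_mod_cast (by omega : 1 ≤ N)
  set L : ℝ := Real.log N with hL
  have hL0 : 0 < L := by linarith
  set R : ℕ := ⌊(N : ℝ) ^ (ε / 16)⌋₊ with hR
  have hRle : (R : ℝ) ≤ (N : ℝ) ^ (ε / 16) := Nat.floor_le (by positivity)
  have hR1 : 1 ≤ R := by
    rw [hR, Nat.one_le_floor_iff]
    exact Real.one_le_rpow hN1 (by positivity)
  have hRlog : ε / 16 * L ≤ Real.log ((R : ℝ) + 1) := by
    rw [hL, ← Real.log_rpow hN0]
    exact Real.log_le_log (by positivity) (Nat.lt_floor_add_one _).le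
  have hR4 : (R : ℝ) ^ 4 ≤ (N : ℝ) ^ (ε / 4) := by
    calc (R : ℝ) ^ 4 ≤ ((N : ℝ) ^ (ε / 16)) ^ 4 := by gcongr
      _ = (N : ℝ) ^ (ε / 4) := by
        rw [← Real.rpow_natCast, ← Real.rpow_mul hN0.le]
        congr 1
        push_cast
        ring
  have hR2 : (R : ℝ) ^ 2 ≤ (N : ℝ) ^ (ε / 4) := by
    refine le_trans ?_ hR4
    exact pow_le_pow_right₀ (by exact_mod_cast hR1) (by norm_num)
  -- the exponents
  have hsplit : ∀ x y : ℝ, (N : ℝ) ^ x * (N : ℝ) ^ y = (N : ℝ) ^ (x + y) :=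
    fun x y => (Real.rpow_add hN0 x y).symm
  have hNL : (N : ℝ) ^ (ε / 4) ≤ N / L := by
    rw [le_div_iff₀ hL0]
    have h4 : L ≤ (N : ℝ) ^ (ε / 4) := by
      have : (1 : ℝ) * L ^ 2 ≤ (6 * B + 1) * L ^ 2 := by gcongr; linarith
      nlinarith
    calc (N : ℝ) ^ (ε / 4) * L ≤ (N : ℝ) ^ (ε / 4) * (N : ℝ) ^ (ε / 4) := by gcongr
      _ = (N : ℝ) ^ (ε / 4 + ε / 4) := hsplit _ _
      _ ≤ (N : ℝ) ^ (1 : ℝ) := Real.rpow_le_rpow_of_exponent_le hN1 (by linarith)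
      _ = N := Real.rpow_one _
  obtain ⟨w, hw1, hwle, hwsum⟩ := weight N R hR1
  set v : ℕ → ℝ := fun n => (∑ e ∈ (Icc 1 R).filter (fun e => e ∣ n), w e) ^ 2 with hv
  have hv0 : ∀ n, 0 ≤ v n := fun n => sq_nonneg _
  set V : ℝ := 4 * N / Real.log ((R : ℝ) + 1) + (R : ℝ) ^ 4 with hV
  have hlogR : 0 < Real.log ((R : ℝ) + 1) := lt_of_lt_of_le (by positivity) hRlog
  have hVle : V ≤ (64 / ε + 1) * (N / L) := by
    have h4 : 4 * (N : ℝ) / Real.log ((R : ℝ) + 1) ≤ 4 * N / (ε / 16 * L) := by gcongr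
    have h5 : 4 * (N : ℝ) / (ε / 16 * L) = 64 / ε * (N / L) := by
      field_simp
      ring
    rw [hV]
    linarith [hR4.trans hNL]
  have hV0 : 0 ≤ V := by positivity
  set E : ℝ := (R : ℝ) ^ 4 * (2 * Q * (1 + 2 * L)) with hE
  have hE0 : 0 ≤ E := by positivity
  -- the coefficients
  have hav : ∀ n ∈ Icc 1 N, a n ≠ 0 → 1 ≤ v n := by
    intro n _ hne
    have h5 : (Icc 1 R).filter (fun e => e ∣ n) = {1} := by
      ext e
      rw [Finset.mem_filter, Finset.mem_Icc, Finset.mem_singleton]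
      constructor
      · rintro ⟨⟨h6, h7⟩, h8⟩
        refine ha n hne e h8 (le_trans ?_ hRle)
        exact_mod_cast h7
      · rintro rfl
        exact ⟨⟨le_rfl, hR1⟩, one_dvd _⟩
    simp only [hv]
    rw [h5, Finset.sum_singleton, hw1]
    norm_num
  have hdual := dual I (fun c n => ev c n) N v hv0 a hav V E hV0 hE0 ?_ ?_
  · -- conclusion
    have hIE : (I.card : ℝ) * E ≤ N / L := by
      rw [hE, le_div_iff₀ hL0]
      have h4 : 2 * (1 + 2 * L) * L ≤ 6 * L ^ 2 := by nlinarith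
      calc (I.card : ℝ) * ((R : ℝ) ^ 4 * (2 * Q * (1 + 2 * L))) * L
          = ((I.card : ℝ) * Q) * (R : ℝ) ^ 4 * (2 * (1 + 2 * L) * L) := by ring
        _ ≤ (B * (N : ℝ) ^ (1 - ε)) * (N : ℝ) ^ (ε / 4) * (6 * L ^ 2) := by gcongr
        _ = (6 * B * L ^ 2) * ((N : ℝ) ^ (1 - ε) * (N : ℝ) ^ (ε / 4)) := by ring
        _ ≤ (N : ℝ) ^ (ε / 4) * ((N : ℝ) ^ (1 - ε) * (N : ℝ) ^ (ε / 4)) := by
            gcongr
            refine le_trans ?_ hB1
            gcongr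
            linarith
        _ = (N : ℝ) ^ (ε / 4 + (1 - ε + ε / 4)) := by rw [hsplit, hsplit]
        _ ≤ (N : ℝ) ^ (1 : ℝ) := Real.rpow_le_rpow_of_exponent_le hN1 (by linarith)
        _ = N := Real.rpow_one _
    have hA0 : 0 ≤ ∑ n ∈ Icc 1 N, ‖a n‖ ^ 2 := Finset.sum_nonneg fun _ _ => by positivity
    refine hdual.trans ?_
    calc (∑ n ∈ Icc 1 N, ‖a n‖ ^ 2) * (V + I.card * E)
        ≤ (∑ n ∈ Icc 1 N, ‖a n‖ ^ 2) * ((64 / ε + 1) * (N / L) + N / L) := by gcongr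
      _ = _ := by ring
  · -- diagonal
    intro c _
    calc ‖∑ n ∈ Icc 1 N, (v n : ℂ) * (ev c n * conj (ev c n))‖
        ≤ ∑ n ∈ Icc 1 N, v n := by
          refine (norm_sum_le _ _).trans (Finset.sum_le_sum fun n _ => ?_)
          rw [norm_mul, norm_mul, RCLike.norm_conj, Complex.norm_real, Real.norm_of_nonneg (hv0 n)]
          have h4 := norm_ev_le c n
          calc v n * (‖ev c n‖ * ‖ev c n‖) ≤ v n * (1 * 1) := by
                gcongr
            _ = v n := by ring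
      _ ≤ V := hwsum
  · -- off the diagonal
    intro c hc c' hc' hne
    have h4 := gram (hI c hc).1 (hI c' hc').1 (hdiff c hc c' hc' hne) N R w hwle
    refine h4.trans ?_
    have hc1 : (1 : ℝ) ≤ c.1 := by exact_mod_cast Nat.one_le_iff_ne_zero.2 (hI c hc).1
    have hc1' : (1 : ℝ) ≤ c'.1 := by exact_mod_cast Nat.one_le_iff_ne_zero.2 (hI c' hc').1
    have h5 : √((c.1 : ℝ) * c'.1) ≤ Q := by
      rw [Real.sqrt_le_left (by linarith), sq]
      have := (hI c hc).2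
      have := (hI c' hc').2
      gcongr
    have h6 : Real.log ((c.1 : ℝ) * c'.1) ≤ 2 * L := by
      have h7 : (c.1 : ℝ) * c'.1 ≤ (N : ℝ) ^ 2 := by
        have h8 : (c.1 : ℝ) ≤ N := (hI c hc).2.trans hQN
        have h9 : (c'.1 : ℝ) ≤ N := (hI c' hc').2.trans hQN
        rw [sq]
        exact mul_le_mul h8 h9 (by positivity) (by positivity)
      calc Real.log ((c.1 : ℝ) * c'.1) ≤ Real.log ((N : ℝ) ^ 2) := Real.log_le_log (by positivity) h7
        _ = 2 * L := by rw [Real.log_pow]; push_cast; ring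
    have h7 : 0 ≤ Real.log ((c.1 : ℝ) * c'.1) := Real.log_nonneg (by nlinarith)
    rw [hE]
    gcongr

end Pool.Agent.H419.LC
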