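import Mathlib
import Pool.Agent.H419.LC.Rough
import Pool.Agent.H419.LC.NF

/-! Powers of the character sums over the primes. -/

set_option autoImplicit false

open Finset ComplexConjugate Filter Topology

namespace Pool.Agent.H419.LC

/-- the coefficients of the `k`-th power -/
noncomputable def bk (a : ℕ → ℂ) (P : Finset ℕ) (k n : ℕ) : ℂ :=
  ∑ f ∈ (Fintype.piFinset (fun _ : Fin k => P)).filter (fun f => ∏ i, f i = n), ∏ i, a (f i)

theorem ev_prod (c : Σ q : ℕ, DirichletCharacter ℂ q) {k : ℕ} (f : Fin k → ℕ) :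
    ev c (∏ i, f i) = ∏ i, ev c (f i) := by
  rw [ev, Nat.cast_prod, map_prod]
  rfl

theorem pow_eq (a : ℕ → ℂ) (P : Finset ℕ) (k N : ℕ) (hP : ∀ p ∈ P, 1 ≤ p ∧ p ≤ N)
    (c : Σ q : ℕ, DirichletCharacter ℂ q) :
    (∑ p ∈ P, a p * ev c p) ^ k = ∑ n ∈ Icc 1 (N ^ k), bk a P k n * ev c n := by
  classical
  have h1 : (∑ p ∈ P, a p * ev c p) ^ k = ∏ _i : Fin k, ∑ p ∈ P, a p * ev c p := by
    rw [Finset.prod_const, Finset.card_univ, Fintype.card_fin]
  rw [h1, Finset.prod_univ_sum, ← Finset.sum_fiberwise_of_maps_to (t := Icc 1 (N ^ k))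
    (g := fun f : Fin k → ℕ => ∏ i, f i)]
  · refine Finset.sum_congr rfl fun n _ => ?_
    rw [bk, Finset.sum_mul]
    refine Finset.sum_congr rfl fun f hf => ?_
    rw [Finset.mem_filter] at hf
    rw [← hf.2, ev_prod, Finset.prod_mul_distrib]
  · intro f hf
    rw [Fintype.mem_piFinset] at hf
    rw [Finset.mem_Icc]
    constructor
    · exact Nat.one_le_iff_ne_zero.2 (Finset.prod_ne_zero_iff.2 fun i _ => by
        have := (hP _ (hf i)).1
        omega)
    · calc ∏ i, f i ≤ ∏ _i : Fin k, N := Finset.prod_le_prod' fun i _ => (hP _ (hf i)).2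
        _ = N ^ k := by rw [Finset.prod_const, Finset.card_univ, Fintype.card_fin]

theorem fiber_le (P : Finset ℕ) (hP : ∀ p ∈ P, p.Prime) (k n : ℕ) :
    ((Fintype.piFinset (fun _ : Fin k => P)).filter (fun f => ∏ i, f i = n)).card ≤ k ^ k := by
  classical
  rcases ((Fintype.piFinset (fun _ : Fin k => P)).filter (fun f => ∏ i, f i = n)).eq_empty_or_nonempty
    with h | ⟨f₀, hf₀⟩
  · rw [h]
    simp
  · rw [Finset.mem_filter, Fintype.mem_piFinset] at hf₀
    have hsub : (Fintype.piFinset (fun _ : Fin k => P)).filter (fun f => ∏ i, f i = n) ⊆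
        Fintype.piFinset (fun _ : Fin k => univ.image f₀) := by
      intro f hf
      rw [Finset.mem_filter, Fintype.mem_piFinset] at hf
      rw [Fintype.mem_piFinset]
      intro i
      have h1 : f i ∣ ∏ j, f₀ j := by
        rw [hf₀.2, ← hf.2]
        exact Finset.dvd_prod_of_mem _ (Finset.mem_univ i)
      obtain ⟨j, _, hj⟩ := ((hP _ (hf.1 i)).prime.dvd_finsetProd_iff _).1 h1
      rw [Finset.mem_image]
      exact ⟨j, Finset.mem_univ j, ((Nat.prime_dvd_prime_iff_eq (hP _ (hf.1 i))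
        (hP _ (hf₀.1 j))).1 hj).symm⟩
    refine (Finset.card_le_card hsub).trans ?_
    rw [Fintype.card_piFinset_const]
    refine Nat.pow_le_pow_left ?_ k
    exact Finset.card_image_le.trans (by simp)

theorem sum_sq_le (a : ℕ → ℂ) {d : ℝ} (hd : 0 ≤ d) (ha : ∀ n, ‖a n‖ ≤ d) (P : Finset ℕ)
    (hP : ∀ p ∈ P, p.Prime) (k M : ℕ) :
    ∑ n ∈ Icc 1 M, ‖bk a P k n‖ ^ 2 ≤ d ^ (2 * k) * (k : ℝ) ^ k * (P.card : ℝ) ^ k := by
  classical
  set r : ℕ → ℕ := fun n =>
    ((Fintype.piFinset (fun _ : Fin k => P)).filter (fun f => ∏ i, f i = n)).card with hr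
  have h1 : ∀ n, ‖bk a P k n‖ ≤ d ^ k * r n := by
    intro n
    rw [bk]
    refine (norm_sum_le _ _).trans ((Finset.sum_le_card_nsmul _ _ (d ^ k) fun f _ => ?_).trans ?_)
    · rw [norm_prod]
      calc ∏ i, ‖a (f i)‖ ≤ ∏ _i : Fin k, d :=
            Finset.prod_le_prod (fun i _ => norm_nonneg _) fun i _ => ha _
        _ = d ^ k := by rw [Finset.prod_const, Finset.card_univ, Fintype.card_fin]
    · rw [nsmul_eq_mul, mul_comm]
  have h2 : ∀ n, ‖bk a P k n‖ ^ 2 ≤ d ^ (2 * k) * (k : ℝ) ^ k * r n := by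
    intro n
    have h3 : (r n : ℝ) ≤ (k : ℝ) ^ k := by exact_mod_cast fiber_le P hP k n
    calc ‖bk a P k n‖ ^ 2 ≤ (d ^ k * r n) ^ 2 := by
          have := h1 n
          gcongr
      _ = d ^ (2 * k) * (r n * r n) := by ring
      _ ≤ d ^ (2 * k) * ((k : ℝ) ^ k * r n) := by gcongr
      _ = _ := by ring
  refine (Finset.sum_le_sum fun n _ => h2 n).trans ?_
  rw [← Finset.mul_sum]
  have h4 : ∑ n ∈ Icc 1 M, r n ≤ P.card ^ k := by
    rw [hr]
    calc ∑ n ∈ Icc 1 M, ((Fintype.piFinset (fun _ : Fin k => P)).filter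
          (fun f => ∏ i, f i = n)).card
        = (((Fintype.piFinset (fun _ : Fin k => P)).filter
          (fun f => ∏ i, f i ∈ Icc 1 M))).card := by
          rw [Finset.card_eq_sum_card_fiberwise (t := Icc 1 M) (f := fun f : Fin k → ℕ => ∏ i, f i)]
          · refine Finset.sum_congr rfl fun n hn => ?_
            congr 1
            ext f
            simp only [Finset.mem_filter]
            constructor
            · rintro ⟨h5, h6⟩
              exact ⟨⟨h5, h6 ▸ hn⟩, h6⟩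
            · rintro ⟨⟨h5, _⟩, h6⟩
              exact ⟨h5, h6⟩
          · intro f hf
            exact (Finset.mem_filter.1 hf).2
      _ ≤ (Fintype.piFinset (fun _ : Fin k => P)).card := Finset.card_filter_le _ _
      _ = P.card ^ k := by rw [Fintype.card_piFinset_const]
  have h5 : ∑ n ∈ Icc 1 M, (r n : ℝ) ≤ (P.card : ℝ) ^ k := by exact_mod_cast h4
  gcongr

theorem bk_rough (a : ℕ → ℂ) (P : Finset ℕ) (hP : ∀ p ∈ P, p.Prime) (k : ℕ) {R : ℝ}
    (hR : ∀ p ∈ P, R < p) (n : ℕ) (hn : bk a P k n ≠ 0) (e : ℕ) (he : e ∣ n) (hen : (e : ℝ) ≤ R) :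
    e = 1 := by
  classical
  by_contra h1
  obtain ⟨f, hf, _⟩ := Finset.exists_ne_zero_of_sum_ne_zero hn
  rw [Finset.mem_filter, Fintype.mem_piFinset] at hf
  obtain ⟨p, hp, hpe⟩ := Nat.exists_prime_and_dvd h1
  have h2 : p ∣ ∏ i, f i := by
    rw [hf.2]
    exact hpe.trans he
  obtain ⟨i, _, hi⟩ := (hp.prime.dvd_finsetProd_iff _).1 h2
  have h3 : p = f i := (Nat.prime_dvd_prime_iff_eq hp (hP _ (hf.1 i))).1 hi
  have h4 : R < p := h3 ▸ hR _ (hf.1 i)
  have he0 : e ≠ 0 := by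
    rintro rfl
    have h5 : n = 0 := by simpa using he
    rw [h5] at hf
    have := Finset.prod_ne_zero_iff.2 (fun i (_ : i ∈ univ) => (hP _ (hf.1 i)).ne_zero)
    exact this hf.2
  have h5 : (p : ℝ) ≤ e := by exact_mod_cast Nat.le_of_dvd (Nat.pos_of_ne_zero he0) hpe
  linarith

end Pool.Agent.H419.LC
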