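import Mathlib
import Pool.Agent.H419.LC.Pow

/-! Few characters, with larger conductors. -/

set_option autoImplicit false

open NumberField IsDedekindDomain Finset ComplexConjugate Filter Topology

namespace Pool.Agent.H419.LC

open Pool.Agent.W540.BE (upto nm mem_upto nf fiber_finite fiber_card norm_nf_le sum_nf two_le_nm)
open Pool.Agent.H419.BS (pr card_pr pnt U U_le U_atTop)

theorem log_pow_le (m : ℕ) (D s : ℝ) (hs : 0 < s) (hD : 0 < D) : ∀ᶠ N : ℕ in atTop,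
    D * Real.log N ^ m ≤ (N : ℝ) ^ s := by
  have h1 := (isLittleO_log_rpow_rpow_atTop (m : ℝ) hs).comp_tendsto
    (tendsto_natCast_atTop_atTop (R := ℝ))
  have h2 := h1.bound (show (0 : ℝ) < 1 / D by positivity)
  filter_upwards [h2, eventually_ge_atTop 1] with N hN hN1
  simp only [Function.comp_apply] at hN
  have h0 : (0 : ℝ) ≤ (N : ℝ) ^ s := by positivity
  have h3 : 0 ≤ Real.log N := Real.log_nonneg (by exact_mod_cast hN1)
  rw [Real.norm_of_nonneg h0, Real.rpow_natCast, Real.norm_of_nonneg (by positivity)] at hN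
  calc D * Real.log N ^ m ≤ D * (1 / D * (N : ℝ) ^ s) := by gcongr
    _ = (N : ℝ) ^ s := by field_simp

variable (K : Type) [Field K] [NumberField K]

set_option maxHeartbeats 4000000 in
/-- **Few characters, with larger conductors.** -/
theorem chars_pow (A η : ℝ) (hA : 0 ≤ A) (hη : 0 < η) : ∃ (C : ℝ) (N₀ : ℕ), 0 < C ∧
    ∀ N : ℕ, N₀ ≤ N →
    ∀ g : HeightOneSpectrum (𝓞 K) → ℂ, (∀ v, ‖g v‖ ≤ 1) →
    ∀ I : Finset (Σ q : ℕ, DirichletCharacter ℂ q),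
    (∀ c ∈ I, c.1 ≠ 0 ∧ (c.1 : ℝ) ≤ (N : ℝ) ^ A) →
    (∀ c ∈ I, ∀ c' ∈ I, c ≠ c' → Differ c c') →
    (∀ c ∈ I, η * ((N : ℝ) / Real.log N) ≤ ‖∑ v ∈ upto K N, g v * ev c (nm K v)‖) →
    (I.card : ℝ) ≤ C * Real.log N ^ ⌊A⌋₊ := by
  classical
  set d : ℝ := ((Module.finrank ℚ K : ℕ) : ℝ) with hdd
  have hd : (0 : ℝ) < d := by rw [hdd]; exact_mod_cast Module.finrank_pos
  set k : ℕ := ⌊A⌋₊ + 1 with hk
  have hk1 : 1 ≤ k := by omega
  have hk0 : (0 : ℝ) < k := by exact_mod_cast hk1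
  have hAk : A < k := by rw [hk]; push_cast; exact Nat.lt_floor_add_one A
  have hkA : (k : ℝ) ≤ A + 1 := by
    rw [hk]
    push_cast
    have := Nat.floor_le hA
    linarith
  set ε₀ : ℝ := k - A with hε₀
  have hε₀0 : 0 < ε₀ := by linarith
  have hε₀1 : ε₀ ≤ 1 := by linarith
  set ε : ℝ := ε₀ / (2 * k) with hε
  have hε0 : 0 < ε := by positivity
  have hε1 : ε ≤ 1 := by
    rw [hε, div_le_one (by positivity)]
    have : (1 : ℝ) ≤ k := by exact_mod_cast hk1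
    linarith
  obtain ⟨C₁, hC₁, hlarge⟩ := large_rough ε hε0 hε1
  obtain ⟨X₀, hX₀⟩ := hlarge 1 one_pos
  set C : ℝ := C₁ * (d ^ (2 * k) * (k : ℝ) ^ k * 2 ^ k) / (η / 2) ^ (2 * k) with hC
  have hC0 : 0 < C := by positivity
  have e3 := log_pow_le ⌊A⌋₊ (C + 1) (ε₀ / 2) (by positivity) (by positivity)
  have e4 := small_ev (2 * d) (1 / 2) (η / 2) (by positivity) (by norm_num) (by positivity)
  have e2 : ∀ᶠ N : ℕ in atTop, (1 : ℝ) ≤ Real.log N :=
    (Real.tendsto_log_atTop.comp tendsto_natCast_atTop_atTop).eventually_ge_atTop 1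
  have hpnt := pnt.eventually_lt_const (show (1 : ℝ) < 2 by norm_num)
  obtain ⟨N₁, hN₁⟩ := eventually_atTop.1 (e3.and (e4.and (e2.and (hpnt.and
    (eventually_ge_atTop (max X₀ 2))))))
  refine ⟨C, N₁, hC0, fun N hN g hg I hI hdiff hbig => ?_⟩
  obtain ⟨h3, h4, hL1, hpi, hNX⟩ := hN₁ N hN
  have hN2 : 2 ≤ N := (le_max_right _ _).trans hNX
  have hNX0 : X₀ ≤ N := (le_max_left _ _).trans hNX
  have hN0 : (0 : ℝ) < N := by exact_mod_cast (by omega : 0 < N)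
  have hN1' : (1 : ℝ) ≤ N := by exact_mod_cast (by omega : 1 ≤ N)
  set L : ℝ := Real.log N with hL
  have hL0 : 0 < L := by linarith
  rw [show (1 / 2 + 1 / 2 : ℝ) = 1 by norm_num, Real.rpow_one] at h4
  by_contra hcon
  push Not at hcon
  -- a subset
  have hJex : ⌊C * L ^ ⌊A⌋₊⌋₊ + 1 ≤ I.card := by
    have : ⌊C * L ^ ⌊A⌋₊⌋₊ < I.card := (Nat.floor_lt (by positivity)).2 hcon
    omega
  obtain ⟨J, hJI, hJ⟩ := Finset.exists_subset_card_eq hJex
  have hJlt : C * L ^ ⌊A⌋₊ < J.card := by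
    rw [hJ]
    push_cast
    exact Nat.lt_floor_add_one _
  have hJle : (J.card : ℝ) ≤ (N : ℝ) ^ (ε₀ / 2) := by
    rw [hJ]
    push_cast
    have h5 : (⌊C * L ^ ⌊A⌋₊⌋₊ : ℝ) ≤ C * L ^ ⌊A⌋₊ := Nat.floor_le (by positivity)
    have h6 : (1 : ℝ) ≤ L ^ ⌊A⌋₊ := one_le_pow₀ hL1
    calc (⌊C * L ^ ⌊A⌋₊⌋₊ : ℝ) + 1 ≤ C * L ^ ⌊A⌋₊ + L ^ ⌊A⌋₊ := by linarith
      _ = (C + 1) * L ^ ⌊A⌋₊ := by ring
      _ ≤ _ := h3
  -- the primes
  set R : ℝ := ((N ^ k : ℕ) : ℝ) ^ (ε / 16) with hR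
  have hReq : R = (N : ℝ) ^ (ε₀ / 32) := by
    rw [hR, Nat.cast_pow, ← Real.rpow_natCast, ← Real.rpow_mul hN0.le, hε]
    congr 1
    field_simp
    norm_num
  have hRle : R ≤ (Nat.sqrt N : ℝ) + 1 := by
    rw [hReq]
    calc (N : ℝ) ^ (ε₀ / 32) ≤ (N : ℝ) ^ (1 / 2 : ℝ) :=
          Real.rpow_le_rpow_of_exponent_le hN1' (by linarith)
      _ = √(N : ℝ) := (Real.sqrt_eq_rpow _).symm
      _ ≤ _ := Real.real_sqrt_le_nat_sqrt_succ
  have hR0 : 0 ≤ R := by positivity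
  set a : ℕ → ℂ := nf g with ha
  have had : ∀ n, ‖a n‖ ≤ d := fun n => by simpa using norm_nf_le (B := 1) hg n
  set P : Finset ℕ := (pr N).filter (fun p : ℕ => R < (p : ℝ)) with hP
  have hPp : ∀ p ∈ P, p.Prime := by
    intro p hp
    rw [hP, Finset.mem_filter, pr, Finset.mem_filter] at hp
    exact hp.1.2
  have hPN : ∀ p ∈ P, 1 ≤ p ∧ p ≤ N := by
    intro p hp
    rw [hP, Finset.mem_filter, pr, Finset.mem_filter, Finset.mem_Ioc] at hp
    exact ⟨hp.1.1.1, hp.1.1.2⟩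
  have hPR : ∀ p ∈ P, R < p := fun p hp => (Finset.mem_filter.1 hp).2
  have hPcard : (P.card : ℝ) ≤ 2 * (N / L) := by
    have h5 : (P.card : ℝ) ≤ (pr N).card := by exact_mod_cast Finset.card_filter_le _ _
    refine h5.trans ?_
    rw [card_pr]
    have h7 : (Nat.primeCounting N : ℝ) * L / N ≤ 2 := hpi.le
    rw [div_le_iff₀ hN0] at h7
    rw [← mul_div_assoc, le_div_iff₀ hL0]
    exact h7
  have hX0 : 0 < (N : ℝ) / L := by positivity
  -- the lower bound for the sums over `P`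
  have hlow : ∀ c ∈ J, η / 2 * (N / L) ≤ ‖∑ p ∈ P, a p * ev c p‖ := by
    intro c hc
    have h6 := hbig c (hJI hc)
    have h7 := splitφ hg N (φ := fun n => ev c n) (fun n => norm_ev_le c n)
    have h8 : ‖∑ n ∈ pr N, a n * ev c n - ∑ p ∈ P, a p * ev c p‖ ≤ d * R := by
      rw [← Finset.sum_filter_add_sum_filter_not (pr N) (fun p : ℕ => R < (p : ℝ)),
        add_sub_cancel_left]
      refine (norm_sum_le _ _).trans ?_
      calc ∑ n ∈ (pr N).filter (fun n : ℕ => ¬ R < (n : ℝ)), ‖a n * ev c n‖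
          ≤ ∑ n ∈ (pr N).filter (fun n : ℕ => ¬ R < (n : ℝ)), d := by
            refine Finset.sum_le_sum fun n _ => ?_
            rw [norm_mul]
            calc ‖a n‖ * ‖ev c n‖ ≤ d * 1 := by
                  gcongr
                  · exact had n
                  · exact norm_ev_le c n
              _ = d := mul_one d
        _ = (((pr N).filter (fun n : ℕ => ¬ R < (n : ℝ))).card : ℝ) * d := by
            rw [Finset.sum_const, nsmul_eq_mul]
        _ ≤ R * d := by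
            gcongr
            have h9 : ((pr N).filter (fun n : ℕ => ¬ R < (n : ℝ))).card ≤ (Icc 1 ⌊R⌋₊).card := by
              refine Finset.card_le_card fun n hn => ?_
              rw [Finset.mem_filter, pr, Finset.mem_filter, Finset.mem_Ioc] at hn
              rw [Finset.mem_Icc]
              exact ⟨hn.1.1.1, Nat.le_floor (not_lt.1 hn.2)⟩
            rw [Nat.card_Icc, Nat.add_sub_cancel] at h9
            exact (by exact_mod_cast h9 : (((pr N).filter (fun n : ℕ => ¬ R < (n : ℝ))).card : ℝ) ≤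
              (⌊R⌋₊ : ℝ)).trans (Nat.floor_le hR0)
        _ = d * R := mul_comm _ _
    have h9 : ‖∑ v ∈ upto K N, g v * ev c (nm K v)‖ ≤ ‖∑ p ∈ P, a p * ev c p‖ +
        ‖∑ n ∈ pr N, a n * ev c n - ∑ p ∈ P, a p * ev c p‖ +
        ‖∑ v ∈ upto K N, g v * ev c (nm K v) - ∑ n ∈ pr N, a n * ev c n‖ := by
      calc ‖∑ v ∈ upto K N, g v * ev c (nm K v)‖ = ‖∑ p ∈ P, a p * ev c p +
            (∑ n ∈ pr N, a n * ev c n - ∑ p ∈ P, a p * ev c p) +
            (∑ v ∈ upto K N, g v * ev c (nm K v) - ∑ n ∈ pr N, a n * ev c n)‖ := by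
              congr 1; ring
        _ ≤ _ := norm_add₃_le
    have h10 : d * R ≤ d * ((Nat.sqrt N : ℝ) + 1) := by gcongr
    have h11 : 2 * d * ((Nat.sqrt N : ℝ) + 1) = d * ((Nat.sqrt N : ℝ) + 1) +
      d * ((Nat.sqrt N : ℝ) + 1) := by ring
    linarith
  -- the large sieve
  have hXeq : ((N ^ k : ℕ) : ℝ) = (N : ℝ) ^ (k : ℝ) := by
    rw [Nat.cast_pow, Real.rpow_natCast]
  have hNk : N ≤ N ^ k := Nat.le_self_pow (by omega) N
  have hmain := hX₀ (N ^ k) (hNX0.trans hNk) ((N : ℝ) ^ A) J (Real.one_le_rpow hN1' hA)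
    (by
      rw [hXeq]
      exact Real.rpow_le_rpow_of_exponent_le hN1' hAk.le)
    (fun c hc => hI c (hJI hc)) (fun c hc c' hc' => hdiff c (hJI hc) c' (hJI hc'))
    (by
      rw [hXeq, one_mul, ← Real.rpow_mul hN0.le]
      calc (J.card : ℝ) * (N : ℝ) ^ A ≤ (N : ℝ) ^ (ε₀ / 2) * (N : ℝ) ^ A := by gcongr
        _ = (N : ℝ) ^ (ε₀ / 2 + A) := (Real.rpow_add hN0 _ _).symm
        _ = (N : ℝ) ^ ((k : ℝ) * (1 - ε)) := by
            congr 1
            rw [hε, hε₀]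
            field_simp
            ring)
    (bk a P k) (fun n hn e he hen => bk_rough a P hPp k hPR n hn e he hen)
  have hsq := sum_sq_le a hd.le had P hPp k (N ^ k)
  have hlogX : Real.log ((N ^ k : ℕ) : ℝ) = k * L := by
    rw [Nat.cast_pow, Real.log_pow]
  have hlower : (J.card : ℝ) * (η / 2 * (N / L)) ^ (2 * k) ≤
      ∑ c ∈ J, ‖∑ n ∈ Icc 1 (N ^ k), bk a P k n * ev c n‖ ^ 2 := by
    rw [← nsmul_eq_mul]
    refine Finset.card_nsmul_le_sum J _ _ fun c hc => ?_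
    rw [← pow_eq a P k N hPN c, norm_pow, ← pow_mul, mul_comm k 2]
    have := hlow c hc
    gcongr
  have hupper : C₁ * (((N ^ k : ℕ) : ℝ) / Real.log ((N ^ k : ℕ) : ℝ)) *
      ∑ n ∈ Icc 1 (N ^ k), ‖bk a P k n‖ ^ 2 ≤
      C₁ * ((N : ℝ) ^ k / L) * (d ^ (2 * k) * (k : ℝ) ^ k * (2 * (N / L)) ^ k) := by
    have h5 : ((N ^ k : ℕ) : ℝ) / Real.log ((N ^ k : ℕ) : ℝ) ≤ (N : ℝ) ^ k / L := by
      rw [hlogX, Nat.cast_pow]
      have h6 : L ≤ k * L := by
        have : (1 : ℝ) ≤ k := by exact_mod_cast hk1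
        nlinarith
      gcongr
    have h6 : (0 : ℝ) ≤ ((N ^ k : ℕ) : ℝ) / Real.log ((N ^ k : ℕ) : ℝ) := by
      rw [hlogX]; positivity
    have h7 : ∑ n ∈ Icc 1 (N ^ k), ‖bk a P k n‖ ^ 2 ≤
        d ^ (2 * k) * (k : ℝ) ^ k * (2 * (N / L)) ^ k := hsq.trans (by gcongr)
    have h8 : 0 ≤ ∑ n ∈ Icc 1 (N ^ k), ‖bk a P k n‖ ^ 2 := Finset.sum_nonneg fun _ _ => by positivity
    gcongr
  have hfin := hlower.trans (hmain.trans hupper)
  have e1 : (N : ℝ) ^ k / L = (N / L) ^ k * L ^ ⌊A⌋₊ := by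
    rw [div_pow, hk, pow_succ L]
    field_simp
  have e5 : C₁ * ((N : ℝ) ^ k / L) * (d ^ (2 * k) * (k : ℝ) ^ k * (2 * (N / L)) ^ k) =
      (C * L ^ ⌊A⌋₊) * (η / 2 * (N / L)) ^ (2 * k) := by
    rw [e1, hC, mul_pow (2 : ℝ), mul_pow (η / 2), show (N / L : ℝ) ^ (2 * k) =
      (N / L : ℝ) ^ k * (N / L : ℝ) ^ k by rw [two_mul, pow_add]]
    field_simp
  rw [e5] at hfin
  have h9 : (J.card : ℝ) ≤ C * L ^ ⌊A⌋₊ := le_of_mul_le_mul_right hfin (by positivity)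
  linarith

end Pool.Agent.H419.LC
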