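import Mathlib
import Pool.Graph.R_seed8.R852.BC.Bur8
import Pool.Graph.R_seed8.R852.BC.Char
import Pool.Graph.R_seed8.H38R2.CG.PV
import Pool.Graph.R_pool_sql_team_seeded_620a6dc7.Helper368_LD.Kchi

/-! The Kronecker symbol as a character modulo `8 N`. -/

set_option autoImplicit false

open Finset Filter Topology

namespace Pool.Agent.H419.LC

open Pool.Agent.Helper368_LD (kro)
open Pool.Agent.R852.BC
open Pool.Agent.H471R4.BW

theorem mulchar_pow (l : ℕ) (hu : IsUnit (l : ZMod 8)) (χ : MulChar (ZMod 8) ℤ) (n : ℕ) :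
    (χ ^ n) (l : ZMod 8) = χ (l : ZMod 8) ^ n := by
  induction n with
  | zero => rw [pow_zero, pow_zero, MulChar.one_apply hu]
  | succ n ih => rw [pow_succ, pow_succ, MulChar.mul_apply, ih]

theorem exists_kro {f : ℕ} (hf : Squarefree f) (hf1 : f ≠ 1) : ∃ (N : ℕ) (_ : NeZero N)
    (θ : MulChar (ZMod 8) ℤ), Odd N ∧ Squarefree N ∧ N ≤ f ∧ (N = 1 → θ ≠ 1) ∧
    ∀ l : ℕ, ((kro f l : ℤ) : ℂ) = chi 8 N (psi θ) (l : ZMod (8 * N)) := by
  have hf0 : f ≠ 0 := hf.ne_zero
  obtain ⟨e, N, he, hNodd, hsN⟩ : ∃ e N : ℕ, e ≤ 1 ∧ Odd N ∧ f = 2 ^ e * N := by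
    rcases Nat.even_or_odd f with h | h
    · obtain ⟨k, hk⟩ := h.two_dvd
      refine ⟨1, k, le_rfl, ?_, by rw [pow_one, hk]⟩
      by_contra hcon
      rw [Nat.not_odd_iff_even] at hcon
      obtain ⟨j, hj⟩ := hcon.two_dvd
      have h4 : 2 * 2 ∣ f := ⟨j, by rw [hk, hj]; ring⟩
      have := hf 2 h4
      exact absurd (Nat.isUnit_iff.mp this) (by norm_num)
    · exact ⟨0, f, by norm_num, h, by rw [pow_zero, one_mul]⟩
  have hN0 : N ≠ 0 := by
    rintro rfl
    exact hf0 (by rw [hsN, mul_zero])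
  have hNs : N ∣ f := ⟨2 ^ e, by rw [hsN]; ring⟩
  have hNsq : Squarefree N := hf.squarefree_of_dvd hNs
  have hNne : NeZero N := ⟨hN0⟩
  set k : ℕ := if N % 4 = 3 then 1 else 0 with hk
  refine ⟨N, hNne, chi4' ^ k * ZMod.χ₈ ^ e, hNodd, hNsq, Nat.le_of_dvd (Nat.pos_of_ne_zero hf0) hNs,
    ?_, ?_⟩
  · intro hN1 hθ
    have hk0 : k = 0 := by rw [hk, hN1]; norm_num
    have he1 : e = 1 := by
      rcases Nat.eq_zero_or_pos e with h | h
      · exact absurd (by rw [hsN, h, hN1]; norm_num) hf1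
      · omega
    rw [hk0, he1, pow_zero, one_mul, pow_one] at hθ
    have h3 : (1 : MulChar (ZMod 8) ℤ) (3 : ZMod 8) = 1 := MulChar.one_apply (by decide)
    rw [← hθ] at h3
    exact absurd h3 (by decide)
  · intro l
    rw [chi_nat, psi_apply, jchar_apply]
    by_cases hl : Odd l
    · have hu : IsUnit (l : ZMod 8) := by
        rw [ZMod.isUnit_iff_coprime]
        have : Nat.Coprime l (2 ^ 3) := Nat.Coprime.pow_right 3 (Nat.coprime_two_right.mpr hl)
        simpa using this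
      have e2 : jacobiSym (f : ℤ) l = ZMod.χ₈ (l : ZMod 8) ^ e * jacobiSym (N : ℤ) l := by
        rw [hsN]
        push_cast
        rw [jacobiSym.mul_left, jacobiSym.pow_left 2, jacobiSym.at_two hl]
      have e3 := recip N l hNodd hl
      have e5 : ZMod.χ₄ (l : ZMod 4) ^ k = if N % 4 = 3 then ZMod.χ₄ (l : ZMod 4) else 1 := by
        rw [hk]
        split_ifs <;> simp
      have e4 : (chi4' ^ k * ZMod.χ₈ ^ e : MulChar (ZMod 8) ℤ) (l : ZMod 8) =
          ZMod.χ₄ (l : ZMod 4) ^ k * ZMod.χ₈ (l : ZMod 8) ^ e := by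
        rw [MulChar.mul_apply, mulchar_pow l hu, mulchar_pow l hu, chi4'_nat l hl]
      rw [kro, if_pos hl, e4, e2, e3, e5]
      push_cast
      ring
    · rw [kro, if_neg hl]
      have hnu : ¬ IsUnit (l : ZMod 8) := by
        rw [ZMod.isUnit_iff_coprime]
        intro h
        apply hl
        rw [← Nat.coprime_two_right]
        exact Nat.Coprime.coprime_dvd_right (by norm_num) h
      rw [MulChar.map_nonunit _ hnu]
      simp

end Pool.Agent.H419.LC
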