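import Mathlib
import Pool.Agent.H419.LC.PV2
import Pool.Agent.H419.LC.Kro
import Pool.Agent.H419.LC.Large

/-! Burgess' bound for products of two real characters. -/

set_option autoImplicit false

open Finset Filter Topology
open scoped ArithmeticFunction.Moebius ArithmeticFunction.zeta

namespace Pool.Agent.H419.LC

open Pool.Agent.Helper368_LD (kro)
open Pool.Agent.R852.BC
open Pool.Agent.H471R4.BW

theorem rpow_ev (s D : ℝ) (hs : 0 < s) : ∀ᶠ X : ℕ in atTop, D ≤ (X : ℝ) ^ s :=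
  ((tendsto_rpow_atTop hs).comp tendsto_natCast_atTop_atTop).eventually_ge_atTop D

theorem log_ev (s D : ℝ) (hs : 0 < s) (hD : 0 < D) : ∀ᶠ N : ℕ in atTop,
    D * Real.log N ≤ (N : ℝ) ^ s := by
  have h1 := (isLittleO_log_rpow_atTop hs).comp_tendsto (tendsto_natCast_atTop_atTop (R := ℝ))
  have h2 := h1.bound (show (0 : ℝ) < 1 / D by positivity)
  filter_upwards [h2, eventually_ge_atTop 1] with N hN hN1
  simp only [Function.comp_apply] at hN
  have h0 : (0 : ℝ) ≤ (N : ℝ) ^ s := by positivity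
  have h3 : 0 ≤ Real.log N := Real.log_nonneg (by exact_mod_cast hN1)
  rw [Real.norm_of_nonneg h0, Real.norm_of_nonneg h3] at hN
  calc D * Real.log N ≤ D * (1 / D * (N : ℝ) ^ s) := by gcongr
    _ = (N : ℝ) ^ s := by field_simp

set_option maxHeartbeats 4000000 in
/-- Burgess' bound, for short and long sums. -/
theorem kro_sum (ε : ℝ) (hε : 0 < ε) (hε1 : ε ≤ 1) : ∃ δ : ℝ, 0 < δ ∧ δ ≤ ε / 16 ∧
    ∀ᶠ X : ℕ in atTop, ∀ f : ℕ, Squarefree f → f ≠ 1 → (f : ℝ) ≤ (X : ℝ) ^ (4 - ε) →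
    ∀ M : ℕ, M ≤ X → ‖∑ l ∈ Icc 1 M, ((kro f l : ℤ) : ℂ)‖ ≤ (X : ℝ) ^ (1 - δ) := by
  obtain ⟨δb, hδb0, hbur⟩ := bur8 (ε / 64) (by positivity)
  obtain ⟨q₀, hq₀⟩ := eventually_atTop.1 hbur
  set δ' : ℝ := min δb (1 / 4) with hδ'
  have hδ'0 : 0 < δ' := lt_min hδb0 (by norm_num)
  have hδ'1 : δ' ≤ 1 / 4 := min_le_right _ _
  have hδ'2 : δ' ≤ δb := min_le_left _ _
  set δ : ℝ := min (ε / 16) (δ' / 2) with hδ
  have hδ0 : 0 < δ := lt_min (by positivity) (by positivity)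
  have hδ1 : δ ≤ ε / 16 := min_le_left _ _
  have hδ2 : δ ≤ δ' / 2 := min_le_right _ _
  refine ⟨δ, hδ0, hδ1, ?_⟩
  filter_upwards [rpow_ev (ε / 2) 8 (by positivity), log_ev (δ' / 2) 20 (by positivity) (by norm_num),
    rpow_ev (1 / 2) (q₀ + 1) (by norm_num), eventually_ge_atTop 3] with X h8 hlog hq hX3
  intro f hf hf1 hfX M hMX
  have hX0 : (0 : ℝ) < X := by exact_mod_cast (by omega : 0 < X)
  have hX1 : (1 : ℝ) ≤ X := by exact_mod_cast (by omega : 1 ≤ X)
  obtain ⟨N, hNne, θ, hodd, hsq, hNf, hN1, hval⟩ := exists_kro hf hf1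
  have hNe8 : NeZero (8 * N) := ⟨mul_ne_zero (by norm_num) (NeZero.ne N)⟩
  have hsum : ∑ l ∈ Icc 1 M, ((kro f l : ℤ) : ℂ) = shortSum (8 * N) (chi 8 N (psi θ)) M := by
    rw [shortSum]
    exact Finset.sum_congr rfl fun l _ => hval l
  rw [hsum]
  set q : ℕ := 8 * N with hqdef
  have hN0 : 0 < N := Nat.pos_of_ne_zero (NeZero.ne N)
  have hq8 : (8 : ℝ) ≤ q := by exact_mod_cast (by omega : 8 ≤ q)
  have hq0 : (0 : ℝ) < q := by linarith
  have hq1 : (1 : ℝ) ≤ q := by linarith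
  have hqX : (q : ℝ) ≤ (X : ℝ) ^ (4 - ε / 2) := by
    calc (q : ℝ) = 8 * N := by rw [hqdef]; push_cast; ring
      _ ≤ (X : ℝ) ^ (ε / 2) * (X : ℝ) ^ (4 - ε) := by
          have : (N : ℝ) ≤ f := by exact_mod_cast hNf
          have := this.trans hfX
          gcongr
      _ = (X : ℝ) ^ (4 - ε / 2) := by rw [← Real.rpow_add hX0]; congr 1; ring
  have htriv : ‖shortSum q (chi 8 N (psi θ)) M‖ ≤ M := by
    unfold shortSum
    refine (norm_sum_le _ _).trans ?_
    calc ∑ m ∈ Icc 1 M, ‖(chi 8 N (psi θ)) (m : ZMod q)‖ ≤ ∑ _m ∈ Icc 1 M, (1 : ℝ) :=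
          sum_le_sum fun m _ => DirichletCharacter.norm_le_one _ _
      _ = M := by simp
  have hMXr : (M : ℝ) ≤ X := by exact_mod_cast hMX
  rcases le_or_gt (M : ℝ) ((X : ℝ) ^ (1 - δ)) with hM | hM
  · exact htriv.trans hM
  · rcases lt_or_ge ((q : ℝ) ^ (1 / 2 + δ')) M with hcase | hcase
    · -- Polya-Vinogradov
      have h1 : ‖shortSum q (chi 8 N (psi θ)) M‖ ≤ 4 * √(q : ℝ) * (1 + Real.log q) :=
        Pool.Agent.H38R2.CG.PVh.sum_le q _ (by omega) (chi_ne_one N hodd hsq θ hN1) M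
      have h2 : √(q : ℝ) ≤ (X : ℝ) ^ (1 - δ') := by
        have h3 : (q : ℝ) ^ (1 / 2 + δ') ≤ X := hcase.le.trans hMXr
        have h4 : ((q : ℝ) ^ (1 / 2 + δ')) ^ (1 - δ') ≤ (X : ℝ) ^ (1 - δ') :=
          Real.rpow_le_rpow (by positivity) h3 (by linarith)
        refine le_trans ?_ h4
        rw [← Real.rpow_mul hq0.le, Real.sqrt_eq_rpow]
        apply Real.rpow_le_rpow_of_exponent_le hq1
        nlinarith
      have h5 : Real.log q ≤ 4 * Real.log X := by
        have h6 : (q : ℝ) ≤ (X : ℝ) ^ (4 : ℝ) :=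
          hqX.trans (Real.rpow_le_rpow_of_exponent_le hX1 (by linarith))
        calc Real.log q ≤ Real.log ((X : ℝ) ^ (4 : ℝ)) := Real.log_le_log hq0 h6
          _ = 4 * Real.log X := Real.log_rpow hX0 _
      have h7 : (1 : ℝ) ≤ Real.log X := by
        rw [Real.le_log_iff_exp_le hX0]
        have h9 : (3 : ℝ) ≤ X := by exact_mod_cast hX3
        linarith [Real.exp_one_lt_d9]
      calc ‖shortSum q (chi 8 N (psi θ)) M‖ ≤ 4 * √(q : ℝ) * (1 + Real.log q) := h1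
        _ ≤ 4 * (X : ℝ) ^ (1 - δ') * (Real.log X + 4 * Real.log X) := by
            have : 0 ≤ Real.log q := Real.log_nonneg hq1
            gcongr
        _ = (X : ℝ) ^ (1 - δ') * (20 * Real.log X) := by ring
        _ ≤ (X : ℝ) ^ (1 - δ') * (X : ℝ) ^ (δ' / 2) := by gcongr
        _ = (X : ℝ) ^ (1 - δ' / 2) := by rw [← Real.rpow_add hX0]; congr 1; ring
        _ ≤ _ := Real.rpow_le_rpow_of_exponent_le hX1 (by linarith)
    · -- Burgess
      have h1 : (M : ℝ) ≤ q := by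
        refine hcase.trans ?_
        calc (q : ℝ) ^ (1 / 2 + δ') ≤ (q : ℝ) ^ (1 : ℝ) :=
              Real.rpow_le_rpow_of_exponent_le hq1 (by linarith)
          _ = q := Real.rpow_one _
      have h2 : (X : ℝ) ^ (1 / 2 : ℝ) ≤ q := by
        refine le_trans ?_ (hM.le.trans h1)
        exact Real.rpow_le_rpow_of_exponent_le hX1 (by linarith)
      have h3 : q₀ ≤ q := by
        have : (q₀ : ℝ) ≤ q := by linarith
        exact_mod_cast this
      have h4 : (q : ℝ) ^ (1 / 4 + ε / 64) ≤ M := by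
        refine le_trans ?_ hM.le
        calc (q : ℝ) ^ (1 / 4 + ε / 64) ≤ ((X : ℝ) ^ (4 - ε / 2)) ^ (1 / 4 + ε / 64) :=
              Real.rpow_le_rpow hq0.le hqX (by positivity)
          _ = (X : ℝ) ^ ((4 - ε / 2) * (1 / 4 + ε / 64)) := (Real.rpow_mul hX0.le _ _).symm
          _ ≤ (X : ℝ) ^ (1 - δ) := by
              apply Real.rpow_le_rpow_of_exponent_le hX1
              nlinarith
      have h5 := hq₀ q h3 N hqdef hodd hsq (psi θ) M h4
        (hcase.trans (Real.rpow_le_rpow_of_exponent_le hq1 (by linarith)))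
      calc ‖shortSum q (chi 8 N (psi θ)) M‖ ≤ (q : ℝ) ^ (-δb) * M := h5
        _ ≤ ((X : ℝ) ^ (1 / 2 : ℝ)) ^ (-δb) * X := by
            have h6 : (q : ℝ) ^ (-δb) ≤ ((X : ℝ) ^ (1 / 2 : ℝ)) ^ (-δb) :=
              Real.rpow_le_rpow_of_nonpos (by positivity) h2 (by linarith)
            gcongr
        _ = (X : ℝ) ^ (1 - δb / 2) := by
            rw [← Real.rpow_mul hX0.le]
            nth_rewrite 2 [← Real.rpow_one (X : ℝ)]
            rw [← Real.rpow_add hX0]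
            congr 1
            ring
        _ ≤ _ := Real.rpow_le_rpow_of_exponent_le hX1 (by linarith)

end Pool.Agent.H419.LC
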