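import Mathlib
import Pool.Agent.H419.LC.Bur

/-! Products of two real characters. -/

set_option autoImplicit false

open Finset Filter Topology
open scoped ArithmeticFunction.Moebius ArithmeticFunction.zeta

namespace Pool.Agent.H419.LC

open Pool.Agent.Helper368_LD (kro kro_mul kro_abs)

/-- multiples -/
theorem sum_mult (ψ : ℕ → ℂ) (hψ : ∀ m n, ψ (m * n) = ψ m * ψ n) (l M : ℕ) (hl : 0 < l) :
    ∑ n ∈ (Icc 1 M).filter (fun n => l ∣ n), ψ n = ψ l * ∑ m ∈ Icc 1 (M / l), ψ m := by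
  rw [Finset.mul_sum]
  symm
  refine Finset.sum_bij (fun m _ => l * m) ?_ ?_ ?_ ?_
  · intro m hm
    rw [Finset.mem_Icc] at hm
    rw [Finset.mem_filter, Finset.mem_Icc]
    refine ⟨⟨Nat.mul_pos hl hm.1, ?_⟩, dvd_mul_right _ _⟩
    calc l * m ≤ l * (M / l) := Nat.mul_le_mul_left _ hm.2
      _ ≤ M := Nat.mul_div_le M _
  · intro a _ b _ hab
    exact Nat.eq_of_mul_eq_mul_left hl hab
  · intro n hn
    rw [Finset.mem_filter, Finset.mem_Icc] at hn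
    obtain ⟨m, hm⟩ := hn.2
    refine ⟨m, ?_, hm.symm⟩
    rw [Finset.mem_Icc]
    refine ⟨?_, ?_⟩
    · rcases Nat.eq_zero_or_pos m with h | h
      · subst h
        simp at hm
        omega
      · exact h
    · rw [Nat.le_div_iff_mul_le hl, mul_comm, ← hm]
      exact hn.1.2
  · intro m _
    exact (hψ l m).symm

/-- removing the integers which are not prime to `g` -/
theorem sum_coprime_le (ψ : ℕ → ℂ) (hψ : ∀ m n, ψ (m * n) = ψ m * ψ n) (hψ1 : ∀ n, ‖ψ n‖ ≤ 1)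
    {P : ℝ} (M g : ℕ) (hg : g ≠ 0) (hP : ∀ M' ≤ M, ‖∑ m ∈ Icc 1 M', ψ m‖ ≤ P) :
    ‖∑ n ∈ Icc 1 M, (if Nat.Coprime n g then 1 else 0) * ψ n‖ ≤ (g.divisors).card * P := by
  have hP0 : 0 ≤ P := (norm_nonneg _).trans (hP 0 (Nat.zero_le _))
  have e1 : ∑ n ∈ Icc 1 M, (if Nat.Coprime n g then 1 else 0) * ψ n =
      ∑ d ∈ g.divisors, (μ d : ℂ) * (ψ d * ∑ m ∈ Icc 1 (M / d), ψ m) := by
    calc ∑ n ∈ Icc 1 M, (if Nat.Coprime n g then 1 else 0) * ψ n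
        = ∑ n ∈ Icc 1 M, ∑ d ∈ g.divisors, (if d ∣ n then (μ d : ℂ) else 0) * ψ n := by
          refine Finset.sum_congr rfl fun n _ => ?_
          rw [← Finset.sum_mul, sum_moebius_gcd n g hg]
      _ = ∑ d ∈ g.divisors, ∑ n ∈ Icc 1 M, (if d ∣ n then (μ d : ℂ) else 0) * ψ n :=
          Finset.sum_comm
      _ = _ := by
          refine Finset.sum_congr rfl fun d hd => ?_
          have hd0 : 0 < d := Nat.pos_of_mem_divisors hd
          rw [← sum_mult ψ hψ d M hd0, Finset.mul_sum, Finset.sum_filter]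
          refine Finset.sum_congr rfl fun n _ => ?_
          split_ifs <;> simp
  rw [e1]
  refine (norm_sum_le _ _).trans ((Finset.sum_le_card_nsmul _ _ P fun d hd => ?_).trans ?_)
  · rw [norm_mul, norm_mul]
    have h3 : ‖(μ d : ℂ)‖ ≤ 1 := by
      rw [Complex.norm_intCast]
      exact_mod_cast ArithmeticFunction.abs_moebius_le_one
    have h4 := hP (M / d) (Nat.div_le_self _ _)
    calc ‖(μ d : ℂ)‖ * (‖ψ d‖ * ‖∑ m ∈ Icc 1 (M / d), ψ m‖) ≤ 1 * (1 * P) := by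
          have := hψ1 d
          gcongr
      _ = P := by ring
  · rw [nsmul_eq_mul]

/-- the sums with the sieve weights -/
theorem sum_weight_le (ψ : ℕ → ℂ) (hψ : ∀ m n, ψ (m * n) = ψ m * ψ n) (hψ1 : ∀ n, ‖ψ n‖ ≤ 1)
    {P : ℝ} (N R : ℕ) (w : ℕ → ℝ) (hw : ∀ d, |w d| ≤ d)
    (hP : ∀ M' ≤ N, ‖∑ m ∈ Icc 1 M', ψ m‖ ≤ P) :
    ‖∑ n ∈ Icc 1 N, (((∑ d ∈ (Icc 1 R).filter (fun d => d ∣ n), w d) ^ 2 : ℝ) : ℂ) * ψ n‖ ≤
      (R : ℝ) ^ 4 * P := by
  classical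
  have hP0 : 0 ≤ P := (norm_nonneg _).trans (hP 0 (Nat.zero_le _))
  have hexp : ∑ n ∈ Icc 1 N, (((∑ d ∈ (Icc 1 R).filter (fun d => d ∣ n), w d) ^ 2 : ℝ) : ℂ) * ψ n =
      ∑ d1 ∈ Icc 1 R, ∑ d2 ∈ Icc 1 R, ((w d1 * w d2 : ℝ) : ℂ) *
        (ψ (Nat.lcm d1 d2) * ∑ m ∈ Icc 1 (N / Nat.lcm d1 d2), ψ m) := by
    calc ∑ n ∈ Icc 1 N, (((∑ d ∈ (Icc 1 R).filter (fun d => d ∣ n), w d) ^ 2 : ℝ) : ℂ) * ψ n
        = ∑ n ∈ Icc 1 N, ∑ d1 ∈ Icc 1 R, ∑ d2 ∈ Icc 1 R,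
            ((w d1 * w d2 : ℝ) : ℂ) * (if Nat.lcm d1 d2 ∣ n then ψ n else 0) := by
          refine Finset.sum_congr rfl fun n _ => ?_
          rw [sq, Finset.sum_filter, Finset.sum_mul_sum]
          push_cast
          rw [Finset.sum_mul]
          refine Finset.sum_congr rfl fun d1 _ => ?_
          rw [Finset.sum_mul]
          refine Finset.sum_congr rfl fun d2 _ => ?_
          by_cases h1 : d1 ∣ n <;> by_cases h2 : d2 ∣ n <;> simp [Nat.lcm_dvd_iff, h1, h2]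
      _ = ∑ d1 ∈ Icc 1 R, ∑ d2 ∈ Icc 1 R, ∑ n ∈ Icc 1 N,
            ((w d1 * w d2 : ℝ) : ℂ) * (if Nat.lcm d1 d2 ∣ n then ψ n else 0) := by
          rw [Finset.sum_comm]
          refine Finset.sum_congr rfl fun d1 _ => ?_
          rw [Finset.sum_comm]
      _ = _ := by
          refine Finset.sum_congr rfl fun d1 hd1 => Finset.sum_congr rfl fun d2 hd2 => ?_
          rw [Finset.mem_Icc] at hd1 hd2
          have hl : 0 < Nat.lcm d1 d2 := Nat.lcm_pos hd1.1 hd2.1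
          rw [← Finset.mul_sum, ← Finset.sum_filter, sum_mult ψ hψ _ N hl]
  rw [hexp]
  calc ‖∑ d1 ∈ Icc 1 R, ∑ d2 ∈ Icc 1 R, ((w d1 * w d2 : ℝ) : ℂ) *
        (ψ (Nat.lcm d1 d2) * ∑ m ∈ Icc 1 (N / Nat.lcm d1 d2), ψ m)‖
      ≤ ∑ d1 ∈ Icc 1 R, ∑ d2 ∈ Icc 1 R, ((R : ℝ) * R * P) := by
        refine (norm_sum_le _ _).trans (Finset.sum_le_sum fun d1 hd1 => ?_)
        refine (norm_sum_le _ _).trans (Finset.sum_le_sum fun d2 hd2 => ?_)
        rw [Finset.mem_Icc] at hd1 hd2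
        rw [norm_mul, norm_mul, Complex.norm_real, Real.norm_eq_abs, abs_mul]
        have h3 : |w d1| ≤ R := (hw d1).trans (by exact_mod_cast hd1.2)
        have h4 : |w d2| ≤ R := (hw d2).trans (by exact_mod_cast hd2.2)
        have h5 := hP (N / Nat.lcm d1 d2) (Nat.div_le_self _ _)
        calc |w d1| * |w d2| * (‖ψ (Nat.lcm d1 d2)‖ * ‖∑ m ∈ Icc 1 (N / Nat.lcm d1 d2), ψ m‖)
            ≤ R * R * (1 * P) := by
              have := hψ1 (Nat.lcm d1 d2)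
              gcongr
          _ = R * R * P := by ring
    _ = (R : ℝ) ^ 4 * P := by
        simp only [Finset.sum_const, Nat.card_Icc, Nat.add_sub_cancel, nsmul_eq_mul]
        ring

/-- the product of two Kronecker symbols -/
theorem kro_kro {g a b : ℕ} (n : ℕ) :
    kro (g * a) n * kro (g * b) n = (if Nat.Coprime n g then 1 else 0) * kro (a * b) n := by
  unfold kro
  by_cases hn : Odd n
  · simp only [if_pos hn]
    have hn0 : NeZero n := ⟨by rintro rfl; exact absurd hn (by decide)⟩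
    push_cast
    rw [jacobiSym.mul_left, jacobiSym.mul_left, jacobiSym.mul_left]
    split_ifs with h
    · have h1 : jacobiSym (g : ℤ) n ^ 2 = 1 := by
        rw [← jacobiSym.pow_left]
        exact jacobiSym.sq_one' (by rw [Int.gcd_natCast_natCast]; exact Nat.Coprime.symm h)
      rw [one_mul]
      linear_combination (jacobiSym (a : ℤ) n * jacobiSym (b : ℤ) n) * h1
    · have h1 : jacobiSym (g : ℤ) n = 0 := by
        rw [jacobiSym.eq_zero_iff_not_coprime, Int.gcd_natCast_natCast]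
        exact fun h2 => h (Nat.Coprime.symm h2)
      rw [h1]
      ring
  · simp only [if_neg hn]
    simp

/-- Burgess' bound for the product of two real characters. -/
theorem pair_sum (ε : ℝ) (hε : 0 < ε) (hε1 : ε ≤ 1) : ∃ δ : ℝ, 0 < δ ∧ δ ≤ ε / 32 ∧
    ∀ᶠ X : ℕ in atTop, ∀ k k' : ℕ, Squarefree k → Squarefree k' → k ≠ k' →
    (k : ℝ) ≤ (X : ℝ) ^ (2 - ε) → (k' : ℝ) ≤ (X : ℝ) ^ (2 - ε) →
    ∀ M : ℕ, M ≤ X → ‖∑ l ∈ Icc 1 M, ((kro k l : ℤ) : ℂ) * ((kro k' l : ℤ) : ℂ)‖ ≤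
      (X : ℝ) ^ (1 - δ) := by
  obtain ⟨δ₁, hδ₁0, hδ₁1, hkro⟩ := kro_sum ε hε hε1
  obtain ⟨C, hC0, hC⟩ := Pool.Agent.H510R2.divisor_bound (δ₁ / 8) (by positivity)
  refine ⟨δ₁ / 2, by positivity, by linarith, ?_⟩
  filter_upwards [hkro, rpow_ev (δ₁ / 4) C (by positivity), eventually_ge_atTop 1]
    with X hX hCX hX1n k k' hk hk' hne hkX hkX' M hM
  have hX0 : (0 : ℝ) < X := by exact_mod_cast (by omega : 0 < X)
  have hX1 : (1 : ℝ) ≤ X := by exact_mod_cast hX1n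
  have hk0 : k ≠ 0 := hk.ne_zero
  set g := Nat.gcd k k' with hg
  have hg0 : 0 < g := Nat.gcd_pos_of_pos_left _ (Nat.pos_of_ne_zero hk0)
  obtain ⟨a, ha⟩ : g ∣ k := Nat.gcd_dvd_left _ _
  obtain ⟨b, hb⟩ : g ∣ k' := Nat.gcd_dvd_right _ _
  have hab : Nat.Coprime a b := by
    have h1 := Nat.coprime_div_gcd_div_gcd (m := k) (n := k') hg0
    rwa [← hg, show k / g = a by rw [ha, Nat.mul_div_cancel_left _ hg0],
      show k' / g = b by rw [hb, Nat.mul_div_cancel_left _ hg0]] at h1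
  have hasq : Squarefree a := hk.squarefree_of_dvd ⟨g, by rw [ha]; ring⟩
  have hbsq : Squarefree b := hk'.squarefree_of_dvd ⟨g, by rw [hb]; ring⟩
  have hfsq : Squarefree (a * b) := (Nat.squarefree_mul hab).2 ⟨hasq, hbsq⟩
  have hf1 : a * b ≠ 1 := by
    intro h
    rw [mul_eq_one] at h
    exact hne (by rw [ha, hb, h.1, h.2])
  have hgk : g ≤ k := Nat.le_of_dvd (Nat.pos_of_ne_zero hk0) ⟨a, ha⟩
  have hfX : ((a * b : ℕ) : ℝ) ≤ (X : ℝ) ^ (4 - ε) := by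
    have h1 : ((a * b : ℕ) : ℝ) ≤ (k : ℝ) * k' := by
      have h2 : a * b ≤ k * k' := by
        rw [ha, hb]
        calc a * b = 1 * a * (1 * b) := by ring
          _ ≤ g * a * (g * b) := by gcongr <;> exact hg0
      exact_mod_cast h2
    calc ((a * b : ℕ) : ℝ) ≤ (k : ℝ) * k' := h1
      _ ≤ (X : ℝ) ^ (2 - ε) * (X : ℝ) ^ (2 - ε) := by gcongr
      _ = (X : ℝ) ^ (4 - 2 * ε) := by rw [← Real.rpow_add hX0]; congr 1; ring
      _ ≤ _ := Real.rpow_le_rpow_of_exponent_le hX1 (by linarith)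
  have e1 : ∀ l : ℕ, ((kro k l : ℤ) : ℂ) * ((kro k' l : ℤ) : ℂ) =
      (if Nat.Coprime l g then 1 else 0) * ((kro (a * b) l : ℤ) : ℂ) := by
    intro l
    have := kro_kro (g := g) (a := a) (b := b) l
    rw [← ha, ← hb] at this
    rw [← Int.cast_mul, this]
    split_ifs <;> simp
  rw [Finset.sum_congr rfl (fun l _ => e1 l)]
  have h1 := sum_coprime_le (fun l => ((kro (a * b) l : ℤ) : ℂ))
    (fun m n => by rw [kro_mul]; push_cast; rfl) (fun n => kro_abs _ _) (P := (X : ℝ) ^ (1 - δ₁)) M g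
    hg0.ne' (fun M' hM' => hX (a * b) hfsq hf1 hfX M' (hM'.trans hM))
  refine h1.trans ?_
  have hgX : (g : ℝ) ≤ (X : ℝ) ^ (2 : ℝ) := by
    have h2 : (g : ℝ) ≤ k := by exact_mod_cast hgk
    exact h2.trans (hkX.trans (Real.rpow_le_rpow_of_exponent_le hX1 (by linarith)))
  calc ((g.divisors).card : ℝ) * (X : ℝ) ^ (1 - δ₁)
      ≤ (C * (g : ℝ) ^ (δ₁ / 8)) * (X : ℝ) ^ (1 - δ₁) := by
        have := hC g hg0
        gcongr
    _ ≤ ((X : ℝ) ^ (δ₁ / 4) * ((X : ℝ) ^ (2 : ℝ)) ^ (δ₁ / 8)) * (X : ℝ) ^ (1 - δ₁) := by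
        gcongr
    _ = (X : ℝ) ^ (1 - δ₁ / 2) := by
        rw [← Real.rpow_mul hX0.le, ← Real.rpow_add hX0, ← Real.rpow_add hX0]
        congr 1
        ring

end Pool.Agent.H419.LC
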