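import Mathlib
import Pool.Agent.H419.LC.Pair
import Pool.Agent.H419.LC.CharsPow

/-! The large sieve for few real characters, with Burgess' bound. -/

set_option autoImplicit false

open NumberField IsDedekindDomain Finset ComplexConjugate Filter Topology

namespace Pool.Agent.H419.LC

open Pool.Agent.Helper368_LD (kro kro_mul kro_abs)
open Pool.Agent.W540.BE (upto nm mem_upto nf fiber_finite fiber_card norm_nf_le sum_nf two_le_nm)
open Pool.Agent.H419.BS (pr card_pr pnt U U_le U_atTop)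

/-- the real character as a complex function -/
noncomputable def kc (k n : ℕ) : ℂ := ((kro k n : ℤ) : ℂ)

theorem kc_mul (k m n : ℕ) : kc k (m * n) = kc k m * kc k n := by
  rw [kc, kro_mul]
  push_cast
  rfl

theorem norm_kc_le (k n : ℕ) : ‖kc k n‖ ≤ 1 := kro_abs k n

theorem conj_kc (k n : ℕ) : conj (kc k n) = kc k n := by
  rw [kc, map_intCast]

set_option maxHeartbeats 4000000 in
/-- **The large sieve for few real characters, for sequences without small factors.** -/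
theorem large_quad (ε : ℝ) (hε : 0 < ε) (hε1 : ε ≤ 1) : ∃ C δ : ℝ, 0 < C ∧ 0 < δ ∧ δ ≤ ε / 64 ∧
    ∃ N₀ : ℕ, ∀ N : ℕ, N₀ ≤ N →
    ∀ I : Finset ℕ, (∀ k ∈ I, Squarefree k ∧ (k : ℝ) ≤ (N : ℝ) ^ (2 - ε)) →
    (I.card : ℝ) ≤ (N : ℝ) ^ δ →
    ∀ a : ℕ → ℂ, (∀ n, a n ≠ 0 → ∀ e, e ∣ n → (e : ℝ) ≤ (N : ℝ) ^ δ → e = 1) →
    ∑ k ∈ I, ‖∑ n ∈ Icc 1 N, a n * kc k n‖ ^ 2 ≤
      C * ((N : ℝ) / Real.log N) * ∑ n ∈ Icc 1 N, ‖a n‖ ^ 2 := by
  classical
  obtain ⟨δ₀, hδ₀0, hδ₀1, hpair⟩ := pair_sum ε hε hε1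
  set δ : ℝ := δ₀ / 16 with hδ
  have hδ0 : 0 < δ := by positivity
  refine ⟨4 / δ + 2, δ, by positivity, hδ0, by rw [hδ]; linarith, ?_⟩
  have h1 := log_ev (δ₀ / 4) 1 (by positivity) one_pos
  have h3 : ∀ᶠ N : ℕ in atTop, (1 : ℝ) ≤ Real.log N :=
    (Real.tendsto_log_atTop.comp tendsto_natCast_atTop_atTop).eventually_ge_atTop 1
  obtain ⟨N₀, hN₀⟩ := eventually_atTop.1 (h1.and (h3.and (hpair.and (eventually_ge_atTop 2))))
  refine ⟨N₀, fun N hN I hI hIc a ha => ?_⟩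
  obtain ⟨hB1, hlog1, hpr, hN2⟩ := hN₀ N hN
  have hN0 : (0 : ℝ) < N := by exact_mod_cast (by omega : 0 < N)
  have hN1 : (1 : ℝ) ≤ N := by exact_mod_cast (by omega : 1 ≤ N)
  set L : ℝ := Real.log N with hL
  have hL0 : 0 < L := by linarith
  rw [one_mul] at hB1
  set R : ℕ := ⌊(N : ℝ) ^ δ⌋₊ with hR
  have hRle : (R : ℝ) ≤ (N : ℝ) ^ δ := Nat.floor_le (by positivity)
  have hR1 : 1 ≤ R := by
    rw [hR, Nat.one_le_floor_iff]
    exact Real.one_le_rpow hN1 (by positivity)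
  have hRlog : δ * L ≤ Real.log ((R : ℝ) + 1) := by
    rw [hL, ← Real.log_rpow hN0]
    exact Real.log_le_log (by positivity) (Nat.lt_floor_add_one _).le
  have hR4 : (R : ℝ) ^ 4 ≤ (N : ℝ) ^ (δ₀ / 4) := by
    calc (R : ℝ) ^ 4 ≤ ((N : ℝ) ^ δ) ^ 4 := by gcongr
      _ = (N : ℝ) ^ (δ₀ / 4) := by
        rw [← Real.rpow_natCast, ← Real.rpow_mul hN0.le]
        congr 1
        push_cast
        rw [hδ]
        ring
  have hsplit : ∀ x y : ℝ, (N : ℝ) ^ x * (N : ℝ) ^ y = (N : ℝ) ^ (x + y) :=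
    fun x y => (Real.rpow_add hN0 x y).symm
  have hNL : (N : ℝ) ^ (δ₀ / 4) ≤ N / L := by
    rw [le_div_iff₀ hL0]
    calc (N : ℝ) ^ (δ₀ / 4) * L ≤ (N : ℝ) ^ (δ₀ / 4) * (N : ℝ) ^ (δ₀ / 4) := by gcongr
      _ = (N : ℝ) ^ (δ₀ / 4 + δ₀ / 4) := hsplit _ _
      _ ≤ (N : ℝ) ^ (1 : ℝ) := Real.rpow_le_rpow_of_exponent_le hN1 (by linarith)
      _ = N := Real.rpow_one _
  obtain ⟨w, hw1, hwle, hwsum⟩ := weight N R hR1
  set v : ℕ → ℝ := fun n => (∑ e ∈ (Icc 1 R).filter (fun e => e ∣ n), w e) ^ 2 with hv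
  have hv0 : ∀ n, 0 ≤ v n := fun n => sq_nonneg _
  set V : ℝ := 4 * N / Real.log ((R : ℝ) + 1) + (R : ℝ) ^ 4 with hV
  have hlogR : 0 < Real.log ((R : ℝ) + 1) := lt_of_lt_of_le (by positivity) hRlog
  have hVle : V ≤ (4 / δ + 1) * (N / L) := by
    have h4 : 4 * (N : ℝ) / Real.log ((R : ℝ) + 1) ≤ 4 * N / (δ * L) := by gcongr
    have h5 : 4 * (N : ℝ) / (δ * L) = 4 / δ * (N / L) := by
      field_simp
    rw [hV]
    linarith [hR4.trans hNL]
  have hV0 : 0 ≤ V := by positivity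
  set E : ℝ := (R : ℝ) ^ 4 * (N : ℝ) ^ (1 - δ₀) with hE
  have hE0 : 0 ≤ E := by positivity
  have hav : ∀ n ∈ Icc 1 N, a n ≠ 0 → 1 ≤ v n := by
    intro n _ hne
    have h5 : (Icc 1 R).filter (fun e => e ∣ n) = {1} := by
      ext e
      rw [Finset.mem_filter, Finset.mem_Icc, Finset.mem_singleton]
      constructor
      · rintro ⟨⟨h6, h7⟩, h8⟩
        refine ha n hne e h8 (le_trans ?_ hRle)
        exact_mod_cast h7
      · rintro rfl
        exact ⟨⟨le_rfl, hR1⟩, one_dvd _⟩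
    simp only [hv]
    rw [h5, Finset.sum_singleton, hw1]
    norm_num
  have hdual := dual I (fun k n => kc k n) N v hv0 a hav V E hV0 hE0 ?_ ?_
  · have hIE : (I.card : ℝ) * E ≤ N / L := by
      rw [hE, le_div_iff₀ hL0]
      calc (I.card : ℝ) * ((R : ℝ) ^ 4 * (N : ℝ) ^ (1 - δ₀)) * L
          ≤ (N : ℝ) ^ δ * ((N : ℝ) ^ (δ₀ / 4) * (N : ℝ) ^ (1 - δ₀)) * (N : ℝ) ^ (δ₀ / 4) := by gcongr
        _ = (N : ℝ) ^ (δ + (δ₀ / 4 + (1 - δ₀)) + δ₀ / 4) := by rw [hsplit, hsplit, hsplit]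
        _ ≤ (N : ℝ) ^ (1 : ℝ) := by
            apply Real.rpow_le_rpow_of_exponent_le hN1
            rw [hδ]
            linarith
        _ = N := Real.rpow_one _
    have hA0 : 0 ≤ ∑ n ∈ Icc 1 N, ‖a n‖ ^ 2 := Finset.sum_nonneg fun _ _ => by positivity
    refine hdual.trans ?_
    calc (∑ n ∈ Icc 1 N, ‖a n‖ ^ 2) * (V + I.card * E)
        ≤ (∑ n ∈ Icc 1 N, ‖a n‖ ^ 2) * ((4 / δ + 1) * (N / L) + N / L) := by gcongr
      _ = _ := by ring
  · -- diagonal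
    intro c _
    calc ‖∑ n ∈ Icc 1 N, (v n : ℂ) * (kc c n * conj (kc c n))‖
        ≤ ∑ n ∈ Icc 1 N, v n := by
          refine (norm_sum_le _ _).trans (Finset.sum_le_sum fun n _ => ?_)
          rw [norm_mul, norm_mul, RCLike.norm_conj, Complex.norm_real, Real.norm_of_nonneg (hv0 n)]
          have h4 := norm_kc_le c n
          calc v n * (‖kc c n‖ * ‖kc c n‖) ≤ v n * (1 * 1) := by
                gcongr
            _ = v n := by ring
      _ ≤ V := hwsum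
  · -- off the diagonal
    intro c hc c' hc' hne
    have h4 := sum_weight_le (fun n => kc c n * conj (kc c' n))
      (fun m n => by rw [conj_kc, conj_kc, conj_kc, kc_mul, kc_mul]; ring)
      (fun n => by
        rw [norm_mul, RCLike.norm_conj]
        exact mul_le_one₀ (norm_kc_le _ _) (norm_nonneg _) (norm_kc_le _ _))
      (P := (N : ℝ) ^ (1 - δ₀)) N R w hwle (fun M' hM' => by
        have := hpr c c' (hI c hc).1 (hI c' hc').1 hne (hI c hc).2 (hI c' hc').2 M' hM'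
        refine le_trans (le_of_eq ?_) this
        congr 1
        exact Finset.sum_congr rfl fun n _ => by rw [conj_kc]; rfl)
    exact h4

end Pool.Agent.H419.LC
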