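import Mathlib
import Pool.Agent.H419.LC.QuadPow
import Pool.Graph.R_pool_sql_team_seeded_620a6dc7.H821.ST.Fld

/-! Few quadratic twists. -/

set_option autoImplicit false

open NumberField IsDedekindDomain Finset ComplexConjugate Filter Topology

namespace Pool.Agent.H419.LC

open Pool.Agent.W540.BE (upto nm mem_upto nf fiber_finite fiber_card norm_nf_le sum_nf two_le_nm)
open Pool.Agent.H419.BS (pr card_pr pnt U U_le U_atTop mean mean_eq meanAll meanAll_eq q)
open Pool.Agent.H821.ST (jr jr_eq ng card_ng_le)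
open Pool.Agent.Helper368_LD (kro)

/-- the sign -/
noncomputable def tw (s : ℤ) (n : ℕ) : ℂ := ((jacobiSym s n : ℤ) : ℂ)

theorem norm_tw_le (s : ℤ) (n : ℕ) : ‖tw s n‖ ≤ 1 := by
  unfold tw
  rcases jacobiSym.trichotomy s n with h | h | h <;> rw [h] <;> simp

variable {K : Type} [Field K] [NumberField K]

/-- `Y` is the twist of the pair `F`, `H` by `D`. -/
def TwistOf (D : ℤ) (F H Y : HeightOneSpectrum (𝓞 K) → ℂ) : Prop :=
  ∀ v : HeightOneSpectrum (𝓞 K), ((2 * D : ℤ) : 𝓞 K) ∉ v.asIdeal →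
    (IsSquare ((D : ℤ) : 𝓞 K ⧸ v.asIdeal) → Y v = F v) ∧
    (¬ IsSquare ((D : ℤ) : 𝓞 K ⧸ v.asIdeal) → Y v = H v)

theorem odd_of {v : HeightOneSpectrum (𝓞 K)} (hp : (nm K v).Prime) {D : ℤ}
    (hD : ((2 * D : ℤ) : 𝓞 K) ∉ v.asIdeal) : Odd (nm K v) := by
  rcases hp.eq_two_or_odd' with h | h
  · exfalso
    apply hD
    have h1 : ((nm K v : ℕ) : 𝓞 K) ∈ v.asIdeal := Ideal.absNorm_mem v.asIdeal
    rw [h] at h1
    push_cast at h1 ⊢
    exact v.asIdeal.mul_mem_right _ h1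
  · exact h

theorem Y_eq {F H Y : HeightOneSpectrum (𝓞 K) → ℂ} {D : ℤ} (hD0 : D ≠ 0) (hY : TwistOf D F H Y)
    {v : HeightOneSpectrum (𝓞 K)} (hp : (nm K v).Prime) (hD : ((2 * D : ℤ) : 𝓞 K) ∉ v.asIdeal) :
    Y v = (F v + H v) / 2 + ((F v - H v) / 2 * tw D.sign (nm K v)) * ev (cq D.natAbs) (nm K v) := by
  classical
  have hk : D.natAbs ≠ 0 := Int.natAbs_ne_zero.2 hD0
  have hodd := odd_of hp hD
  have h1 := jr_eq hp hD
  have h2 : tw D.sign (nm K v) * ev (cq D.natAbs) (nm K v) = ((jr D (nm K v) : ℝ) : ℂ) := by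
    rw [ev_cq hk, kro, if_pos hodd, tw, jr]
    push_cast
    rw [← Int.cast_mul, ← jacobiSym.mul_left]
    simp only [Int.sign_mul_abs]
  rw [mul_assoc, h2, h1]
  split_ifs with h
  · rw [(hY v hD).1 h]
    push_cast
    ring
  · rw [(hY v hD).2 h]
    push_cast
    ring

theorem sum_near {F H Y : HeightOneSpectrum (𝓞 K) → ℂ} (hF : ∀ v, ‖F v‖ ≤ 1) (hH : ∀ v, ‖H v‖ ≤ 1)
    (hYb : ∀ v, ‖Y v‖ ≤ 1) {D : ℤ} (hD0 : D ≠ 0) (hY : TwistOf D F H Y) (N : ℕ) :
    ‖∑ v ∈ upto K N, (Y v - (F v + H v) / 2) -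
      ∑ v ∈ upto K N, ((F v - H v) / 2 * tw D.sign (nm K v)) * ev (cq D.natAbs) (nm K v)‖ ≤
      3 * (ng K N D).card := by
  classical
  rw [← Finset.sum_sub_distrib]
  have hsub : ng K N D ⊆ upto K N := by
    unfold ng
    exact Finset.filter_subset _ _
  rw [← Finset.sum_subset hsub]
  · refine (norm_sum_le _ _).trans ((Finset.sum_le_card_nsmul _ _ 3 fun v _ => ?_).trans ?_)
    · have h1 : ‖(F v + H v) / 2‖ ≤ 1 := by
        rw [norm_div]
        have := norm_add_le (F v) (H v)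
        have := hF v
        have := hH v
        norm_num
        linarith
      have h2 : ‖(F v - H v) / 2‖ ≤ 1 := by
        rw [norm_div]
        have := norm_sub_le (F v) (H v)
        have := hF v
        have := hH v
        norm_num
        linarith
      have h3 : ‖(F v - H v) / 2 * tw D.sign (nm K v) * ev (cq D.natAbs) (nm K v)‖ ≤ 1 := by
        rw [norm_mul, norm_mul]
        have h4 := norm_tw_le D.sign (nm K v)
        have h5 := norm_ev_le (cq D.natAbs) (nm K v)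
        calc ‖(F v - H v) / 2‖ * ‖tw D.sign (nm K v)‖ * ‖ev (cq D.natAbs) (nm K v)‖ ≤ 1 * 1 * 1 := by
              gcongr
          _ = 1 := by norm_num
      calc ‖Y v - (F v + H v) / 2 - (F v - H v) / 2 * tw D.sign (nm K v) *
            ev (cq D.natAbs) (nm K v)‖
          ≤ ‖Y v‖ + ‖(F v + H v) / 2‖ +
            ‖(F v - H v) / 2 * tw D.sign (nm K v) * ev (cq D.natAbs) (nm K v)‖ :=
            (norm_sub_le _ _).trans (add_le_add (norm_sub_le _ _) le_rfl)
        _ ≤ 3 := by linarith [hYb v]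
    · rw [nsmul_eq_mul, mul_comm]
  · intro v hv hng
    unfold ng at hng
    rw [Finset.mem_filter, not_and_not_right] at hng
    have h1 := hng hv
    rw [Y_eq hD0 hY h1.1 h1.2]
    ring

variable (K) in
theorem ng_small (A δ : ℝ) (hδ : 0 < δ) : ∀ᶠ N : ℕ in atTop, ∀ D : ℤ, D ≠ 0 →
    |(D : ℝ)| ≤ (N : ℝ) ^ A → 3 * ((ng K N D).card : ℝ) ≤ δ * ((N : ℝ) / Real.log N) := by
  set d : ℝ := ((Module.finrank ℚ K : ℕ) : ℝ) with hdd
  have hd : (0 : ℝ) < d := by rw [hdd]; exact_mod_cast Module.finrank_pos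
  have h1 := small_ev (3 * d * (2 + 4 * |A|)) (1 / 2) δ (by positivity) (by norm_num) hδ
  filter_upwards [h1, eventually_ge_atTop 1] with N hN hN1 D hD0 hD
  have hN0 : (0 : ℝ) < N := by exact_mod_cast (by omega : 0 < N)
  have hN1' : (1 : ℝ) ≤ N := by exact_mod_cast hN1
  rw [show (1 / 2 + 1 / 2 : ℝ) = 1 by norm_num, Real.rpow_one] at hN
  refine le_trans ?_ hN
  have h2 := card_ng_le (K := K) N hD0
  have hD1 : (1 : ℝ) ≤ |(D : ℝ)| := by exact_mod_cast Int.one_le_abs hD0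
  have hl2 : 0 < Real.log 2 := Real.log_pos (by norm_num)
  have hl2' : (1 / 2 : ℝ) ≤ Real.log 2 := by linarith [Real.log_two_gt_d9]
  have h3 : Real.log (2 * |(D : ℝ)|) ≤ Real.log 2 + |A| * Real.log N := by
    rw [Real.log_mul (by norm_num) (by linarith)]
    have h4 : Real.log |(D : ℝ)| ≤ A * Real.log N := by
      rw [← Real.log_rpow hN0]
      exact Real.log_le_log (by linarith) hD
    have h5 : A * Real.log N ≤ |A| * Real.log N :=
      mul_le_mul_of_nonneg_right (le_abs_self A) (Real.log_nonneg hN1')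
    linarith
  have h6 : Real.log N ≤ 2 * √(N : ℝ) := by
    have := Real.log_le_rpow_div hN0.le (show (0 : ℝ) < 1 / 2 by norm_num)
    rw [← Real.sqrt_eq_rpow] at this
    linarith
  have h7 : √(N : ℝ) ≤ (Nat.sqrt N : ℝ) + 1 := Real.real_sqrt_le_nat_sqrt_succ
  have h8 : Real.log (2 * |(D : ℝ)|) / Real.log 2 ≤ 1 + 4 * |A| * √(N : ℝ) := by
    rw [div_le_iff₀ hl2]
    calc Real.log (2 * |(D : ℝ)|) ≤ Real.log 2 + |A| * (2 * √(N : ℝ)) := by
          refine h3.trans ?_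
          gcongr
      _ = Real.log 2 + 4 * |A| * √(N : ℝ) * (1 / 2) := by ring
      _ ≤ Real.log 2 + 4 * |A| * √(N : ℝ) * Real.log 2 := by gcongr
      _ = _ := by ring
  have h9 : (0 : ℝ) ≤ Nat.sqrt N := by positivity
  have h10 : 0 ≤ |A| := abs_nonneg A
  calc 3 * ((ng K N D).card : ℝ)
      ≤ 3 * (d * (√(N : ℝ) + Real.log (2 * |(D : ℝ)|) / Real.log 2)) := by gcongr
    _ ≤ 3 * (d * (((Nat.sqrt N : ℝ) + 1) + (1 + 4 * |A| * ((Nat.sqrt N : ℝ) + 1)))) := by
        gcongr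
        exact h8.trans (by gcongr)
    _ ≤ 3 * (d * (((Nat.sqrt N : ℝ) + 1) + (((Nat.sqrt N : ℝ) + 1) +
          4 * |A| * ((Nat.sqrt N : ℝ) + 1)))) := by
        gcongr
        linarith
    _ = _ := by ring

variable (K) in
/-- **Few twists.** -/
theorem twists (A η : ℝ) (hA : 0 ≤ A) (hη : 0 < η) : ∃ (C : ℝ) (N₀ : ℕ), 0 < C ∧
    ∀ N : ℕ, N₀ ≤ N →
    ∀ F H : HeightOneSpectrum (𝓞 K) → ℂ, (∀ v, ‖F v‖ ≤ 1) → (∀ v, ‖H v‖ ≤ 1) →
    ∀ 𝒟 : Finset ℤ, (∀ D ∈ 𝒟, Squarefree D ∧ |(D : ℝ)| ≤ (N : ℝ) ^ A ∧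
      ∃ Y : HeightOneSpectrum (𝓞 K) → ℂ, (∀ v, ‖Y v‖ ≤ 1) ∧ TwistOf D F H Y ∧
        η < ‖meanAll Y N - meanAll (fun v => (F v + H v) / 2) N‖) →
    (𝒟.card : ℝ) ≤ C * Real.log N ^ ⌊A / 2⌋₊ := by
  classical
  obtain ⟨C, N₁, hC, hch⟩ := quad_pow K A (η / 4) hA (by positivity)
  have hng := ng_small K A (η / 4) (by positivity)
  obtain ⟨N₂, hN₂⟩ := eventually_atTop.1 (hng.and ((U_bounds (K := K)).and
    (eventually_ge_atTop 3)))
  refine ⟨2 * C, max N₁ N₂, by positivity, fun N hN F H hF hH 𝒟 h𝒟 => ?_⟩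
  have hNN1 : N₁ ≤ N := (le_max_left _ _).trans hN
  obtain ⟨hngN, ⟨hU1, hU2⟩, hN3⟩ := hN₂ N ((le_max_right _ _).trans hN)
  have hN0 : (0 : ℝ) < N := by exact_mod_cast (by omega : 0 < N)
  have hL0 : 0 < Real.log N := Real.log_pos (by exact_mod_cast (by omega : 1 < N))
  set X : ℝ := (N : ℝ) / Real.log N with hX
  have hX0 : 0 < X := by positivity
  have hU0 : 0 < U K N := by
    have : 0 < X / 2 := by positivity
    linarith
  have hD0 : ∀ D ∈ 𝒟, D ≠ 0 := fun D hD => (h𝒟 D hD).1.ne_zero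
  -- one sign
  have half : ∀ s : ℤ, ((𝒟.filter (fun D => D.sign = s)).card : ℝ) ≤
      C * Real.log N ^ ⌊A / 2⌋₊ := by
    intro s
    have hinj : Set.InjOn (fun D : ℤ => D.natAbs) (𝒟.filter (fun D => D.sign = s)) := by
      intro D hD D' hD' h
      rw [Finset.mem_coe, Finset.mem_filter] at hD hD'
      have h2 : D.natAbs = D'.natAbs := h
      rw [← Int.sign_mul_natAbs D, ← Int.sign_mul_natAbs D', hD.2, hD'.2, h2]
    rw [← Finset.card_image_of_injOn hinj]
    refine hch N hNN1 (fun v => (F v - H v) / 2 * tw s (nm K v)) ?_ _ ?_ ?_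
    · intro v
      rw [norm_mul]
      have h2 : ‖(F v - H v) / 2‖ ≤ 1 := by
        rw [norm_div]
        have := norm_sub_le (F v) (H v)
        have := hF v
        have := hH v
        norm_num
        linarith
      calc ‖(F v - H v) / 2‖ * ‖tw s (nm K v)‖ ≤ 1 * 1 := by
            have := norm_tw_le s (nm K v)
            gcongr
        _ = 1 := one_mul 1
    · intro c hc
      rw [Finset.mem_image] at hc
      obtain ⟨D, hD, rfl⟩ := hc
      rw [Finset.mem_filter] at hD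
      refine ⟨Int.squarefree_natAbs.2 (h𝒟 D hD.1).1, ?_⟩
      rw [Nat.cast_natAbs, Int.cast_abs]
      exact (h𝒟 D hD.1).2.1
    · intro c hc
      rw [Finset.mem_image] at hc
      obtain ⟨D, hD, rfl⟩ := hc
      rw [Finset.mem_filter] at hD
      obtain ⟨hsq, hDle, Y, hYb, hY, hbig⟩ := h𝒟 D hD.1
      have h1 := sum_near hF hH hYb (hD0 D hD.1) hY N
      rw [hD.2] at h1
      have h2 := hngN D (hD0 D hD.1) hDle
      have h3 : meanAll Y N - meanAll (fun v => (F v + H v) / 2) N =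
          (∑ v ∈ upto K N, (Y v - (F v + H v) / 2)) / (U K N : ℂ) := by
        rw [meanAll_eq, meanAll_eq, ← sub_div, Finset.sum_sub_distrib]
      rw [h3, norm_div, Complex.norm_real, Real.norm_of_nonneg hU0.le, lt_div_iff₀ hU0] at hbig
      have h5 : ‖∑ v ∈ upto K N, (Y v - (F v + H v) / 2)‖ ≤
          ‖∑ v ∈ upto K N, (F v - H v) / 2 * tw s (nm K v) * ev (cq D.natAbs) (nm K v)‖ +
          3 * (ng K N D).card := by
        refine le_trans ?_ (add_le_add le_rfl h1)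
        have := norm_add_le
          (∑ v ∈ upto K N, (F v - H v) / 2 * tw s (nm K v) * ev (cq D.natAbs) (nm K v))
          (∑ v ∈ upto K N, (Y v - (F v + H v) / 2) -
            ∑ v ∈ upto K N, (F v - H v) / 2 * tw s (nm K v) * ev (cq D.natAbs) (nm K v))
        rwa [add_sub_cancel] at this
      have h6 : η * (X / 2) ≤ η * U K N := by gcongr
      have h7 : η * (X / 2) = η / 4 * X + η / 4 * X := by ring
      linarith
  have hsplit : 𝒟 = 𝒟.filter (fun D => D.sign = 1) ∪ 𝒟.filter (fun D => D.sign = -1) := by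
    ext D
    rw [Finset.mem_union, Finset.mem_filter, Finset.mem_filter]
    constructor
    · intro hD
      rcases lt_or_gt_of_ne (hD0 D hD) with h | h
      · exact Or.inr ⟨hD, Int.sign_eq_neg_one_of_neg h⟩
      · exact Or.inl ⟨hD, Int.sign_eq_one_of_pos h⟩
    · rintro (h | h)
      · exact h.1
      · exact h.1
  have h1 : (𝒟.card : ℝ) ≤ ((𝒟.filter (fun D => D.sign = 1)).card : ℝ) +
      ((𝒟.filter (fun D => D.sign = -1)).card : ℝ) := by
    have h2 := Finset.card_union_le (𝒟.filter (fun D => D.sign = 1)) (𝒟.filter (fun D => D.sign = -1))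
    rw [← hsplit] at h2
    exact_mod_cast h2
  have h2 := half 1
  have h3 := half (-1)
  linarith

end Pool.Agent.H419.LC
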