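import Mathlib
import Pool.Agent.H419.LC.Twist

/-! Few quadratic twists, at all scales. -/

set_option autoImplicit false

open NumberField IsDedekindDomain Finset ComplexConjugate Filter Topology

namespace Pool.Agent.H419.LC

open Pool.Agent.W540.BE (upto nm mem_upto nf fiber_finite fiber_card norm_nf_le sum_nf two_le_nm)
open Pool.Agent.H419.BS (pr card_pr pnt U U_le U_atTop mean mean_eq meanAll meanAll_eq q)

variable (K : Type) [Field K] [NumberField K]

theorem U_tendsto : Tendsto (fun N : ℕ => U K N * Real.log N / N) atTop (𝓝 1) :=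
  Pool.Agent.H821.ST.uK_tendsto

theorem ratio (e : ℝ) (he : 0 < e) (he1 : e ≤ 1 / 8) : ∃ N₁ : ℕ, ∀ M N : ℕ, N₁ ≤ M → M ≤ N →
    (N : ℝ) ≤ (1 + e) * M → (1 - 8 * e) * U K N ≤ U K M := by
  have h1 := (U_tendsto K).eventually_const_lt (show 1 - e < 1 by linarith)
  have h2 := (U_tendsto K).eventually_lt_const (show 1 < 1 + e by linarith)
  obtain ⟨N₁, hN₁⟩ := eventually_atTop.1 (h1.and (h2.and (eventually_ge_atTop 2)))
  refine ⟨N₁, fun M N hM hMN hN => ?_⟩
  obtain ⟨a1, -, a3⟩ := hN₁ M hM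
  obtain ⟨-, b2, b3⟩ := hN₁ N (hM.trans hMN)
  have hM0 : (0 : ℝ) < M := by exact_mod_cast (by omega : 0 < M)
  have hN0 : (0 : ℝ) < N := by exact_mod_cast (by omega : 0 < N)
  have hLM : 0 < Real.log M := Real.log_pos (by exact_mod_cast (by omega : 1 < M))
  have hLN : 0 < Real.log N := Real.log_pos (by exact_mod_cast (by omega : 1 < N))
  have hLMN : Real.log M ≤ Real.log N := Real.log_le_log hM0 (by exact_mod_cast hMN)
  rw [lt_div_iff₀ hM0] at a1
  rw [div_lt_iff₀ hN0] at b2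
  have hU0 : 0 ≤ U K N := by unfold U; positivity
  -- `U K N * log M ≤ (1 + e)² M`
  have c1 : U K N * Real.log M ≤ (1 + e) * ((1 + e) * M) := by
    calc U K N * Real.log M ≤ U K N * Real.log N := by gcongr
      _ ≤ (1 + e) * N := b2.le
      _ ≤ _ := by gcongr
  have c2 : (1 - 8 * e) * ((1 + e) * ((1 + e) * M)) ≤ (1 - e) * M := by
    have : (1 - 8 * e) * ((1 + e) * (1 + e)) ≤ 1 - e := by nlinarith [sq_nonneg e, pow_pos he 3]
    calc _ = ((1 - 8 * e) * ((1 + e) * (1 + e))) * M := by ring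
      _ ≤ _ := by gcongr
  have c3 : ((1 - 8 * e) * U K N) * Real.log M ≤ U K M * Real.log M := by
    calc _ = (1 - 8 * e) * (U K N * Real.log M) := by ring
      _ ≤ (1 - 8 * e) * ((1 + e) * ((1 + e) * M)) := by
          have : 0 ≤ 1 - 8 * e := by linarith
          gcongr
      _ ≤ (1 - e) * M := c2
      _ ≤ _ := a1.le
  exact le_of_mul_le_mul_right c3 hLM

variable {K} in
theorem mean_stable {h : HeightOneSpectrum (𝓞 K) → ℂ} (hh : ∀ v, ‖h v‖ ≤ 2) {M N : ℕ} (hMN : M ≤ N)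
    {t : ℝ} (ht : (1 - t) * U K N ≤ U K M) (hM : 0 < U K M) :
    ‖meanAll h N - meanAll h M‖ ≤ 4 * t := by
  classical
  have hsub : upto K M ⊆ upto K N := by
    intro v hv
    rw [mem_upto] at hv ⊢
    exact hv.trans hMN
  have hUMN : U K M ≤ U K N := by
    unfold U
    exact_mod_cast Finset.card_le_card hsub
  have hN : 0 < U K N := hM.trans_le hUMN
  have hMc : (U K M : ℂ) ≠ 0 := by exact_mod_cast hM.ne'
  have hNc : (U K N : ℂ) ≠ 0 := by exact_mod_cast hN.ne'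
  have e1 : meanAll h N - meanAll h M = (∑ v ∈ upto K N \ upto K M, h v) / (U K N : ℂ) -
      (∑ v ∈ upto K M, h v) / (U K M : ℂ) * (((U K N - U K M : ℝ) : ℂ) / (U K N : ℂ)) := by
    rw [meanAll_eq, meanAll_eq, ← Finset.sum_sdiff hsub]
    push_cast
    field_simp
    ring
  have e2 : ((upto K N \ upto K M).card : ℝ) = U K N - U K M := by
    unfold U
    rw [Finset.card_sdiff_of_subset hsub, Nat.cast_sub (Finset.card_le_card hsub)]
  have h1 : ‖(∑ v ∈ upto K N \ upto K M, h v) / (U K N : ℂ)‖ ≤ 2 * t := by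
    rw [norm_div, Complex.norm_real, Real.norm_of_nonneg hN.le, div_le_iff₀ hN]
    refine (norm_sum_le _ _).trans ((Finset.sum_le_card_nsmul _ _ 2 fun v _ => hh v).trans ?_)
    rw [nsmul_eq_mul, e2]
    linarith
  have h2 : ‖(∑ v ∈ upto K M, h v) / (U K M : ℂ)‖ ≤ 2 := by
    rw [norm_div, Complex.norm_real, Real.norm_of_nonneg hM.le, div_le_iff₀ hM]
    refine (norm_sum_le _ _).trans ((Finset.sum_le_card_nsmul _ _ 2 fun v _ => hh v).trans ?_)
    rw [nsmul_eq_mul, mul_comm]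
    rfl
  have h3 : ‖(((U K N - U K M : ℝ) : ℂ) / (U K N : ℂ))‖ ≤ t := by
    rw [norm_div, Complex.norm_real, Complex.norm_real, Real.norm_of_nonneg hN.le,
      Real.norm_of_nonneg (by linarith), div_le_iff₀ hN]
    linarith
  rw [e1]
  refine (norm_sub_le _ _).trans ?_
  rw [norm_mul]
  have : ‖(∑ v ∈ upto K M, h v) / (U K M : ℂ)‖ * ‖(((U K N - U K M : ℝ) : ℂ) / (U K N : ℂ))‖ ≤
      2 * t := by gcongr
  linarith

set_option maxHeartbeats 4000000 in
/-- **Few twists, at all scales.** -/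
theorem scales (A B η : ℝ) (hA : 0 ≤ A) (hB : 0 ≤ B) (hη : 0 < η) : ∃ C : ℝ, 0 < C ∧
    ∀ F H : HeightOneSpectrum (𝓞 K) → ℂ, (∀ v, ‖F v‖ ≤ 1) → (∀ v, ‖H v‖ ≤ 1) →
    ∃ E : Set ℤ, (∀ X : ℕ, 2 ≤ X →
      (({D : ℤ | D ∈ E ∧ |D| ≤ X}.ncard : ℕ) : ℝ) ≤ C * Real.log X ^ (⌊A / 2⌋₊ + 1)) ∧
    ∀ D : ℤ, Squarefree D → D ∉ E → ∀ Y : HeightOneSpectrum (𝓞 K) → ℂ, (∀ v, ‖Y v‖ ≤ 1) →
      TwistOf D F H Y → ∀ N : ℕ, |(D : ℝ)| ≤ (N : ℝ) ^ A → (N : ℝ) ≤ |(D : ℝ)| ^ B →
      ‖meanAll Y N - meanAll (fun v => (F v + H v) / 2) N‖ ≤ η := by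
  classical
  -- a slightly larger exponent
  set A' : ℝ := (A + (2 * ⌊A / 2⌋₊ + 2)) / 2 with hA'
  have hAlt : A / 2 < ⌊A / 2⌋₊ + 1 := Nat.lt_floor_add_one (A / 2)
  have hAA' : A < A' := by rw [hA']; linarith
  have hA'lt : A' / 2 < ⌊A / 2⌋₊ + 1 := by rw [hA']; linarith
  have hfloor : ⌊A' / 2⌋₊ = ⌊A / 2⌋₊ := by
    rw [Nat.floor_eq_iff (by linarith)]
    exact ⟨(Nat.floor_le (by positivity)).trans (by linarith), hA'lt⟩
  set e : ℝ := min (1 / 8) (η / 64) with he
  have he0 : 0 < e := by positivity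
  have he1 : e ≤ 1 / 8 := min_le_left _ _
  have he2 : e ≤ η / 64 := min_le_right _ _
  obtain ⟨C, N₁, hC, htw⟩ := twists K A' (η / 2) (by linarith) (by positivity)
  obtain ⟨N₂, hrat⟩ := ratio K e he0 he1
  have hgrow : ∀ᶠ M : ℕ in atTop, ((1 + e) * (M : ℝ)) ^ A ≤ (M : ℝ) ^ A' := by
    have h5 := log_pow_le 0 ((1 + e) ^ A) (A' - A) (by linarith) (by positivity)
    filter_upwards [h5, eventually_ge_atTop 1] with N hN hN1
    have hN0 : (0 : ℝ) < N := by exact_mod_cast (by omega : 0 < N)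
    rw [pow_zero, mul_one] at hN
    rw [Real.mul_rpow (by positivity) hN0.le]
    calc (1 + e) ^ A * (N : ℝ) ^ A ≤ (N : ℝ) ^ (A' - A) * (N : ℝ) ^ A := by gcongr
      _ = (N : ℝ) ^ A' := by rw [← Real.rpow_add hN0]; congr 1; ring
  have hUpos : ∀ᶠ M : ℕ in atTop, 0 < U K M := (U_atTop (K := K)).eventually_gt_atTop 0
  obtain ⟨N₃, hN₃⟩ := eventually_atTop.1 (hgrow.and hUpos)
  set N₄ : ℕ := max (max N₁ N₂) (max N₃ 2) with hN₄
  set N₅ : ℕ := ⌈(1 + e) * (N₄ : ℝ)⌉₊ + 1 with hN₅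
  set D₀ : ℕ := ⌈(N₅ : ℝ) ^ A⌉₊ with hD₀
  have hρ : 0 < Real.log (1 + e) := Real.log_pos (by linarith)
  have hl2 : 0 < Real.log 2 := Real.log_pos (by norm_num)
  -- the constant
  set C' : ℝ := (2 * D₀ + 1) / Real.log 2 ^ (⌊A / 2⌋₊ + 1) +
    (B / Real.log (1 + e) + 1 / Real.log 2) * (C * B ^ ⌊A / 2⌋₊) + 1 with hC'
  refine ⟨C', by positivity, fun F H hF hH => ?_⟩
  -- the bad sets
  set bad : ℕ → Set ℤ := fun M => {D : ℤ | Squarefree D ∧ |(D : ℝ)| ≤ (M : ℝ) ^ A' ∧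
    ∃ Y : HeightOneSpectrum (𝓞 K) → ℂ, (∀ v, ‖Y v‖ ≤ 1) ∧ TwistOf D F H Y ∧
      η / 2 < ‖meanAll Y M - meanAll (fun v => (F v + H v) / 2) M‖} with hbad
  have hfin : ∀ M, (bad M).Finite := by
    intro M
    refine (Set.finite_Icc (-⌊(M : ℝ) ^ A'⌋) ⌊(M : ℝ) ^ A'⌋).subset fun D hD => ?_
    rw [Set.mem_Icc, ← abs_le]
    rw [Int.le_floor]
    push_cast
    exact hD.2.1
  have hcard : ∀ M, N₁ ≤ M → (((hfin M).toFinset.card : ℕ) : ℝ) ≤ C * Real.log M ^ ⌊A / 2⌋₊ := by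
    intro M hM
    rw [← hfloor]
    exact htw M hM F H hF hH _ fun D hD => by
      rw [Set.Finite.mem_toFinset] at hD
      exact hD
  set E : Set ℤ := {D : ℤ | |D| ≤ D₀} ∪ {D : ℤ | Squarefree D ∧ ∃ N : ℕ, N₅ ≤ N ∧
    |(D : ℝ)| ≤ (N : ℝ) ^ A ∧ (N : ℝ) ≤ |(D : ℝ)| ^ B ∧
    ∃ Y : HeightOneSpectrum (𝓞 K) → ℂ, (∀ v, ‖Y v‖ ≤ 1) ∧ TwistOf D F H Y ∧
      η < ‖meanAll Y N - meanAll (fun v => (F v + H v) / 2) N‖} with hE
  refine ⟨E, fun X hX => ?_, fun D hD hDE Y hYb hY N hDN hND => ?_⟩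
  · -- counting
    have hX0 : (0 : ℝ) < X := by exact_mod_cast (by omega : 0 < X)
    have hX1 : (1 : ℝ) ≤ X := by exact_mod_cast (by omega : 1 ≤ X)
    have hLX2 : Real.log 2 ≤ Real.log X := Real.log_le_log (by norm_num) (by exact_mod_cast hX)
    have hLX : 0 < Real.log X := by linarith
    set J : ℕ := ⌊B * Real.log X / Real.log (1 + e)⌋₊ with hJ
    set g : ℕ → ℕ := fun j => ⌈(1 + e) ^ j⌉₊ with hg
    set T : Finset ℤ := Finset.Icc (-(D₀ : ℤ)) D₀ ∪ ((range (J + 1)).filter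
      (fun j => N₁ ≤ g j ∧ (g j : ℝ) ≤ (X : ℝ) ^ B)).biUnion (fun j => (hfin (g j)).toFinset) with hT
    have hsub : {D : ℤ | D ∈ E ∧ |D| ≤ X} ⊆ (T : Set ℤ) := by
      rintro D ⟨hDE, hDX⟩
      rw [hT, Finset.mem_coe, Finset.mem_union]
      rcases hDE with h | ⟨hsq, N, hN5, hDN, hND, Y, hYb, hY, hbig⟩
      · left
        rw [Finset.mem_Icc, ← abs_le]
        exact h
      · right
        have hN50 : 1 ≤ N := by omega
        obtain ⟨j, hj1, hj2⟩ := exists_nat_pow_near (show (1 : ℝ) ≤ N by exact_mod_cast hN50)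
          (show (1 : ℝ) < 1 + e by linarith)
        have hgN : g j ≤ N := by
          rw [hg]
          exact Nat.ceil_le.2 hj1
        have hNg : (N : ℝ) ≤ (1 + e) * g j := by
          have h1 : (1 + e) ^ j ≤ (g j : ℝ) := Nat.le_ceil _
          calc (N : ℝ) ≤ (1 + e) ^ (j + 1) := hj2.le
            _ = (1 + e) * (1 + e) ^ j := by ring
            _ ≤ _ := by gcongr
        have hg4 : N₄ ≤ g j := by
          by_contra hcon
          push Not at hcon
          have h1 : (1 + e) * (g j : ℝ) ≤ (1 + e) * N₄ := by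
            have : (g j : ℝ) ≤ N₄ := by exact_mod_cast hcon.le
            gcongr
          have h2 : (1 + e) * (N₄ : ℝ) ≤ ⌈(1 + e) * (N₄ : ℝ)⌉₊ := Nat.le_ceil _
          have h3 : (N₅ : ℝ) ≤ N := by exact_mod_cast hN5
          rw [hN₅] at h3
          push_cast at h3
          linarith
        have hg1 : N₁ ≤ g j := ((le_max_left _ _).trans (le_max_left _ _)).trans hg4
        have hg2 : N₂ ≤ g j := ((le_max_right _ _).trans (le_max_left _ _)).trans hg4
        have hg3 : N₃ ≤ g j := ((le_max_left _ _).trans (le_max_right _ _)).trans hg4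
        obtain ⟨hgr, hUp⟩ := hN₃ (g j) hg3
        have hDXr : |(D : ℝ)| ≤ X := by exact_mod_cast hDX
        have hNX : (N : ℝ) ≤ (X : ℝ) ^ B := hND.trans (Real.rpow_le_rpow (abs_nonneg _) hDXr hB)
        rw [Finset.mem_biUnion]
        refine ⟨j, ?_, ?_⟩
        · rw [Finset.mem_filter, Finset.mem_range]
          refine ⟨?_, hg1, ?_⟩
          · rw [Nat.lt_succ_iff, hJ, Nat.le_floor_iff (by positivity), le_div_iff₀ hρ,
              ← Real.log_pow, ← Real.log_rpow hX0]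
            exact Real.log_le_log (by positivity) (hj1.trans hNX)
          · exact (by exact_mod_cast hgN : (g j : ℝ) ≤ N).trans hNX
        · rw [Set.Finite.mem_toFinset]
          refine ⟨hsq, ?_, Y, hYb, hY, ?_⟩
          · refine hDN.trans (le_trans ?_ hgr)
            exact Real.rpow_le_rpow (by positivity) hNg hA
          · have hr := hrat (g j) N hg2 hgN hNg
            have hst := mean_stable (h := fun v => Y v - (F v + H v) / 2) (fun v => by
              have h1 := norm_sub_le (Y v) ((F v + H v) / 2)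
              have h2 : ‖(F v + H v) / 2‖ ≤ 1 := by
                rw [norm_div]
                have := norm_add_le (F v) (H v)
                have := hF v
                have := hH v
                norm_num
                linarith
              linarith [hYb v]) hgN hr hUp
            rw [Pool.Agent.H419.BS.meanAll_sub, Pool.Agent.H419.BS.meanAll_sub] at hst
            have h3 := norm_sub_norm_le (meanAll Y N - meanAll (fun v => (F v + H v) / 2) N)
              (meanAll Y (g j) - meanAll (fun v => (F v + H v) / 2) (g j))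
            linarith
    have hTcard : ((T.card : ℕ) : ℝ) ≤ C' * Real.log X ^ (⌊A / 2⌋₊ + 1) := by
      have h1 : T.card ≤ (Finset.Icc (-(D₀ : ℤ)) D₀).card + ∑ j ∈ (range (J + 1)).filter
          (fun j => N₁ ≤ g j ∧ (g j : ℝ) ≤ (X : ℝ) ^ B), (hfin (g j)).toFinset.card :=
        (Finset.card_union_le _ _).trans (add_le_add le_rfl Finset.card_biUnion_le)
      have h2 : ((Finset.Icc (-(D₀ : ℤ)) D₀).card : ℝ) = 2 * D₀ + 1 := by
        rw [Int.card_Icc]
        have : ((D₀ : ℤ) + 1 - -(D₀ : ℤ)).toNat = 2 * D₀ + 1 := by omega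
        rw [this]
        push_cast
        ring
      have h3 : ∀ j ∈ (range (J + 1)).filter (fun j => N₁ ≤ g j ∧ (g j : ℝ) ≤ (X : ℝ) ^ B),
          (((hfin (g j)).toFinset.card : ℕ) : ℝ) ≤ C * (B * Real.log X) ^ ⌊A / 2⌋₊ := by
        intro j hj
        rw [Finset.mem_filter] at hj
        refine (hcard (g j) hj.2.1).trans ?_
        have h4 : (1 : ℝ) ≤ g j := by
          have h5 : (1 + e) ^ j ≤ (g j : ℝ) := Nat.le_ceil _
          exact (one_le_pow₀ (by linarith)).trans h5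
        have h5 : 0 ≤ Real.log (g j) := Real.log_nonneg h4
        have h6 : Real.log (g j) ≤ B * Real.log X := by
          rw [← Real.log_rpow hX0]
          exact Real.log_le_log (by linarith) hj.2.2
        gcongr
      have h4 : ((∑ j ∈ (range (J + 1)).filter
          (fun j => N₁ ≤ g j ∧ (g j : ℝ) ≤ (X : ℝ) ^ B), (hfin (g j)).toFinset.card : ℕ) : ℝ) ≤
          (J + 1) * (C * (B * Real.log X) ^ ⌊A / 2⌋₊) := by
        push_cast
        refine (Finset.sum_le_card_nsmul _ _ _ h3).trans ?_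
        rw [nsmul_eq_mul]
        have h5 : (((range (J + 1)).filter
          (fun j => N₁ ≤ g j ∧ (g j : ℝ) ≤ (X : ℝ) ^ B)).card : ℝ) ≤ J + 1 := by
          have := Finset.card_filter_le (range (J + 1))
            (fun j => N₁ ≤ g j ∧ (g j : ℝ) ≤ (X : ℝ) ^ B)
          rw [Finset.card_range] at this
          exact_mod_cast this
        have h6 : 0 ≤ B * Real.log X := by positivity
        gcongr
      have h5 : (J : ℝ) ≤ B * Real.log X / Real.log (1 + e) := Nat.floor_le (by positivity)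
      have h6 : (J : ℝ) + 1 ≤ (B / Real.log (1 + e) + 1 / Real.log 2) * Real.log X := by
        have : (1 : ℝ) ≤ 1 / Real.log 2 * Real.log X := by
          rw [div_mul_eq_mul_div, one_mul, le_div_iff₀ hl2]
          linarith
        calc (J : ℝ) + 1 ≤ B * Real.log X / Real.log (1 + e) + 1 / Real.log 2 * Real.log X := by
              linarith
          _ = _ := by ring
      have h7 : (2 * (D₀ : ℝ) + 1) ≤
          (2 * D₀ + 1) / Real.log 2 ^ (⌊A / 2⌋₊ + 1) * Real.log X ^ (⌊A / 2⌋₊ + 1) := by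
        rw [div_mul_eq_mul_div, le_div_iff₀ (by positivity)]
        gcongr
      have h8 : (J + 1 : ℝ) * (C * (B * Real.log X) ^ ⌊A / 2⌋₊) ≤
          (B / Real.log (1 + e) + 1 / Real.log 2) * (C * B ^ ⌊A / 2⌋₊) * Real.log X ^ (⌊A / 2⌋₊ + 1) := by
        calc (J + 1 : ℝ) * (C * (B * Real.log X) ^ ⌊A / 2⌋₊)
            ≤ ((B / Real.log (1 + e) + 1 / Real.log 2) * Real.log X) *
              (C * (B * Real.log X) ^ ⌊A / 2⌋₊) := by
              have : 0 ≤ B * Real.log X := by positivity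
              gcongr
          _ = _ := by rw [mul_pow, pow_succ]; ring
      have h9 : (T.card : ℝ) ≤ (2 * D₀ + 1) + (J + 1) * (C * (B * Real.log X) ^ ⌊A / 2⌋₊) := by
        have h10 : (T.card : ℝ) ≤ ((Finset.Icc (-(D₀ : ℤ)) D₀).card : ℝ) +
          ((∑ j ∈ (range (J + 1)).filter
          (fun j => N₁ ≤ g j ∧ (g j : ℝ) ≤ (X : ℝ) ^ B), (hfin (g j)).toFinset.card : ℕ) : ℝ) := by
          exact_mod_cast h1
        linarith
      have h10 : 0 ≤ Real.log X ^ (⌊A / 2⌋₊ + 1) := by positivity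
      calc (T.card : ℝ) ≤ _ := h9
        _ ≤ (2 * D₀ + 1) / Real.log 2 ^ (⌊A / 2⌋₊ + 1) * Real.log X ^ (⌊A / 2⌋₊ + 1) +
          (B / Real.log (1 + e) + 1 / Real.log 2) * (C * B ^ ⌊A / 2⌋₊) * Real.log X ^ (⌊A / 2⌋₊ + 1) :=
          add_le_add h7 h8
        _ ≤ C' * Real.log X ^ (⌊A / 2⌋₊ + 1) := by rw [hC']; linarith
    refine le_trans ?_ hTcard
    have := Set.ncard_le_ncard hsub T.finite_toSet
    rw [Set.ncard_coe_finset] at this
    exact_mod_cast this
  · by_contra hcon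
    push Not at hcon
    apply hDE
    rw [hE]
    by_cases hN5 : N₅ ≤ N
    · exact Or.inr ⟨hD, N, hN5, hDN, hND, Y, hYb, hY, hcon⟩
    · left
      push Not at hN5
      show |D| ≤ (D₀ : ℤ)
      have h1 : |(D : ℝ)| ≤ (N₅ : ℝ) ^ A :=
        hDN.trans (Real.rpow_le_rpow (by positivity) (by exact_mod_cast hN5.le) hA)
      have h2 : |(D : ℝ)| ≤ (D₀ : ℝ) := h1.trans (Nat.le_ceil _)
      exact_mod_cast h2

end Pool.Agent.H419.LC
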