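import Mathlib
import Pool.Agent.H419.LC.Scales

/-! Few quadratic twists, for all functions of a compact set. -/

set_option autoImplicit false
set_option linter.unusedSectionVars false
set_option linter.unusedVariables false

open NumberField IsDedekindDomain Finset Filter Topology MeasureTheory

namespace Pool.Agent.H419.LC

open Pool.Agent.W540.BE (upto nm mem_upto)
open Pool.Agent.H419.BS (U mean mean_eq meanAll meanAll_eq meanAll_sub q Equidistributed)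

variable {K : Type} [Field K] [NumberField K]

/-- The `y v` are in the classes of the twist by `D` of the family with the classes of the `x v`:
for all primes `v` not dividing `2 D`, `y v` is a conjugate of `x v` if `D` is a square modulo `v`,
and a conjugate of `z * x v` if it is not. -/
def IsTwist {G : Type} [Group G] (z : G) (D : ℤ) (x y : HeightOneSpectrum (𝓞 K) → G) : Prop :=
  ∀ v : HeightOneSpectrum (𝓞 K), ((2 * D : ℤ) : 𝓞 K) ∉ v.asIdeal → ∃ h : G,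
    (IsSquare ((D : ℤ) : 𝓞 K ⧸ v.asIdeal) → y v = h * x v * h⁻¹) ∧
    (¬ IsSquare ((D : ℤ) : 𝓞 K ⧸ v.asIdeal) → y v = h * (z * x v) * h⁻¹)

/-- For all representatives `y` of the classes of the twist by `D` and all `f ∈ 𝓕` the mean value
of `f (y v)` over the `v` of norm at most `N` differs by at most `η` from the one of the even part
`(f (x v) + f (z * x v)) / 2`. -/
def Good {G : Type} [Group G] [TopologicalSpace G] (z : G) (𝓕 : Set C(G, ℂ)) (η : ℝ)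
    (x : HeightOneSpectrum (𝓞 K) → G) (D : ℤ) (N : ℕ) : Prop :=
  ∀ y : HeightOneSpectrum (𝓞 K) → G, IsTwist z D x y → ∀ f ∈ 𝓕,
    ‖meanAll (fun v => f (y v)) N - meanAll (fun v => (f (x v) + f (z * x v)) / 2) N‖ ≤ η

theorem mean_le {P Q : HeightOneSpectrum (𝓞 K) → ℂ} {r : ℝ} (hr : 0 ≤ r)
    (h : ∀ v, ‖P v - Q v‖ ≤ r) (N : ℕ) : ‖meanAll P N - meanAll Q N‖ ≤ r := by
  rw [← meanAll_sub, meanAll_eq, norm_div, Complex.norm_real]
  have hU : 0 ≤ U K N := by unfold U; positivity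
  rw [Real.norm_of_nonneg hU]
  rcases hU.eq_or_lt with h0 | h0
  · rw [← h0]
    simpa using hr
  · rw [div_le_iff₀ h0]
    refine (norm_sum_le _ _).trans ((Finset.sum_le_sum fun v _ => h v).trans ?_)
    rw [Finset.sum_const, nsmul_eq_mul, mul_comm]
    rfl

theorem meanAll_smul (c : ℂ) (P : HeightOneSpectrum (𝓞 K) → ℂ) (N : ℕ) :
    meanAll (fun v => c * P v) N = c * meanAll P N := by
  rw [meanAll_eq, meanAll_eq, ← Finset.mul_sum, mul_div_assoc]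

section

variable {G : Type} [Group G] [TopologicalSpace G] [IsTopologicalGroup G] [CompactSpace G]

theorem net (𝓕 : Set C(G, ℂ)) (h𝓕 : IsCompact 𝓕) {η : ℝ} (hη : 0 < η) : ∃ (T : Finset C(G, ℂ))
    (M : ℝ), 1 ≤ M ∧ (∀ f ∈ T, f ∈ 𝓕) ∧ (∀ f ∈ 𝓕, ∀ g, ‖f g‖ ≤ M) ∧
    ∀ f ∈ 𝓕, ∃ f' ∈ T, ∀ g, ‖f g - f' g‖ ≤ η := by
  classical
  obtain ⟨M₀, hM₀⟩ := h𝓕.isBounded.exists_norm_le
  obtain ⟨T, hT𝓕, hTfin, hTcov⟩ := h𝓕.finite_cover_balls hη
  refine ⟨hTfin.toFinset, max M₀ 1, le_max_right _ _, fun f hf => hT𝓕 (hTfin.mem_toFinset.1 hf),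
    fun f hf g => (f.norm_coe_le_norm g).trans ((hM₀ f hf).trans (le_max_left _ _)),
    fun f hf => ?_⟩
  have h1 := hTcov hf
  rw [Set.mem_iUnion₂] at h1
  obtain ⟨f', hf', h2⟩ := h1
  refine ⟨f', hTfin.mem_toFinset.2 hf', fun g => ?_⟩
  rw [Metric.mem_ball] at h2
  have h3 := ContinuousMap.dist_apply_le_dist (f := f) (g := f') g
  rw [dist_eq_norm] at h3
  exact h3.trans h2.le

theorem even_le {f f' : C(G, ℂ)} {r : ℝ} (h : ∀ g, ‖f g - f' g‖ ≤ r) (z : G)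
    (x : HeightOneSpectrum (𝓞 K) → G) (v : HeightOneSpectrum (𝓞 K)) :
    ‖(f (x v) + f (z * x v)) / 2 - (f' (x v) + f' (z * x v)) / 2‖ ≤ r := by
  have e : (f (x v) + f (z * x v)) / 2 - (f' (x v) + f' (z * x v)) / 2 =
      ((f (x v) - f' (x v)) + (f (z * x v) - f' (z * x v))) / 2 := by ring
  have h2' : ‖(2 : ℂ)‖ = 2 := by simp
  rw [e, norm_div, h2', div_le_iff₀ (by norm_num)]
  refine (norm_add_le _ _).trans ?_
  linarith [h (x v), h (z * x v)]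

/-- from the net to all functions -/
theorem good_of_net {𝓕 : Set C(G, ℂ)} {T : Finset C(G, ℂ)} {η : ℝ} (hη : 0 < η)
    (hT : ∀ f ∈ 𝓕, ∃ f' ∈ T, ∀ g, ‖f g - f' g‖ ≤ η / 4) (z : G)
    (x : HeightOneSpectrum (𝓞 K) → G) (D : ℤ) (N : ℕ)
    (h : ∀ y : HeightOneSpectrum (𝓞 K) → G, IsTwist z D x y → ∀ f ∈ T,
      ‖meanAll (fun v => f (y v)) N - meanAll (fun v => (f (x v) + f (z * x v)) / 2) N‖ ≤ η / 2) :
    Good z 𝓕 η x D N := by
  intro y hy f hf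
  obtain ⟨f', hf', hff⟩ := hT f hf
  have h1 := h y hy f' hf'
  have h2 : ‖meanAll (fun v => f (y v)) N - meanAll (fun v => f' (y v)) N‖ ≤ η / 4 :=
    mean_le (by positivity) (fun v => hff _) N
  have h3 : ‖meanAll (fun v => (f (x v) + f (z * x v)) / 2) N -
      meanAll (fun v => (f' (x v) + f' (z * x v)) / 2) N‖ ≤ η / 4 :=
    mean_le (by positivity) (fun v => even_le hff z x v) N
  have e : meanAll (fun v => f (y v)) N - meanAll (fun v => (f (x v) + f (z * x v)) / 2) N =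
      (meanAll (fun v => f (y v)) N - meanAll (fun v => f' (y v)) N) +
      (meanAll (fun v => f' (y v)) N - meanAll (fun v => (f' (x v) + f' (z * x v)) / 2) N) -
      (meanAll (fun v => (f (x v) + f (z * x v)) / 2) N -
      meanAll (fun v => (f' (x v) + f' (z * x v)) / 2) N) := by ring
  rw [e]
  refine (norm_sub_le _ _).trans ((add_le_add (norm_add_le _ _) le_rfl).trans ?_)
  linarith

/-- scaling -/
theorem scale_twist {f : C(G, ℂ)} {M : ℝ} (hM : 0 < M) {η : ℝ} {z : G}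
    (hcl : ∀ g h, f (h * g * h⁻¹) = f g) {x y : HeightOneSpectrum (𝓞 K) → G} {D : ℤ}
    (hy : IsTwist z D x y) :
    TwistOf D (fun v => ((M⁻¹ : ℝ) : ℂ) * f (x v)) (fun v => ((M⁻¹ : ℝ) : ℂ) * f (z * x v))
      (fun v => ((M⁻¹ : ℝ) : ℂ) * f (y v)) ∧
    ∀ N : ℕ, meanAll (fun v => ((M⁻¹ : ℝ) : ℂ) * f (y v)) N -
      meanAll (fun v => (((M⁻¹ : ℝ) : ℂ) * f (x v) + ((M⁻¹ : ℝ) : ℂ) * f (z * x v)) / 2) N =
      ((M⁻¹ : ℝ) : ℂ) * (meanAll (fun v => f (y v)) N -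
        meanAll (fun v => (f (x v) + f (z * x v)) / 2) N) := by
  constructor
  · intro v hv
    obtain ⟨h, h1, h2⟩ := hy v hv
    refine ⟨fun hs => ?_, fun hs => ?_⟩
    · show ((M⁻¹ : ℝ) : ℂ) * f (y v) = ((M⁻¹ : ℝ) : ℂ) * f (x v)
      rw [h1 hs, hcl]
    · show ((M⁻¹ : ℝ) : ℂ) * f (y v) = ((M⁻¹ : ℝ) : ℂ) * f (z * x v)
      rw [h2 hs, hcl]
  · intro N
    rw [meanAll_smul, mul_sub, ← meanAll_smul ((M⁻¹ : ℝ) : ℂ) (fun v => (f (x v) + f (z * x v)) / 2)]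
    congr 2
    funext v
    ring

theorem norm_scaled_le {f : C(G, ℂ)} {M : ℝ} (hM : 0 < M) (hf : ∀ g, ‖f g‖ ≤ M) (g : G) :
    ‖((M⁻¹ : ℝ) : ℂ) * f g‖ ≤ 1 := by
  rw [norm_mul, Complex.norm_real, Real.norm_of_nonneg (by positivity), inv_mul_le_iff₀ hM, mul_one]
  exact hf g

variable (K) in
/-- **Few twists, at one scale.** -/
theorem fam_one (z : G) (𝓕 : Set C(G, ℂ)) (h𝓕 : IsCompact 𝓕)
    (hcl : ∀ f ∈ 𝓕, ∀ g h, f (h * g * h⁻¹) = f g) (A η : ℝ) (hA : 0 ≤ A) (hη : 0 < η) :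
    ∃ (C : ℝ) (N₀ : ℕ), ∀ N : ℕ, N₀ ≤ N → ∀ x : HeightOneSpectrum (𝓞 K) → G, ∃ E : Finset ℤ,
      (E.card : ℝ) ≤ C * Real.log N ^ ⌊A / 2⌋₊ ∧
      ∀ D : ℤ, Squarefree D → |(D : ℝ)| ≤ (N : ℝ) ^ A → D ∉ E → Good z 𝓕 η x D N := by
  classical
  obtain ⟨T, M, hM1, hT𝓕, hbd, hcov⟩ := net 𝓕 h𝓕 (show 0 < η / 4 by positivity)
  have hM0 : 0 < M := by linarith
  obtain ⟨C, N₀, hC, htw⟩ := twists K A (M⁻¹ * (η / 2)) hA (by positivity)
  refine ⟨T.card * C, N₀, fun N hN x => ?_⟩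
  set bad : C(G, ℂ) → Set ℤ := fun f => {D : ℤ | Squarefree D ∧ |(D : ℝ)| ≤ (N : ℝ) ^ A ∧
    ∃ y : HeightOneSpectrum (𝓞 K) → G, IsTwist z D x y ∧
      η / 2 < ‖meanAll (fun v => f (y v)) N - meanAll (fun v => (f (x v) + f (z * x v)) / 2) N‖}
    with hbad
  have hfin : ∀ f, (bad f).Finite := by
    intro f
    refine (Set.finite_Icc (-⌊(N : ℝ) ^ A⌋) ⌊(N : ℝ) ^ A⌋).subset fun D hD => ?_
    rw [Set.mem_Icc, ← abs_le, Int.le_floor]
    push_cast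
    exact hD.2.1
  have hcard : ∀ f ∈ T, (((hfin f).toFinset.card : ℕ) : ℝ) ≤ C * Real.log N ^ ⌊A / 2⌋₊ := by
    intro f hf
    refine htw N hN (fun v => ((M⁻¹ : ℝ) : ℂ) * f (x v)) (fun v => ((M⁻¹ : ℝ) : ℂ) * f (z * x v))
      (fun v => norm_scaled_le hM0 (hbd f (hT𝓕 f hf)) _)
      (fun v => norm_scaled_le hM0 (hbd f (hT𝓕 f hf)) _) _ fun D hD => ?_
    rw [Set.Finite.mem_toFinset] at hD
    obtain ⟨h1, h2, y, hy, h3⟩ := hD
    obtain ⟨h4, h5⟩ := scale_twist hM0 (η := η) (hcl f (hT𝓕 f hf)) hy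
    refine ⟨h1, h2, fun v => ((M⁻¹ : ℝ) : ℂ) * f (y v),
      fun v => norm_scaled_le hM0 (hbd f (hT𝓕 f hf)) _, h4, ?_⟩
    rw [h5 N, norm_mul, Complex.norm_real, Real.norm_of_nonneg (by positivity)]
    gcongr
  refine ⟨T.biUnion fun f => (hfin f).toFinset, ?_, fun D hD hDN hDE => ?_⟩
  · have h1 : ((T.biUnion fun f => (hfin f).toFinset).card : ℝ) ≤
        ∑ f ∈ T, (((hfin f).toFinset.card : ℕ) : ℝ) := by
      exact_mod_cast Finset.card_biUnion_le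
    refine h1.trans ((Finset.sum_le_card_nsmul _ _ _ hcard).trans ?_)
    rw [nsmul_eq_mul, mul_assoc]
  · refine good_of_net hη hcov z x D N fun y hy f hf => ?_
    by_contra hcon
    push Not at hcon
    apply hDE
    rw [Finset.mem_biUnion]
    exact ⟨f, hf, (hfin f).mem_toFinset.2 ⟨hD, hDN, y, hy, hcon⟩⟩

variable (K) in
/-- **Few twists, at all scales.** -/
theorem fam_all (z : G) (𝓕 : Set C(G, ℂ)) (h𝓕 : IsCompact 𝓕)
    (hcl : ∀ f ∈ 𝓕, ∀ g h, f (h * g * h⁻¹) = f g) (A B η : ℝ) (hA : 0 ≤ A) (hB : 0 ≤ B)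
    (hη : 0 < η) :
    ∃ C : ℝ, ∀ x : HeightOneSpectrum (𝓞 K) → G, ∃ E : Set ℤ,
      (∀ X : ℕ, 2 ≤ X →
        (({D : ℤ | D ∈ E ∧ |D| ≤ X}.ncard : ℕ) : ℝ) ≤ C * Real.log X ^ (⌊A / 2⌋₊ + 1)) ∧
      ∀ D : ℤ, Squarefree D → D ∉ E → ∀ N : ℕ, |(D : ℝ)| ≤ (N : ℝ) ^ A → (N : ℝ) ≤ |(D : ℝ)| ^ B →
        Good z 𝓕 η x D N := by
  classical
  obtain ⟨T, M, hM1, hT𝓕, hbd, hcov⟩ := net 𝓕 h𝓕 (show 0 < η / 4 by positivity)
  have hM0 : 0 < M := by linarith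
  obtain ⟨C, hC, hsc⟩ := scales K A B (M⁻¹ * (η / 2)) hA hB (by positivity)
  refine ⟨T.card * C, fun x => ?_⟩
  have hex : ∀ f : C(G, ℂ), ∃ E : Set ℤ, f ∈ T → ((∀ X : ℕ, 2 ≤ X →
      (({D : ℤ | D ∈ E ∧ |D| ≤ X}.ncard : ℕ) : ℝ) ≤ C * Real.log X ^ (⌊A / 2⌋₊ + 1)) ∧
      ∀ D : ℤ, Squarefree D → D ∉ E → ∀ y : HeightOneSpectrum (𝓞 K) → G, IsTwist z D x y →
        ∀ N : ℕ, |(D : ℝ)| ≤ (N : ℝ) ^ A → (N : ℝ) ≤ |(D : ℝ)| ^ B →
        ‖meanAll (fun v => f (y v)) N - meanAll (fun v => (f (x v) + f (z * x v)) / 2) N‖ ≤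
          η / 2) := by
    intro f
    by_cases hf : f ∈ T
    · obtain ⟨E, hE1, hE2⟩ := hsc (fun v => ((M⁻¹ : ℝ) : ℂ) * f (x v))
        (fun v => ((M⁻¹ : ℝ) : ℂ) * f (z * x v))
        (fun v => norm_scaled_le hM0 (hbd f (hT𝓕 f hf)) _)
        (fun v => norm_scaled_le hM0 (hbd f (hT𝓕 f hf)) _)
      refine ⟨E, fun _ => ⟨hE1, fun D hD hDE y hy N hN1 hN2 => ?_⟩⟩
      obtain ⟨h4, h5⟩ := scale_twist hM0 (η := η) (hcl f (hT𝓕 f hf)) hy
      have h6 := hE2 D hD hDE (fun v => ((M⁻¹ : ℝ) : ℂ) * f (y v))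
        (fun v => norm_scaled_le hM0 (hbd f (hT𝓕 f hf)) _) h4 N hN1 hN2
      rw [h5 N, norm_mul, Complex.norm_real, Real.norm_of_nonneg (by positivity)] at h6
      exact le_of_mul_le_mul_left h6 (by positivity)
    · exact ⟨∅, fun h => absurd h hf⟩
  choose Ef hEf using hex
  refine ⟨⋃ f ∈ T, Ef f, fun X hX => ?_, fun D hD hDE N hN1 hN2 => ?_⟩
  · have hIcc : ∀ S : Set ℤ, {D : ℤ | D ∈ S ∧ |D| ≤ X}.Finite := by
      intro S
      apply (Set.finite_Icc (-(X : ℤ)) X).subset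
      rintro D ⟨_, h3⟩
      exact abs_le.1 h3
    have hsub : {D : ℤ | D ∈ ⋃ f ∈ T, Ef f ∧ |D| ≤ X} ⊆
        ((T.biUnion fun f => (hIcc (Ef f)).toFinset : Finset ℤ) : Set ℤ) := by
      rintro D ⟨h1, h2⟩
      rw [Set.mem_iUnion₂] at h1
      obtain ⟨f, hf, h3⟩ := h1
      rw [Finset.mem_coe, Finset.mem_biUnion]
      exact ⟨f, hf, (Set.Finite.mem_toFinset _).2 ⟨h3, h2⟩⟩
    have h1 := Set.ncard_le_ncard hsub (Finset.finite_toSet _)
    rw [Set.ncard_coe_finset] at h1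
    have h2 : (({D : ℤ | D ∈ ⋃ f ∈ T, Ef f ∧ |D| ≤ X}.ncard : ℕ) : ℝ) ≤
        ∑ f ∈ T, (((hIcc (Ef f)).toFinset.card : ℕ) : ℝ) := by
      exact_mod_cast h1.trans Finset.card_biUnion_le
    refine h2.trans ((Finset.sum_le_card_nsmul _ _ (C * Real.log X ^ (⌊A / 2⌋₊ + 1))
      fun f hf => ?_).trans ?_)
    · rw [← Set.ncard_eq_toFinset_card _ (hIcc (Ef f))]
      exact (hEf f hf).1 X hX
    · rw [nsmul_eq_mul, mul_assoc]
  · refine good_of_net hη hcov z x D N fun y hy f hf => ?_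
    refine (hEf f hf).2 D hD (fun h => hDE ?_) y hy N hN1 hN2
    rw [Set.mem_iUnion₂]
    exact ⟨f, hf, h⟩

/-- uniformity in the Sato-Tate law -/
theorem unif [MeasurableSpace G] [BorelSpace G] (μ : Measure G) [IsProbabilityMeasure μ]
    [μ.IsHaarMeasure] (z : G) (hz : ∀ g, z * g = g * z) (𝓕 : Set C(G, ℂ)) (h𝓕 : IsCompact 𝓕)
    (hcl : ∀ f ∈ 𝓕, ∀ g h, f (h * g * h⁻¹) = f g) {η : ℝ} (hη : 0 < η)
    {x : HeightOneSpectrum (𝓞 K) → G} (hx : Equidistributed (fun _ => True) x μ) :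
    ∃ N₁ : ℕ, ∀ N : ℕ, N₁ ≤ N → ∀ f ∈ 𝓕,
      ‖meanAll (fun v => (f (x v) + f (z * x v)) / 2) N - ∫ g, f g ∂μ‖ ≤ η := by
  classical
  obtain ⟨T, M, hM1, hT𝓕, hbd, hcov⟩ := net 𝓕 h𝓕 (show 0 < η / 4 by positivity)
  have hinv : ∀ f : C(G, ℂ), ∫ g, f (z * g) ∂μ = ∫ g, f g ∂μ := fun f =>
    integral_mul_left_eq_self (fun g => f g) z
  have hlim : ∀ f ∈ T, ∀ᶠ N in atTop,
      ‖meanAll (fun v => (f (x v) + f (z * x v)) / 2) N - ∫ g, f g ∂μ‖ ≤ η / 2 := by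
    intro f hf
    have hf𝓕 := hT𝓕 f hf
    have h1 := hx (fun g => f g) f.continuous (hcl f hf𝓕)
    have h2 := hx (fun g => f (z * g)) (f.continuous.comp (continuous_const_mul z)) (by
      intro g k
      have e : z * (k * g * k⁻¹) = k * (z * g) * k⁻¹ := by
        rw [← mul_assoc, ← mul_assoc, hz k, mul_assoc k z g]
      show f (z * (k * g * k⁻¹)) = f (z * g)
      rw [e, hcl f hf𝓕])
    rw [hinv f] at h2
    have h3 := (h1.add h2).div_const 2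
    have e : (∫ g, f g ∂μ + ∫ g, f g ∂μ) / 2 = ∫ g, f g ∂μ := by ring
    rw [e] at h3
    have h4 := (Metric.tendsto_nhds.1 h3) (η / 2) (by positivity)
    filter_upwards [h4] with N hN
    rw [dist_eq_norm] at hN
    refine le_trans (le_of_eq ?_) hN.le
    congr 2
    show meanAll (fun v => (f (x v) + f (z * x v)) / 2) N =
      (meanAll (fun v => f (x v)) N + meanAll (fun v => f (z * x v)) N) / 2
    rw [meanAll_eq, meanAll_eq, meanAll_eq, ← Finset.sum_div, Finset.sum_add_distrib]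
    ring
  have hlim2 := (T.eventually_all).2 fun f hf => hlim f hf
  obtain ⟨N₁, hN₁⟩ := eventually_atTop.1 hlim2
  refine ⟨N₁, fun N hN f hf => ?_⟩
  obtain ⟨f', hf', h1⟩ := hcov f hf
  have h4 := hN₁ N hN f' hf'
  have h3 : ‖meanAll (fun v => (f (x v) + f (z * x v)) / 2) N -
      meanAll (fun v => (f' (x v) + f' (z * x v)) / 2) N‖ ≤ η / 4 :=
    mean_le (by positivity) (fun v => even_le h1 z x v) N
  have h5 : ‖∫ g, f' g ∂μ - ∫ g, f g ∂μ‖ ≤ η / 4 := by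
    have hi : ∀ f : C(G, ℂ), Integrable (fun g => f g) μ := by
      intro f
      exact f.continuous.integrable_of_hasCompactSupport
        (HasCompactSupport.of_compactSpace _)
    rw [← integral_sub (hi f') (hi f)]
    have h6 := norm_integral_le_of_norm_le_const (μ := μ) (f := fun g => f' g - f g)
      (C := η / 4) (Eventually.of_forall fun g => by
        rw [← norm_neg, neg_sub]
        exact h1 g)
    simpa using h6
  have e : meanAll (fun v => (f (x v) + f (z * x v)) / 2) N - ∫ g, f g ∂μ =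
      (meanAll (fun v => (f (x v) + f (z * x v)) / 2) N -
        meanAll (fun v => (f' (x v) + f' (z * x v)) / 2) N) +
      (meanAll (fun v => (f' (x v) + f' (z * x v)) / 2) N - ∫ g, f' g ∂μ) +
      (∫ g, f' g ∂μ - ∫ g, f g ∂μ) := by ring
  rw [e]
  refine norm_add₃_le.trans ?_
  linarith

end

end Pool.Agent.H419.LC
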