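import Mathlib
import Pool.Agent.H419.LC.Mod

/-! Few irregular moduli. -/

set_option autoImplicit false

namespace Pool.Agent.H419.LC

open NumberField IsDedekindDomain Filter Topology Finset MeasureTheory ComplexConjugate
open Pool.Agent.W540.BE (upto nm mem_upto nf fiber_finite fiber_card norm_nf_le sum_nf two_le_nm)
open Pool.Agent.H419.BS (pr card_pr pnt U U_le U_atTop mean mean_eq meanAll meanAll_eq q)

variable {K : Type} [Field K] [NumberField K]

/-- the sum over the primes of `K` in a class -/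
noncomputable def FT (h : HeightOneSpectrum (𝓞 K) → ℂ) (N m : ℕ) (c : ZMod m) : ℂ :=
  open Classical in ∑ v ∈ (upto K N).filter (fun v => (nm K v : ZMod m) = c), h v

theorem FT_near {h : HeightOneSpectrum (𝓞 K) → ℂ} (hh : ∀ v, ‖h v‖ ≤ 1) (N m : ℕ) (c : ZMod m) :
    ‖FT h N m c - T (nf h) N m c‖ ≤ Module.finrank ℚ K * (Nat.sqrt N + 1) := by
  classical
  have h1 := splitφ hh N (φ := fun n => if (n : ZMod m) = c then 1 else 0)
    (fun n => by split_ifs <;> simp)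
  have e1 : ∑ v ∈ upto K N, h v * (if (nm K v : ZMod m) = c then 1 else 0) = FT h N m c := by
    rw [FT, Finset.sum_filter]
    refine Finset.sum_congr rfl fun v _ => ?_
    split_ifs <;> simp
  have e2 : ∑ n ∈ pr N, nf h n * (if (n : ZMod m) = c then 1 else 0) = T (nf h) N m c := by
    rw [T, Finset.sum_filter]
    refine Finset.sum_congr rfl fun v _ => ?_
    split_ifs <;> simp
  rw [e1, e2] at h1
  exact h1

theorem T0_eq (a : ℕ → ℂ) (N m : ℕ) [NeZero m] :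
    T0 a N m = ∑ n ∈ pr N, a n * (1 : DirichletCharacter ℂ m) (n : ZMod m) := by
  rw [← char_T, sum_units m _ (fun a ha => by rw [MulChar.map_nonunit _ ha, zero_mul]), T0]
  refine Finset.sum_congr rfl fun c _ => ?_
  rw [MulChar.one_apply c.isUnit, one_mul]

theorem T0_near {h : HeightOneSpectrum (𝓞 K) → ℂ} (hh : ∀ v, ‖h v‖ ≤ 1) (N m : ℕ) [NeZero m]
    (hm : m ≤ Nat.sqrt N + 1) :
    ‖∑ v ∈ upto K N, h v - T0 (nf h) N m‖ ≤ 2 * (Module.finrank ℚ K * (Nat.sqrt N + 1)) := by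
  classical
  have h1 := splitφ hh N (φ := fun _ => 1) (fun n => by simp)
  simp only [mul_one] at h1
  have h2 : ‖∑ n ∈ pr N, nf h n - T0 (nf h) N m‖ ≤ Module.finrank ℚ K * (Nat.sqrt N + 1) := by
    rw [T0_eq, ← Finset.sum_sub_distrib]
    have h3 : ∀ n ∈ pr N, ‖nf h n - nf h n * (1 : DirichletCharacter ℂ m) (n : ZMod m)‖ ≤
        if n ∣ m then (Module.finrank ℚ K : ℝ) else 0 := by
      intro n hn
      rw [pr, Finset.mem_filter] at hn
      by_cases hco : n.Coprime m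
      · rw [MulChar.one_apply ((ZMod.isUnit_iff_coprime n m).2 hco), mul_one, sub_self, norm_zero]
        split_ifs <;> positivity
      · have hdvd : n ∣ m := by
          by_contra hcon
          exact hco ((Nat.Prime.coprime_iff_not_dvd hn.2).2 hcon)
        rw [if_pos hdvd, MulChar.map_nonunit _ (fun h => hco ((ZMod.isUnit_iff_coprime n m).1 h)),
          mul_zero, sub_zero]
        simpa using norm_nf_le (B := 1) hh n
    refine (norm_sum_le _ _).trans ((Finset.sum_le_sum h3).trans ?_)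
    rw [← Finset.sum_filter, Finset.sum_const, nsmul_eq_mul, mul_comm]
    have h4 : (((pr N).filter (fun n => n ∣ m)).card : ℝ) ≤ (Nat.sqrt N : ℝ) + 1 := by
      have h5 : ((pr N).filter (fun n => n ∣ m)).card ≤ m := by
        calc ((pr N).filter (fun n => n ∣ m)).card ≤ (Icc 1 m).card := by
              refine Finset.card_le_card fun n hn => ?_
              rw [Finset.mem_filter, pr, Finset.mem_filter] at hn
              rw [Finset.mem_Icc]
              exact ⟨hn.1.2.one_lt.le, Nat.le_of_dvd (NeZero.pos m) hn.2⟩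
          _ = m := by simp
      exact_mod_cast h5.trans hm
    gcongr
  calc ‖∑ v ∈ upto K N, h v - T0 (nf h) N m‖
      = ‖(∑ v ∈ upto K N, h v - ∑ n ∈ pr N, nf h n) + (∑ n ∈ pr N, nf h n - T0 (nf h) N m)‖ := by
        congr 1; ring
    _ ≤ _ := (norm_add_le _ _).trans (by linarith)

theorem card_all (N : ℕ) :
    (Nat.card {v : HeightOneSpectrum (𝓞 K) // q v ≤ N} : ℝ) = U K N := by
  have hs : ∀ v, v ∈ upto K N ↔ q v ≤ N := fun v => mem_upto
  let e : {v : HeightOneSpectrum (𝓞 K) // q v ≤ N} ≃ (upto K N) :=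
    Equiv.subtypeEquivRight fun v => (hs v).symm
  rw [U, Nat.card_congr e, Nat.card_eq_fintype_card, Fintype.card_coe]

open Classical in
theorem card_class (N m : ℕ) (c : ZMod m) :
    (Nat.card {v : HeightOneSpectrum (𝓞 K) // (q v : ZMod m) = c ∧ q v ≤ N} : ℝ) =
      (((upto K N).filter (fun v => (nm K v : ZMod m) = c)).card : ℝ) := by
  have hs : ∀ v, v ∈ (upto K N).filter (fun v => (nm K v : ZMod m) = c) ↔
      (q v : ZMod m) = c ∧ q v ≤ N := by
    intro v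
    rw [Finset.mem_filter, mem_upto, and_comm]
    rfl
  let e : {v : HeightOneSpectrum (𝓞 K) // (q v : ZMod m) = c ∧ q v ≤ N} ≃
      ((upto K N).filter (fun v => (nm K v : ZMod m) = c)) :=
    Equiv.subtypeEquivRight fun v => (hs v).symm
  rw [Nat.card_congr e, Nat.card_eq_fintype_card, Fintype.card_coe]

theorem ratio_near {u φ : ℝ} (hu : 0 < u) (hφ : 0 < φ) {S F : ℂ} {n δ : ℝ} (hS : ‖S‖ ≤ u)
    (hn : |n - u / φ| ≤ 8 * δ * (u / φ)) (hF : ‖F - S / (φ : ℂ)‖ ≤ 8 * δ * (u / φ))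
    (hδ0 : 0 ≤ δ) (hδ : δ ≤ 1 / 16) : ‖F / (n : ℂ) - S / (u : ℂ)‖ ≤ 32 * δ := by
  have hw : 0 < u / φ := by positivity
  have hn2 : u / φ / 2 ≤ n := by
    have h1 := (abs_le.1 hn).1
    have h2 : 8 * δ * (u / φ) ≤ 8 * (1 / 16) * (u / φ) := by gcongr
    linarith
  have hn0 : 0 < n := by linarith
  have hnc : (n : ℂ) ≠ 0 := by exact_mod_cast hn0.ne'
  have huc : (u : ℂ) ≠ 0 := by exact_mod_cast hu.ne'
  have hφc : (φ : ℂ) ≠ 0 := by exact_mod_cast hφ.ne'
  have e : F / (n : ℂ) - S / (u : ℂ) = (F - S / (φ : ℂ)) / (n : ℂ) -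
      (S / (u : ℂ)) * (((n - u / φ : ℝ) : ℂ) / (n : ℂ)) := by
    push_cast
    field_simp
    ring
  rw [e]
  have h1 : ‖(F - S / (φ : ℂ)) / (n : ℂ)‖ ≤ 16 * δ := by
    rw [norm_div, Complex.norm_real, Real.norm_of_nonneg hn0.le, div_le_iff₀ hn0]
    refine hF.trans ?_
    calc 8 * δ * (u / φ) = 16 * δ * (u / φ / 2) := by ring
      _ ≤ 16 * δ * n := by gcongr
  have h2 : ‖((n - u / φ : ℝ) : ℂ) / (n : ℂ)‖ ≤ 16 * δ := by
    rw [norm_div, Complex.norm_real, Complex.norm_real, Real.norm_of_nonneg hn0.le,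
      div_le_iff₀ hn0, Real.norm_eq_abs]
    refine hn.trans ?_
    calc 8 * δ * (u / φ) = 16 * δ * (u / φ / 2) := by ring
      _ ≤ 16 * δ * n := by gcongr
  have h3 : ‖S / (u : ℂ)‖ ≤ 1 := by
    rw [norm_div, Complex.norm_real, Real.norm_of_nonneg hu.le, div_le_one hu]
    exact hS
  refine (norm_sub_le _ _).trans ?_
  rw [norm_mul]
  have h4 : ‖S / (u : ℂ)‖ * ‖((n - u / φ : ℝ) : ℂ) / (n : ℂ)‖ ≤ 1 * (16 * δ) := by gcongr
  linarith

theorem regular_of {g : HeightOneSpectrum (𝓞 K) → ℂ} (hg : ∀ v, ‖g v‖ ≤ 1) {η δ ε : ℝ}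
    (hδ0 : 0 < δ) (hδη : 32 * δ ≤ η) (hδ1 : δ ≤ 1 / 16) {N m : ℕ} [NeZero m] (hε : 0 < ε)
    (hN : 2 ≤ N) (hm : (m : ℝ) ≤ (N : ℝ) ^ (1 / 2 - ε)) (hL : 1 ≤ Real.log N)
    (hs : (Module.finrank ℚ K : ℝ) * ((Nat.sqrt N : ℝ) + 1) ≤
      δ * ((N : ℝ) ^ (1 / 2 + ε) / Real.log N))
    (hU : (N : ℝ) / Real.log N / 2 ≤ U K N)
    (h1 : Var (nf g) N m ≤ δ ^ 3 * ((N : ℝ) / Real.log N) ^ 2)
    (h2 : Var (nf (fun _ : HeightOneSpectrum (𝓞 K) => (1 : ℂ))) N m ≤
      δ ^ 3 * ((N : ℝ) / Real.log N) ^ 2) : Regular g η N m := by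
  classical
  have hN0 : (0 : ℝ) < N := by exact_mod_cast (by omega : 0 < N)
  have hN1 : (1 : ℝ) ≤ N := by exact_mod_cast (by omega : 1 ≤ N)
  have hL0 : 0 < Real.log N := by linarith
  set X : ℝ := (N : ℝ) / Real.log N with hX
  have hX0 : 0 < X := by positivity
  set φ : ℝ := (Nat.totient m : ℝ) with hφ
  have hφ0 : 0 < φ := by rw [hφ]; exact_mod_cast Nat.totient_pos.2 (NeZero.pos m)
  have hφ1 : 1 ≤ φ := by rw [hφ]; exact_mod_cast Nat.totient_pos.2 (NeZero.pos m)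
  have hφm : φ ≤ m := by rw [hφ]; exact_mod_cast Nat.totient_le m
  set s : ℝ := (Module.finrank ℚ K : ℝ) * ((Nat.sqrt N : ℝ) + 1) with hsdef
  have hs0 : 0 ≤ s := by positivity
  -- s is small
  have hsX : s ≤ δ * X / φ := by
    refine hs.trans ?_
    rw [mul_div_assoc]
    refine mul_le_mul_of_nonneg_left ?_ hδ0.le
    rw [hX, div_div, div_le_div_iff₀ hL0 (by positivity)]
    calc (N : ℝ) ^ (1 / 2 + ε) * (Real.log N * φ)
        ≤ (N : ℝ) ^ (1 / 2 + ε) * (Real.log N * (N : ℝ) ^ (1 / 2 - ε)) := by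
          have := hφm.trans hm
          gcongr
      _ = ((N : ℝ) ^ (1 / 2 + ε) * (N : ℝ) ^ (1 / 2 - ε)) * Real.log N := by ring
      _ = (N : ℝ) * Real.log N := by
          rw [← Real.rpow_add hN0, show (1 / 2 + ε) + (1 / 2 - ε) = (1 : ℝ) by ring, Real.rpow_one]
  have hmsq : m ≤ Nat.sqrt N + 1 := by
    have h3 : (m : ℝ) ≤ √(N : ℝ) := by
      refine hm.trans ?_
      rw [Real.sqrt_eq_rpow]
      exact Real.rpow_le_rpow_of_exponent_le hN1 (by linarith)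
    have h4 : √(N : ℝ) ≤ (Nat.sqrt N : ℝ) + 1 := Real.real_sqrt_le_nat_sqrt_succ
    exact_mod_cast h3.trans h4
  -- the exceptional classes
  have key : ∀ h : HeightOneSpectrum (𝓞 K) → ℂ, (∀ v, ‖h v‖ ≤ 1) →
      Var (nf h) N m ≤ δ ^ 3 * X ^ 2 → ∃ B : Finset (ZMod m)ˣ, (B.card : ℝ) ≤ δ * φ ∧
      ∀ c ∉ B, ‖FT h N m (c : ZMod m) - (∑ v ∈ upto K N, h v) / (φ : ℂ)‖ ≤ 4 * δ * X / φ := by
    intro h hh hvar
    set B : Finset (ZMod m)ˣ := univ.filter (fun c => δ * X / φ <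
      ‖T (nf h) N m (c : ZMod m) - T0 (nf h) N m / (Nat.totient m : ℂ)‖) with hB
    refine ⟨B, ?_, fun c hc => ?_⟩
    · have h3 : (B.card : ℝ) * (δ * X / φ) ^ 2 ≤
          ∑ c : (ZMod m)ˣ, ‖T (nf h) N m (c : ZMod m) - T0 (nf h) N m / (Nat.totient m : ℂ)‖ ^ 2 := by
        rw [← nsmul_eq_mul]
        refine (Finset.card_nsmul_le_sum B _ _ fun c hc => ?_).trans
          (Finset.sum_le_sum_of_subset_of_nonneg (Finset.subset_univ B) fun _ _ _ => by positivity)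
        rw [hB, Finset.mem_filter] at hc
        have := hc.2.le
        gcongr
      have h4 : φ * ((B.card : ℝ) * (δ * X / φ) ^ 2) ≤ δ ^ 3 * X ^ 2 := by
        refine le_trans ?_ hvar
        rw [Var]
        gcongr
      have h5 : φ * ((B.card : ℝ) * (δ * X / φ) ^ 2) = (B.card : ℝ) * (δ ^ 2 * X ^ 2) / φ := by
        field_simp
      rw [h5, div_le_iff₀ hφ0] at h4
      have h6 : (B.card : ℝ) * (δ ^ 2 * X ^ 2) ≤ (δ * φ) * (δ ^ 2 * X ^ 2) := by
        calc _ ≤ δ ^ 3 * X ^ 2 * φ := h4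
          _ = _ := by ring
      exact le_of_mul_le_mul_right h6 (by positivity)
    · have h3 : ‖T (nf h) N m (c : ZMod m) - T0 (nf h) N m / (Nat.totient m : ℂ)‖ ≤ δ * X / φ := by
        by_contra hcon
        exact hc (by rw [hB, Finset.mem_filter]; exact ⟨Finset.mem_univ _, not_le.1 hcon⟩)
      have h4 := FT_near hh N m (c : ZMod m)
      have h5 := T0_near hh N m hmsq
      rw [← hsdef] at h4 h5
      have h6 : ‖(∑ v ∈ upto K N, h v - T0 (nf h) N m) / (φ : ℂ)‖ ≤ 2 * s := by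
        rw [norm_div, Complex.norm_real, Real.norm_of_nonneg hφ0.le, div_le_iff₀ hφ0]
        have : 2 * s * 1 ≤ 2 * s * φ := by gcongr
        linarith
      have e : FT h N m (c : ZMod m) - (∑ v ∈ upto K N, h v) / (φ : ℂ) =
          (FT h N m (c : ZMod m) - T (nf h) N m (c : ZMod m)) +
          (T (nf h) N m (c : ZMod m) - T0 (nf h) N m / (Nat.totient m : ℂ)) -
          (∑ v ∈ upto K N, h v - T0 (nf h) N m) / (φ : ℂ) := by
        rw [hφ, Complex.ofReal_natCast]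
        ring
      rw [e]
      refine (norm_sub_le _ _).trans ((add_le_add (norm_add_le _ _) le_rfl).trans ?_)
      have h7 : 4 * δ * X / φ = 4 * (δ * X / φ) := by ring
      rw [h7]
      linarith
  obtain ⟨B1, hB1, hB1'⟩ := key g hg h1
  obtain ⟨B2, hB2, hB2'⟩ := key (fun _ => 1) (fun v => by simp) h2
  rw [Regular] 
  have hcardall : (Nat.card {v : HeightOneSpectrum (𝓞 K) // q v ≤ N} : ℝ) = U K N := card_all N
  have hUle : ‖∑ v ∈ upto K N, g v‖ ≤ U K N := by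
    rw [U]
    refine (norm_sum_le _ _).trans ((Finset.sum_le_card_nsmul _ _ 1 fun v _ => hg v).trans ?_)
    rw [nsmul_eq_mul, mul_one]
  have hU0 : 0 < U K N := by
    have : 0 < X / 2 := by positivity
    linarith
  have hXU : 4 * δ * X / φ ≤ 8 * δ * (U K N / φ) := by
    rw [show 8 * δ * (U K N / φ) = 8 * δ * U K N / φ by ring]
    have : 4 * δ * X ≤ 8 * δ * U K N := by
      have h3 : X ≤ 2 * U K N := by linarith
      calc 4 * δ * X ≤ 4 * δ * (2 * U K N) := by gcongr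
        _ = _ := by ring
    gcongr
  refine ⟨B1 ∪ B2, ?_, fun c hc => ?_⟩
  · have h3 : ((B1 ∪ B2).card : ℝ) ≤ (B1.card : ℝ) + B2.card := by
      exact_mod_cast Finset.card_union_le B1 B2
    have h4 : 2 * δ * φ ≤ η * φ := by
      have : 2 * δ ≤ η := by linarith
      gcongr
    linarith
  · rw [Finset.mem_union, not_or] at hc
    have hF := (hB1' c hc.1).trans hXU
    have hn := (hB2' c hc.2).trans hXU
    have hcc : (Nat.card {v : HeightOneSpectrum (𝓞 K) // (q v : ZMod m) = c ∧ q v ≤ N} : ℝ) =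
        (((upto K N).filter (fun v => (nm K v : ZMod m) = c)).card : ℝ) := card_class N m c
    have hn' : |(((upto K N).filter (fun v => (nm K v : ZMod m) = (c : ZMod m))).card : ℝ) -
        U K N / φ| ≤ 8 * δ * (U K N / φ) := by
      have e : FT (fun _ : HeightOneSpectrum (𝓞 K) => (1 : ℂ)) N m (c : ZMod m) -
          (∑ v ∈ upto K N, (1 : ℂ)) / (φ : ℂ) =
          (((((upto K N).filter (fun v => (nm K v : ZMod m) = (c : ZMod m))).card : ℝ) -
          U K N / φ : ℝ) : ℂ) := by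
        rw [FT, U]
        push_cast
        simp
      rw [e, Complex.norm_real] at hn
      exact hn
    constructor
    · rw [hcc, hcardall]
      refine hn'.trans ?_
      have : 8 * δ ≤ η := by linarith
      gcongr
    · rw [meanAll_eq, mean_eq]
      have h5 := ratio_near hU0 hφ0 (S := ∑ v ∈ upto K N, g v) hUle hn' hF hδ0.le hδ1
      refine le_trans (le_of_eq ?_) (h5.trans hδη)
      rw [FT]
      congr 2
      push_cast
      congr 1
      · refine Finset.sum_congr ?_ fun _ _ => rfl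
        ext v
        simp only [Finset.mem_filter]
        exact Iff.rfl
      · refine congrArg (fun s : Finset (HeightOneSpectrum (𝓞 K)) => (s.card : ℂ)) ?_
        ext v
        simp only [Finset.mem_filter]
        exact Iff.rfl

theorem nf_le_d {g : HeightOneSpectrum (𝓞 K) → ℂ} (hg : ∀ v, ‖g v‖ ≤ 1) (n : ℕ) :
    ‖nf g n‖ ≤ (Module.finrank ℚ K : ℝ) := by
  simpa using norm_nf_le (B := 1) hg n

/-- **Few moduli are irregular.** -/
theorem moduli (K : Type) [Field K] [NumberField K] (η ε : ℝ) (hη : 0 < η) (hε : 0 < ε) :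
    ∃ (C N₀ : ℕ), ∀ N : ℕ, N₀ ≤ N → ∀ g : HeightOneSpectrum (𝓞 K) → ℂ, (∀ v, ‖g v‖ ≤ 1) →
    ∀ 𝒬 : Finset ℕ, (∀ m ∈ 𝒬, m ≠ 0 ∧ (m : ℝ) ≤ (N : ℝ) ^ (1 / 2 - ε) ∧ ¬ Regular g η N m) →
    (∀ m ∈ 𝒬, ∀ m' ∈ 𝒬, m ≠ m' → m.Coprime m') → 𝒬.card ≤ C := by
  classical
  -- reduce to `ε ≤ 1/2`
  obtain ⟨ε', hε'0, hε'1, hε'⟩ : ∃ ε' : ℝ, 0 < ε' ∧ ε' ≤ 1 / 2 ∧ ε' ≤ ε :=
    ⟨min ε (1 / 2), by positivity, min_le_right _ _, min_le_left _ _⟩
  set δ : ℝ := min (η / 32) (1 / 16) with hδ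
  have hδ0 : 0 < δ := by positivity
  have hδη : 32 * δ ≤ η := by
    have := min_le_left (η / 32) (1 / 16)
    linarith
  have hδ1 : δ ≤ 1 / 16 := min_le_right _ _
  have hd : (0 : ℝ) < Module.finrank ℚ K := by exact_mod_cast Module.finrank_pos
  obtain ⟨C₀, hC₀, hvar⟩ := var_le ε' (Module.finrank ℚ K) hε'0 hε'1 hd
  obtain ⟨C, hC⟩ := exists_nat_gt (2 * C₀ / δ ^ 3)
  obtain ⟨N₁, hN₁⟩ := hvar (C + 1)
  have hs : ∀ᶠ N : ℕ in atTop, (Module.finrank ℚ K : ℝ) * ((Nat.sqrt N : ℝ) + 1) ≤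
      δ * ((N : ℝ) ^ (1 / 2 + ε') / Real.log N) :=
    small_ev _ ε' δ hd hε'0 hδ0
  have hU : ∀ᶠ N : ℕ in atTop, (N : ℝ) / Real.log N / 2 ≤ U K N :=
    (U_bounds (K := K)).mono fun N hN => hN.1
  have hL : ∀ᶠ N : ℕ in atTop, 1 ≤ Real.log N :=
    (Real.tendsto_log_atTop.comp tendsto_natCast_atTop_atTop).eventually_ge_atTop 1
  obtain ⟨N₂, hN₂⟩ := eventually_atTop.1 (hs.and (hU.and hL))
  refine ⟨C, max (max N₁ N₂) 2, fun N hN g hg 𝒬 h𝒬 hco => ?_⟩
  have hNN1 : N₁ ≤ N := ((le_max_left _ _).trans (le_max_left _ _)).trans hN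
  have hNN2 : N₂ ≤ N := ((le_max_right _ _).trans (le_max_left _ _)).trans hN
  have hN2 : 2 ≤ N := (le_max_right _ _).trans hN
  obtain ⟨hsN, hUN, hLN⟩ := hN₂ N hNN2
  have hN1' : (1 : ℝ) ≤ N := by exact_mod_cast (by omega : 1 ≤ N)
  by_contra hcon
  obtain ⟨𝒬', hsub, hcard⟩ := Finset.exists_subset_card_eq (show C + 1 ≤ 𝒬.card by omega)
  have h0 : ∀ m ∈ 𝒬', m ≠ 0 := fun m hm => (h𝒬 m (hsub hm)).1
  have hle : ∀ m ∈ 𝒬', (m : ℝ) ≤ (N : ℝ) ^ (1 / 2 - ε') := fun m hm =>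
    (h𝒬 m (hsub hm)).2.1.trans (Real.rpow_le_rpow_of_exponent_le hN1' (by linarith))
  have hco' : ∀ m ∈ 𝒬', ∀ m' ∈ 𝒬', m ≠ m' → m.Coprime m' :=
    fun m hm m' hm' h => hco m (hsub hm) m' (hsub hm') h
  have hLpos : 0 < Real.log N := by linarith
  have hX0 : 0 < ((N : ℝ) / Real.log N) ^ 2 := by
    have : (0 : ℝ) < N := by linarith
    positivity
  have hg1 := hN₁ N hNN1 𝒬' hcard.le h0 hle hco' (nf g) (nf_le_d hg)
  have h11 := hN₁ N hNN1 𝒬' hcard.le h0 hle hco' (nf (fun _ : HeightOneSpectrum (𝓞 K) => (1 : ℂ)))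
    (nf_le_d (fun v => by simp))
  have hsum := add_le_add hg1 h11
  rw [← Finset.sum_add_distrib] at hsum
  -- one modulus with a small variance
  obtain ⟨m, hm, hlt⟩ : ∃ m ∈ 𝒬'.attach, (haveI : NeZero m.1 := ⟨h0 m.1 m.2⟩; Var (nf g) N m.1) +
      (haveI : NeZero m.1 := ⟨h0 m.1 m.2⟩;
        Var (nf (fun _ : HeightOneSpectrum (𝓞 K) => (1 : ℂ))) N m.1) ≤
      δ ^ 3 * ((N : ℝ) / Real.log N) ^ 2 := by
    by_contra hcon2
    push Not at hcon2
    have h3 : ((C : ℝ) + 1) * (δ ^ 3 * ((N : ℝ) / Real.log N) ^ 2) ≤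
        C₀ * ((N : ℝ) / Real.log N) ^ 2 + C₀ * ((N : ℝ) / Real.log N) ^ 2 := by
      refine le_trans ?_ hsum
      have h4 := Finset.card_nsmul_le_sum 𝒬'.attach _ _ fun m hm => (hcon2 m hm).le
      rw [Finset.card_attach, hcard, nsmul_eq_mul] at h4
      push_cast at h4
      exact h4
    have h5 : 2 * C₀ < C * δ ^ 3 := by
      rwa [div_lt_iff₀ (by positivity)] at hC
    have h6 : 2 * C₀ * ((N : ℝ) / Real.log N) ^ 2 < (C * δ ^ 3) * ((N : ℝ) / Real.log N) ^ 2 := by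
      gcongr
    have h7 : 0 < δ ^ 3 * ((N : ℝ) / Real.log N) ^ 2 := by positivity
    nlinarith
  have hm0 : m.1 ≠ 0 := h0 m.1 m.2
  have : NeZero m.1 := ⟨hm0⟩
  have hv1 : 0 ≤ Var (nf g) N m.1 := by rw [Var]; positivity
  have hv2 : 0 ≤ Var (nf (fun _ : HeightOneSpectrum (𝓞 K) => (1 : ℂ))) N m.1 := by
    rw [Var]; positivity
  exact (h𝒬 m.1 (hsub m.2)).2.2 (regular_of hg hδ0 hδη hδ1 hε'0 hN2 (hle m.1 m.2) hLN hsN hUN
    (by linarith) (by linarith))

end Pool.Agent.H419.LC
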