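import Mathlib
import Pool.Agent.H419.LC.Moduli
import Pool.Agent.H419.LC.Bur

/-! The exponent `1 / 2` is optimal. -/

set_option autoImplicit false

namespace Pool.Agent.H419.LC

open NumberField IsDedekindDomain Filter Topology Finset ComplexConjugate
open Pool.Agent.W540.BE (upto nm mem_upto)
open Pool.Agent.H419.BS (pr card_pr pnt U mean mean_eq meanAll meanAll_eq q)

/-- `exp (2 π i t)` as an element of the circle -/
noncomputable def cx (t : ℝ) : ℂ := Complex.exp (2 * Real.pi * Complex.I * t)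

theorem cx_add (s t : ℝ) : cx (s + t) = cx s * cx t := by
  rw [cx, cx, cx, ← Complex.exp_add]
  congr 1
  push_cast
  ring

theorem norm_cx (t : ℝ) : ‖cx t‖ = 1 := by
  rw [cx, show 2 * (Real.pi : ℂ) * Complex.I * (t : ℂ) = ((2 * Real.pi * t : ℝ) : ℂ) * Complex.I by
    push_cast; ring]
  exact Complex.norm_exp_ofReal_mul_I _

theorem cx_int (n : ℤ) : cx n = 1 := by
  rw [cx, show 2 * (Real.pi : ℂ) * Complex.I * ((n : ℝ) : ℂ) = n * (2 * Real.pi * Complex.I) by
    push_cast; ring]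
  exact Complex.exp_int_mul_two_pi_mul_I n

theorem cx_sub_le (s t : ℝ) : ‖cx s - cx t‖ ≤ 7 * |s - t| := by
  have h1 : cx s - cx t = cx t * (cx (s - t) - 1) := by
    rw [mul_sub, ← cx_add, mul_one]
    congr 2
    ring
  rw [h1, norm_mul, norm_cx, one_mul]
  have h2 : cx (s - t) = Complex.exp (Complex.I * ((2 * Real.pi * (s - t) : ℝ) : ℂ)) := by
    rw [cx]
    congr 1
    push_cast
    ring
  rw [h2]
  have h3 := Real.norm_exp_I_mul_ofReal_sub_one_le (x := 2 * Real.pi * (s - t))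
  refine h3.trans ?_
  rw [Real.norm_eq_abs, abs_mul, abs_of_pos (by positivity)]
  have := Real.pi_lt_d2
  have h4 : 0 ≤ |s - t| := abs_nonneg _
  nlinarith

/-- the value at a class -/
noncomputable def cls (p : ℕ) (a : ℕ) (c : (ZMod p)ˣ) : ℂ := cx ((a * (c : ZMod p).val : ℕ) / (p : ℝ))

theorem cx_congr {p : ℕ} (hp : 0 < p) {m n : ℕ} (h : (m : ZMod p) = n) :
    cx ((m : ℝ) / p) = cx ((n : ℝ) / p) := by
  rw [ZMod.natCast_eq_natCast_iff] at h
  obtain ⟨k, hk⟩ := h.dvd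
  have hp' : (p : ℝ) ≠ 0 := by exact_mod_cast hp.ne'
  have h1 : (n : ℝ) / p = (m : ℝ) / p + (k : ℤ) := by
    have h2 : ((n : ℤ) : ℝ) - ((m : ℤ) : ℝ) = (p : ℝ) * k := by exact_mod_cast hk
    push_cast at h2
    field_simp
    linarith
  rw [h1, cx_add, cx_int, mul_one]

theorem cls_eq {p : ℕ} [Fact p.Prime] (a : ℕ) (c : (ZMod p)ˣ) :
    cls p a c = ZMod.stdAddChar ((c : ZMod p) * (a : ZMod p)) := by
  have hp0 : (p : ℝ) ≠ 0 := by exact_mod_cast (Fact.out : p.Prime).ne_zero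
  have h1 : (c : ZMod p) * (a : ZMod p) = (((a * (c : ZMod p).val : ℕ) : ℤ) : ZMod p) := by
    push_cast
    rw [ZMod.natCast_zmod_val, mul_comm]
  rw [h1, ZMod.stdAddChar_coe, cls, cx]
  congr 1
  push_cast
  ring

theorem sum_cls {p : ℕ} [Fact p.Prime] {a : ℕ} (ha : ¬ p ∣ a) :
    ∑ c : (ZMod p)ˣ, cls p a c = -1 := by
  classical
  have ha0 : (a : ZMod p) ≠ 0 := fun h => ha ((ZMod.natCast_eq_zero_iff a p).1 h)
  have h1 := AddChar.sum_mulShift (a : ZMod p) (ZMod.isPrimitive_stdAddChar p)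
  rw [if_neg ha0] at h1
  have h2 : ∑ x : ZMod p, (if IsUnit x then ZMod.stdAddChar (x * (a : ZMod p)) else (0 : ℂ)) =
      ∑ c : (ZMod p)ˣ, cls p a c := by
    rw [sum_units p _ (fun x hx => if_neg hx)]
    refine Finset.sum_congr rfl fun c _ => ?_
    rw [if_pos c.isUnit, cls_eq]
  rw [← h2]
  have h3 : ∑ x : ZMod p, ZMod.stdAddChar (x * (a : ZMod p)) =
      ∑ x : ZMod p, (if IsUnit x then ZMod.stdAddChar (x * (a : ZMod p)) else (0 : ℂ)) + 1 := by
    rw [← Finset.sum_filter, ← Finset.sum_filter_add_sum_filter_not (univ : Finset (ZMod p))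
      (fun x => IsUnit x) (fun x => ZMod.stdAddChar (x * (a : ZMod p)))]
    congr 1
    have h4 : (univ : Finset (ZMod p)).filter (fun x => ¬ IsUnit x) = {0} := by
      ext x
      rw [Finset.mem_filter, Finset.mem_singleton, isUnit_iff_ne_zero, not_not]
      simp
    rw [h4, Finset.sum_singleton, zero_mul, AddChar.map_zero_eq_one]
  rw [h1] at h3
  linear_combination -h3

theorem norm_cls (p a : ℕ) (c : (ZMod p)ˣ) : ‖cls p a c‖ = 1 := norm_cx _

variable (K : Type) [Field K] [NumberField K]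

set_option maxHeartbeats 1000000 in
theorem irregular {p a N : ℕ} (hp : p.Prime) (hp5 : 5 ≤ p) (ha : ¬ p ∣ a) (hN : 0 < N)
    (hU : 0 < U K N) {θ : ℝ} (hθ : |θ - (a : ℝ) / p| ≤ 1 / (100 * N)) :
    ¬ Regular (K := K) (fun v => cx (θ * q v)) (1 / 10) N p := by
  classical
  have hf : Fact p.Prime := ⟨hp⟩
  rintro ⟨B, hB, hreg⟩
  set φ : ℝ := (Nat.totient p : ℝ) with hφ
  have hφ4 : 4 ≤ φ := by
    rw [hφ, Nat.totient_prime hp]
    exact_mod_cast (by omega : 4 ≤ p - 1)
  have hN0 : (0 : ℝ) < N := by exact_mod_cast hN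
  have hp0 : (0 : ℝ) < p := by exact_mod_cast hp.pos
  set m₀ : ℂ := meanAll (K := K) (fun v => cx (θ * q v)) N with hm₀
  have hcard : Fintype.card (ZMod p)ˣ = Nat.totient p := ZMod.card_units_eq_totient p
  -- the means over the classes
  have key : ∀ c ∉ B, ‖cls p a c - m₀‖ ≤ 17 / 100 := by
    intro c hc
    obtain ⟨h1, h2⟩ := hreg c hc
    rw [card_all, card_class] at h1
    set F := (upto K N).filter (fun v => (nm K v : ZMod p) = (c : ZMod p)) with hF
    have hw : 0 < U K N / φ := by positivity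
    have hFpos : 0 < (F.card : ℝ) := by
      have h3 := (abs_le.1 h1).1
      linarith
    have h4 : ‖mean (K := K) (fun v => (q v : ZMod p) = c) (fun v => cx (θ * q v)) N - cls p a c‖ ≤
        7 / 100 := by
      have e : mean (K := K) (fun v => (q v : ZMod p) = c) (fun v => cx (θ * q v)) N =
          (∑ v ∈ F, cx (θ * q v)) / (F.card : ℂ) := by
        rw [mean_eq]
        congr 1
        · refine Finset.sum_congr ?_ fun _ _ => rfl
          ext v
          simp only [hF, Finset.mem_filter]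
          exact Iff.rfl
        · refine congrArg (fun s : Finset (HeightOneSpectrum (𝓞 K)) => (s.card : ℂ)) ?_
          ext v
          simp only [hF, Finset.mem_filter]
          exact Iff.rfl
      have hFc : (F.card : ℂ) ≠ 0 := by exact_mod_cast hFpos.ne'
      have e2 : (∑ v ∈ F, cx (θ * q v)) / (F.card : ℂ) - cls p a c =
          (∑ v ∈ F, (cx (θ * q v) - cls p a c)) / (F.card : ℂ) := by
        rw [Finset.sum_sub_distrib, Finset.sum_const, nsmul_eq_mul, sub_div,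
          mul_div_cancel_left₀ _ hFc]
      rw [e, e2, norm_div, Complex.norm_natCast, div_le_iff₀ hFpos]
      refine (norm_sum_le _ _).trans ((Finset.sum_le_card_nsmul _ _ (7 / 100) fun v hv => ?_).trans ?_)
      · rw [hF, Finset.mem_filter, mem_upto] at hv
        have h5 : cls p a c = cx ((a : ℝ) / p * q v) := by
          rw [cls]
          have h6 : (((a * (c : ZMod p).val : ℕ) : ℕ) : ZMod p) = ((a * q v : ℕ) : ZMod p) := by
            push_cast
            rw [ZMod.natCast_zmod_val]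
            congr 1
            exact hv.2.symm
          rw [show (((a * (c : ZMod p).val : ℕ) : ℝ) / (p : ℝ)) =
            (((a * (c : ZMod p).val : ℕ) : ℕ) : ℝ) / p by rfl, cx_congr hp.pos h6]
          congr 1
          push_cast
          ring
        rw [h5]
        refine (cx_sub_le _ _).trans ?_
        have h7 : |θ * (q v : ℝ) - (a : ℝ) / p * q v| ≤ 1 / 100 := by
          rw [← sub_mul, abs_mul, abs_of_nonneg (show (0 : ℝ) ≤ q v by positivity)]
          have h8 : (q v : ℝ) ≤ N := by exact_mod_cast hv.1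
          calc |θ - (a : ℝ) / p| * (q v : ℝ) ≤ 1 / (100 * N) * N := by gcongr
            _ = 1 / 100 := by field_simp
        linarith
      · rw [nsmul_eq_mul, mul_comm]
    have e3 : cls p a c - m₀ = (mean (K := K) (fun v => (q v : ZMod p) = c)
        (fun v => cx (θ * q v)) N - m₀) - (mean (K := K) (fun v => (q v : ZMod p) = c)
        (fun v => cx (θ * q v)) N - cls p a c) := by ring
    rw [e3]
    refine (norm_sub_le _ _).trans ?_
    linarith
  -- there are many good classes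
  set Gd : Finset (ZMod p)ˣ := univ \ B with hGd
  have hGcard : (Gd.card : ℝ) = φ - B.card := by
    rw [hGd, Finset.card_sdiff_of_subset (Finset.subset_univ B), Finset.card_univ, hcard,
      Nat.cast_sub]
    rw [← hcard]
    exact Finset.card_le_univ B
  have hG9 : 9 / 10 * φ ≤ Gd.card := by rw [hGcard]; linarith
  have hGpos : 0 < Gd.card := by
    have : (0 : ℝ) < Gd.card := by linarith
    exact_mod_cast this
  obtain ⟨c₀, hc₀⟩ := Finset.card_pos.1 hGpos
  have hm : 83 / 100 ≤ ‖m₀‖ := by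
    have h1 := key c₀ (Finset.mem_sdiff.1 hc₀).2
    have h2 := norm_sub_norm_le (cls p a c₀) m₀
    rw [norm_cls] at h2
    linarith
  have hsumall := sum_cls (p := p) ha
  have hsplit : ∑ c ∈ Gd, cls p a c + ∑ c ∈ B, cls p a c = -1 := by
    rw [← hsumall, hGd]
    exact Finset.sum_sdiff (Finset.subset_univ B)
  have h1 : ‖∑ c ∈ Gd, cls p a c‖ ≤ 1 + B.card := by
    have e : ∑ c ∈ Gd, cls p a c = -1 - ∑ c ∈ B, cls p a c := by linear_combination hsplit
    rw [e]
    refine (norm_sub_le _ _).trans ?_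
    rw [norm_neg, norm_one]
    refine add_le_add le_rfl ((norm_sum_le _ _).trans ?_)
    rw [Finset.sum_congr rfl (fun c _ => norm_cls p a c)]
    simp
  have h2 : (Gd.card : ℝ) * ‖m₀‖ ≤ ‖∑ c ∈ Gd, cls p a c‖ + 17 / 100 * Gd.card := by
    have e : (Gd.card : ℂ) * m₀ = ∑ c ∈ Gd, cls p a c - ∑ c ∈ Gd, (cls p a c - m₀) := by
      rw [Finset.sum_sub_distrib, Finset.sum_const, nsmul_eq_mul]
      ring
    have h3 : ‖(Gd.card : ℂ) * m₀‖ = (Gd.card : ℝ) * ‖m₀‖ := by
      rw [norm_mul, Complex.norm_natCast]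
    rw [← h3, e]
    refine (norm_sub_le _ _).trans (add_le_add le_rfl ?_)
    refine (norm_sum_le _ _).trans ((Finset.sum_le_card_nsmul _ _ (17 / 100) fun c hc =>
      key c (Finset.mem_sdiff.1 hc).2).trans ?_)
    rw [nsmul_eq_mul, mul_comm]
  have h4 : (Gd.card : ℝ) * (83 / 100) ≤ (Gd.card : ℝ) * ‖m₀‖ := by gcongr
  linarith

theorem pigeon (C : ℕ) (ε : ℝ) (hε : 0 < ε) (hε1 : ε ≤ 1 / 2) : ∀ᶠ N : ℕ in atTop,
    ∃ (θ : ℝ) (𝒬 : Finset ℕ), C < 𝒬.card ∧ ∀ p ∈ 𝒬, p.Prime ∧ 5 ≤ p ∧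
      (p : ℝ) ≤ (N : ℝ) ^ (1 / 2 + ε) ∧ ∃ a : ℕ, ¬ p ∣ a ∧ |θ - (a : ℝ) / p| ≤ 1 / (100 * N) := by
  classical
  -- lower bound for the number of primes
  have hpi : ∀ᶠ N : ℕ in atTop, (200 * (C + 1) : ℝ) * N + 100 ≤
      ((Nat.primeCounting ⌊(N : ℝ) ^ (1 / 2 + ε)⌋₊ : ℝ)) ^ 2 / 8 ∧
      10 ≤ Nat.primeCounting ⌊(N : ℝ) ^ (1 / 2 + ε)⌋₊ := by
    have hQ : Tendsto (fun N : ℕ => ⌊(N : ℝ) ^ (1 / 2 + ε)⌋₊) atTop atTop :=
      tendsto_nat_floor_atTop.comp ((tendsto_rpow_atTop (by linarith : 0 < 1 / 2 + ε)).comp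
        tendsto_natCast_atTop_atTop)
    have h1 := (pnt.comp hQ).eventually_const_lt (show (1 / 2 : ℝ) < 1 by norm_num)
    have h2 := log_ev (ε / 2) 4 (by positivity) (by norm_num)
    have h3 := rpow_ev ε (8 * (200 * (C + 1) + 100)) hε
    have h4 := rpow_ev (1 / 2 + ε) 4 (by linarith)
    have h5 := (Nat.tendsto_primeCounting.comp hQ).eventually_ge_atTop 10
    filter_upwards [h1, h2, h3, h4, h5, eventually_ge_atTop 2] with N h1 h2 h3 h4 h5 hN2
    refine ⟨?_, h5⟩
    have hN0 : (0 : ℝ) < N := by exact_mod_cast (by omega : 0 < N)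
    have hN1 : (1 : ℝ) ≤ N := by exact_mod_cast (by omega : 1 ≤ N)
    have hlN : 0 < Real.log N := Real.log_pos (by exact_mod_cast (by omega : 1 < N))
    simp only [Function.comp_apply] at h1
    set Q : ℕ := ⌊(N : ℝ) ^ (1 / 2 + ε)⌋₊ with hQdef
    have hQle : (Q : ℝ) ≤ (N : ℝ) ^ (1 / 2 + ε) := Nat.floor_le (by positivity)
    have hQlt : (N : ℝ) ^ (1 / 2 + ε) < Q + 1 := Nat.lt_floor_add_one _
    have hQ3 : (3 : ℝ) ≤ Q := by linarith
    have hQ0 : (0 : ℝ) < Q := by linarith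
    have hlQ : 0 < Real.log Q := Real.log_pos (by linarith)
    have hlQN : Real.log Q ≤ Real.log N := by
      have h6 : (Q : ℝ) ≤ N := by
        refine hQle.trans ?_
        calc (N : ℝ) ^ (1 / 2 + ε) ≤ (N : ℝ) ^ (1 : ℝ) :=
              Real.rpow_le_rpow_of_exponent_le hN1 (by linarith)
          _ = N := Real.rpow_one _
      exact Real.log_le_log hQ0 h6
    rw [lt_div_iff₀ hQ0] at h1
    have h6 : (N : ℝ) ^ (1 / 2 + ε / 2) ≤ (Nat.primeCounting Q : ℝ) := by
      have h7 : (N : ℝ) ^ (1 / 2 + ε / 2) * (4 * Real.log N) ≤ (N : ℝ) ^ (1 / 2 + ε) := by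
        calc (N : ℝ) ^ (1 / 2 + ε / 2) * (4 * Real.log N)
            ≤ (N : ℝ) ^ (1 / 2 + ε / 2) * (N : ℝ) ^ (ε / 2) := by gcongr
          _ = (N : ℝ) ^ (1 / 2 + ε) := by rw [← Real.rpow_add hN0]; congr 1; ring
      have h8 : (N : ℝ) ^ (1 / 2 + ε) ≤ 2 * Q := by linarith
      have h9 : (Q : ℝ) ≤ 2 * ((Nat.primeCounting Q : ℝ) * Real.log N) := by
        have h10 : (Nat.primeCounting Q : ℝ) * Real.log Q ≤ (Nat.primeCounting Q : ℝ) * Real.log N := by
          gcongr
        linarith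
      have h11 : (N : ℝ) ^ (1 / 2 + ε / 2) * (4 * Real.log N) ≤
          (Nat.primeCounting Q : ℝ) * (4 * Real.log N) := by
        linarith
      exact le_of_mul_le_mul_right h11 (by positivity)
    have h7 : (N : ℝ) ^ (1 + ε) ≤ (Nat.primeCounting Q : ℝ) ^ 2 := by
      calc (N : ℝ) ^ (1 + ε) = ((N : ℝ) ^ (1 / 2 + ε / 2)) ^ 2 := by
            rw [← Real.rpow_natCast, ← Real.rpow_mul hN0.le]
            congr 1
            push_cast
            ring
        _ ≤ _ := by gcongr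
    have h8 : (8 * (200 * (C + 1) + 100) : ℝ) * N ≤ (N : ℝ) ^ (1 + ε) := by
      rw [Real.rpow_add hN0, Real.rpow_one, mul_comm]
      gcongr
    have h9 : (200 * (C + 1) : ℝ) * N + 100 ≤ (200 * (C + 1) + 100) * N := by nlinarith
    linarith
  filter_upwards [hpi, eventually_ge_atTop 1] with N hN hN1
  obtain ⟨hN, h10⟩ := hN
  have hN0 : (0 : ℝ) < N := by exact_mod_cast (by omega : 0 < N)
  have hN1' : (1 : ℝ) ≤ N := by exact_mod_cast hN1
  set Q : ℕ := ⌊(N : ℝ) ^ (1 / 2 + ε)⌋₊ with hQ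
  have hQle : (Q : ℝ) ≤ (N : ℝ) ^ (1 / 2 + ε) := Nat.floor_le (by positivity)
  have hQN : Q ≤ N := by
    have : (Q : ℝ) ≤ N := by
      refine hQle.trans ?_
      calc (N : ℝ) ^ (1 / 2 + ε) ≤ (N : ℝ) ^ (1 : ℝ) :=
            Real.rpow_le_rpow_of_exponent_le hN1' (by linarith)
        _ = N := Real.rpow_one _
    exact_mod_cast this
  set n : ℕ := Nat.primeCounting Q with hn
  set P : Finset ℕ := (pr Q).filter (fun p => n / 2 < p) with hP
  have hPmem : ∀ p ∈ P, p.Prime ∧ p ≤ Q ∧ n / 2 < p := by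
    intro p hp
    rw [hP, Finset.mem_filter, pr, Finset.mem_filter, Finset.mem_Ioc] at hp
    exact ⟨hp.1.2, hp.1.1.2, hp.2⟩
  have hPcard : n - n / 2 ≤ P.card := by
    have h1 : (pr Q).card = n := by
      have := card_pr Q
      exact_mod_cast this
    have h2 := Finset.card_filter_add_card_filter_not (s := pr Q) (fun p => n / 2 < p)
    have h3 : ((pr Q).filter (fun p => ¬ n / 2 < p)).card ≤ n / 2 := by
      calc ((pr Q).filter (fun p => ¬ n / 2 < p)).card ≤ (Icc 1 (n / 2)).card := by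
            refine Finset.card_le_card fun p hp => ?_
            rw [Finset.mem_filter, pr, Finset.mem_filter, Finset.mem_Ioc] at hp
            rw [Finset.mem_Icc]
            exact ⟨hp.1.1.1, not_lt.1 hp.2⟩
        _ = n / 2 := by simp
    rw [← hP] at h2
    omega
  set S : Finset (Σ _ : ℕ, ℕ) := P.sigma (fun p => Icc 1 (p - 1)) with hS
  have hScard : (n - n / 2) * (n / 2) ≤ S.card := by
    rw [hS, Finset.card_sigma]
    calc (n - n / 2) * (n / 2) ≤ P.card * (n / 2) := Nat.mul_le_mul_right _ hPcard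
      _ = ∑ _p ∈ P, n / 2 := by rw [Finset.sum_const, smul_eq_mul]
      _ ≤ ∑ p ∈ P, (Icc 1 (p - 1)).card := by
          refine Finset.sum_le_sum fun p hp => ?_
          have := (hPmem p hp).2.2
          rw [Nat.card_Icc]
          omega
  have hmaps : ∀ s ∈ S, (100 * N * s.2) / s.1 ∈ range (100 * N) := by
    intro s hs
    rw [hS, Finset.mem_sigma, Finset.mem_Icc] at hs
    have hp := (hPmem s.1 hs.1).1.pos
    rw [Finset.mem_range, Nat.div_lt_iff_lt_mul hp]
    have h1 : s.2 < s.1 := by omega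
    exact Nat.mul_lt_mul_of_pos_left h1 (by omega)
  have hbig : (range (100 * N)).card * C < S.card := by
    rw [Finset.card_range]
    have h1 : (100 * N * C : ℝ) < S.card := by
      have h2 : (((n - n / 2) * (n / 2) : ℕ) : ℝ) ≤ S.card := by exact_mod_cast hScard
      have h3 : (n : ℝ) ^ 2 / 8 ≤ (((n - n / 2) * (n / 2) : ℕ) : ℝ) := by
        have h4 : n ≤ 2 * (n - n / 2) := by omega
        have h5 : n ≤ 4 * (n / 2) := by omega
        have h6 : n * n ≤ 8 * ((n - n / 2) * (n / 2)) := by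
          calc n * n ≤ (2 * (n - n / 2)) * (4 * (n / 2)) := Nat.mul_le_mul h4 h5
            _ = _ := by ring
        have h7 : (n : ℝ) * n ≤ 8 * (((n - n / 2) * (n / 2) : ℕ) : ℝ) := by exact_mod_cast h6
        linarith [sq (n : ℝ)]
      have h8 : (0 : ℝ) ≤ C := by positivity
      nlinarith
    exact_mod_cast h1
  obtain ⟨j, hj, hcard⟩ := Finset.exists_lt_card_fiber_of_mul_lt_card_of_maps_to hmaps hbig
  set Fj := S.filter (fun s => (100 * N * s.2) / s.1 = j) with hFj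
  have hFmem : ∀ s ∈ Fj, s.1.Prime ∧ s.1 ≤ Q ∧ n / 2 < s.1 ∧ 1 ≤ s.2 ∧ s.2 < s.1 ∧
      (100 * N * s.2) / s.1 = j := by
    intro s hs
    rw [hFj, Finset.mem_filter, hS, Finset.mem_sigma, Finset.mem_Icc] at hs
    obtain ⟨⟨h1, h2, h3⟩, h4⟩ := hs
    obtain ⟨h5, h6, h7⟩ := hPmem s.1 h1
    exact ⟨h5, h6, h7, h2, by have := h5.pos; omega, h4⟩
  have hnear : ∀ s ∈ Fj, (j : ℝ) / (100 * N) ≤ (s.2 : ℝ) / s.1 ∧
      (s.2 : ℝ) / s.1 < (j : ℝ) / (100 * N) + 1 / (100 * N) := by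
    intro s hs
    obtain ⟨h1, h2, h3, h4, h5, h6⟩ := hFmem s hs
    have hp0 : (0 : ℝ) < s.1 := by exact_mod_cast h1.pos
    have h7 : j * s.1 ≤ 100 * N * s.2 := by rw [← h6]; exact Nat.div_mul_le_self _ _
    have h8 : 100 * N * s.2 < (j + 1) * s.1 := by
      rw [← h6]
      exact Nat.lt_mul_of_div_lt (Nat.lt_succ_self _) h1.pos
    have h7' : (j : ℝ) * s.1 ≤ 100 * N * s.2 := by exact_mod_cast h7
    have h8' : (100 * N * s.2 : ℝ) < (j + 1) * s.1 := by exact_mod_cast h8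
    constructor
    · rw [div_le_div_iff₀ (by positivity) hp0]
      linarith
    · rw [← add_div, div_lt_div_iff₀ hp0 (by positivity)]
      linarith
  refine ⟨(j : ℝ) / (100 * N), Fj.image Sigma.fst, ?_, fun p hp => ?_⟩
  · rw [Finset.card_image_of_injOn]
    · exact hcard
    · intro s hs t ht hst
      rw [Finset.mem_coe] at hs ht
      have h1 := hnear s hs
      have h2 := hnear t ht
      obtain ⟨hs1, hs2, -, -, -, -⟩ := hFmem s hs
      obtain ⟨s1, s2⟩ := s
      obtain ⟨t1, t2⟩ := t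
      simp only at hst h1 h2 hs1 hs2
      subst hst
      have hp0 : (0 : ℝ) < s1 := by exact_mod_cast hs1.pos
      have h3 : |(s2 : ℝ) - t2| < 1 := by
        have h4 : |(s2 : ℝ) / s1 - (t2 : ℝ) / s1| < 1 / (100 * N) := by
          rw [abs_lt]
          constructor <;> linarith [h1.1, h1.2, h2.1, h2.2]
        rw [← sub_div, abs_div, abs_of_pos hp0, div_lt_div_iff₀ hp0 (by positivity)] at h4
        have h5 : (s1 : ℝ) ≤ N := by exact_mod_cast hs2.trans hQN
        have h6 : 0 ≤ |(s2 : ℝ) - t2| := abs_nonneg _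
        by_contra hcon
        push Not at hcon
        nlinarith
      have h4 : (s2 : ℤ) = t2 := by
        have h5 : |(s2 : ℤ) - t2| < 1 := by exact_mod_cast h3
        rw [Int.abs_lt_one_iff] at h5
        omega
      have h5 : s2 = t2 := by exact_mod_cast h4
      rw [h5]
  · rw [Finset.mem_image] at hp
    obtain ⟨s, hs, rfl⟩ := hp
    obtain ⟨h1, h2, h3, h4, h5, h6⟩ := hFmem s hs
    refine ⟨h1, by omega, ?_, s.2, ?_, ?_⟩
    · exact (by exact_mod_cast h2 : (s.1 : ℝ) ≤ Q).trans hQle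
    · intro hdvd
      have := Nat.le_of_dvd (by omega) hdvd
      omega
    · have h7 := hnear s hs
      rw [abs_le]
      constructor <;> linarith [h7.1, h7.2]

/-- **The exponent `1 / 2` is optimal.** -/
theorem sharp (C : ℕ) (ε : ℝ) (hε : 0 < ε) : ∃ N₀ : ℕ, ∀ N : ℕ, N₀ ≤ N →
    ∃ (θ : ℝ) (𝒬 : Finset ℕ), C < 𝒬.card ∧ ∀ p ∈ 𝒬, p.Prime ∧
      (p : ℝ) ≤ (N : ℝ) ^ (1 / 2 + ε) ∧ ¬ Regular (K := K) (fun v => cx (θ * q v)) (1 / 10) N p := by
  have h1 := pigeon C (min ε (1 / 2)) (by positivity) (min_le_right _ _)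
  have h2 := (Pool.Agent.H419.BS.U_atTop (K := K)).eventually_gt_atTop 0
  obtain ⟨N₀, hN₀⟩ := eventually_atTop.1 (h1.and (h2.and (eventually_ge_atTop 1)))
  refine ⟨N₀, fun N hN => ?_⟩
  obtain ⟨⟨θ, 𝒬, hC, h𝒬⟩, hU, hN1⟩ := hN₀ N hN
  refine ⟨θ, 𝒬, hC, fun p hp => ?_⟩
  obtain ⟨h3, h4, h5, a, h6, h7⟩ := h𝒬 p hp
  refine ⟨h3, h5.trans (Real.rpow_le_rpow_of_exponent_le (by exact_mod_cast hN1) ?_),
    irregular K h3 h4 h6 (by omega) hU h7⟩
  have := min_le_left ε (1 / 2)
  linarith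

end Pool.Agent.H419.LC
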