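import Mathlib
import Pool.Agent.H419.LC.Fam
import Pool.Agent.H419.LC.Sharp

/-! Few irregular moduli, for all functions of a compact set. -/

set_option autoImplicit false
set_option linter.unusedSectionVars false
set_option linter.unusedVariables false

open NumberField IsDedekindDomain Finset Filter Topology MeasureTheory

namespace Pool.Agent.H419.LC

open Pool.Agent.W540.BE (upto nm mem_upto)
open Pool.Agent.H419.BS (U mean mean_eq meanAll meanAll_eq meanAll_sub q Equidistributed)

variable {K : Type} [Field K] [NumberField K]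

/-- The number of the primes `v` of `K` with `q_v ≤ N` in the class `c` modulo `m` is the expected
one, up to the factor `1 ± η`. -/
def CountOK (K : Type) [Field K] [NumberField K] (η : ℝ) (N m : ℕ) (c : (ZMod m)ˣ) : Prop :=
  |(Nat.card {v : HeightOneSpectrum (𝓞 K) // (q v : ZMod m) = c ∧ q v ≤ N} : ℝ) -
      (Nat.card {v : HeightOneSpectrum (𝓞 K) // q v ≤ N} : ℝ) / Nat.totient m| ≤
      η * ((Nat.card {v : HeightOneSpectrum (𝓞 K) // q v ≤ N} : ℝ) / Nat.totient m)

/-- For all reduced classes `c` modulo `m`, apart from at most `η φ(m)`, the number of the primes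
`v` with `q_v ≤ N` in the class is the expected one up to `1 ± η`, and for all `f ∈ 𝓕` the mean
value of `f (x v)` over them differs by at most `η` from the one over all `v` with `q_v ≤ N`. -/
def RegularFam {G : Type} [TopologicalSpace G] (𝓕 : Set C(G, ℂ)) (η : ℝ)
    (x : HeightOneSpectrum (𝓞 K) → G) (N m : ℕ) : Prop :=
  ∃ B : Finset (ZMod m)ˣ, (B.card : ℝ) ≤ η * Nat.totient m ∧ ∀ c ∉ B, CountOK K η N m c ∧
    ∀ f ∈ 𝓕, ‖mean (fun v => (q v : ZMod m) = c) (fun v => f (x v)) N -
      meanAll (fun v => f (x v)) N‖ ≤ η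

theorem meanP_sub (P : HeightOneSpectrum (𝓞 K) → Prop) (φ ψ : HeightOneSpectrum (𝓞 K) → ℂ)
    (N : ℕ) : mean P (fun v => φ v - ψ v) N = mean P φ N - mean P ψ N := by
  classical
  rw [mean_eq, mean_eq, mean_eq, Finset.sum_sub_distrib, sub_div]

theorem meanP_smul (P : HeightOneSpectrum (𝓞 K) → Prop) (c : ℂ)
    (φ : HeightOneSpectrum (𝓞 K) → ℂ) (N : ℕ) :
    mean P (fun v => c * φ v) N = c * mean P φ N := by
  classical
  rw [mean_eq, mean_eq, ← Finset.mul_sum, mul_div_assoc]

theorem meanP_le {P : HeightOneSpectrum (𝓞 K) → Prop} {φ ψ : HeightOneSpectrum (𝓞 K) → ℂ} {r : ℝ}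
    (hr : 0 ≤ r) (h : ∀ v, ‖φ v - ψ v‖ ≤ r) (N : ℕ) : ‖mean P φ N - mean P ψ N‖ ≤ r := by
  classical
  rw [← meanP_sub, mean_eq, norm_div, Complex.norm_natCast]
  rcases Nat.eq_zero_or_pos ((upto K N).filter P).card with h0 | h0
  · rw [h0]
    simpa using hr
  · rw [div_le_iff₀ (by exact_mod_cast h0)]
    refine (norm_sum_le _ _).trans ((Finset.sum_le_card_nsmul _ _ r fun v _ => h v).trans ?_)
    rw [nsmul_eq_mul, mul_comm]

section

variable {G : Type} [Group G] [TopologicalSpace G] [IsTopologicalGroup G] [CompactSpace G]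

variable (K) in
theorem fam_mod (𝓕 : Set C(G, ℂ)) (h𝓕 : IsCompact 𝓕) (ε η : ℝ) (hε : 0 < ε) (hη : 0 < η) :
    ∃ C N₀ : ℕ, ∀ x : HeightOneSpectrum (𝓞 K) → G, ∀ N : ℕ, N₀ ≤ N → ∀ 𝒬 : Finset ℕ,
      (∀ m ∈ 𝒬, m ≠ 0 ∧ (m : ℝ) ≤ (N : ℝ) ^ (1 / 2 - ε) ∧ ¬ RegularFam 𝓕 η x N m) →
      (∀ m ∈ 𝒬, ∀ m' ∈ 𝒬, m ≠ m' → m.Coprime m') → 𝒬.card ≤ C := by
  classical
  obtain ⟨T, M, hM1, hT𝓕, hbd, hcov⟩ := net 𝓕 h𝓕 (show 0 < η / 4 by positivity)
  have hM0 : 0 < M := by linarith
  set η' : ℝ := min (η / (4 * M)) (η / (T.card + 1)) with hη'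
  have hη'0 : 0 < η' := by positivity
  have hη'1 : η' ≤ η / (4 * M) := min_le_left _ _
  have hη'2 : η' ≤ η / (T.card + 1) := min_le_right _ _
  have hη'3 : η' ≤ η := by
    refine hη'2.trans (div_le_self hη.le ?_)
    have : (0 : ℝ) ≤ T.card := by positivity
    linarith
  have hη'4 : M * η' ≤ η / 4 := by
    calc M * η' ≤ M * (η / (4 * M)) := by gcongr
      _ = η / 4 := by field_simp
  obtain ⟨C₁, N₀, hmod⟩ := moduli K η' ε hη'0 hε
  refine ⟨(T.card + 1) * C₁, N₀, fun x N hN 𝒬 h𝒬 hco => ?_⟩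
  set F : Option C(G, ℂ) → HeightOneSpectrum (𝓞 K) → ℂ := fun o v =>
    match o with
    | none => 1
    | some f => ((M⁻¹ : ℝ) : ℂ) * f (x v) with hF
  set T' : Finset (Option C(G, ℂ)) := insertNone T with hT'
  have hT'card : T'.card = T.card + 1 := by rw [hT', Finset.card_insertNone]
  have hFb : ∀ o ∈ T', ∀ v, ‖F o v‖ ≤ 1 := by
    intro o ho v
    cases o with
    | none => simp [hF]
    | some f =>
      rw [hT', Finset.some_mem_insertNone] at ho
      exact norm_scaled_le hM0 (hbd f (hT𝓕 f ho)) _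
  -- an irregular modulus is irregular for a function of the net
  have key : ∀ m ∈ 𝒬, ∃ o ∈ T', ¬ Regular (F o) η' N m := by
    intro m hm
    by_contra hcon
    push Not at hcon
    apply (h𝒬 m hm).2.2
    choose! B hB using hcon
    refine ⟨T'.biUnion B, ?_, fun c hc => ?_⟩
    · have h1 : ((T'.biUnion B).card : ℝ) ≤ ∑ o ∈ T', ((B o).card : ℝ) := by
        exact_mod_cast Finset.card_biUnion_le
      refine h1.trans ((Finset.sum_le_card_nsmul _ _ (η' * Nat.totient m)
        fun o ho => (hB o ho).1).trans ?_)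
      rw [nsmul_eq_mul, hT'card]
      have h2 : ((T.card + 1 : ℕ) : ℝ) * η' ≤ η := by
        push_cast
        calc ((T.card : ℝ) + 1) * η' ≤ ((T.card : ℝ) + 1) * (η / (T.card + 1)) := by gcongr
          _ = η := by field_simp
      calc ((T.card + 1 : ℕ) : ℝ) * (η' * (Nat.totient m : ℝ)) =
          (((T.card + 1 : ℕ) : ℝ) * η') * Nat.totient m := by ring
        _ ≤ η * Nat.totient m := by gcongr
    · rw [Finset.mem_biUnion] at hc
      push Not at hc
      have hnone : (none : Option C(G, ℂ)) ∈ T' := by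
        rw [hT']
        exact Finset.none_mem_insertNone
      refine ⟨?_, fun f hf => ?_⟩
      · have h1 := ((hB none hnone).2 c (hc none hnone)).1
        unfold CountOK
        refine h1.trans ?_
        gcongr
      · obtain ⟨f', hf', hff⟩ := hcov f hf
        have hsome : (some f' : Option C(G, ℂ)) ∈ T' := by
          rw [hT', Finset.some_mem_insertNone]
          exact hf'
        have h1 := ((hB (some f') hsome).2 c (hc _ hsome)).2
        have h2 : ‖mean (fun v => (q v : ZMod m) = c) (fun v => f' (x v)) N -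
            meanAll (fun v => f' (x v)) N‖ ≤ η / 4 := by
          have e : mean (fun v => (q v : ZMod m) = c) (F (some f')) N - meanAll (F (some f')) N =
              ((M⁻¹ : ℝ) : ℂ) * (mean (fun v => (q v : ZMod m) = c) (fun v => f' (x v)) N -
              meanAll (fun v => f' (x v)) N) := by
            rw [mul_sub, ← meanP_smul, ← meanAll_smul]
          rw [e, norm_mul, Complex.norm_real, Real.norm_of_nonneg (by positivity),
            inv_mul_le_iff₀ hM0] at h1
          exact h1.trans hη'4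
        have h3 : ‖mean (fun v => (q v : ZMod m) = c) (fun v => f (x v)) N -
            mean (fun v => (q v : ZMod m) = c) (fun v => f' (x v)) N‖ ≤ η / 4 :=
          meanP_le (by positivity) (fun v => hff _) N
        have h4 : ‖meanAll (fun v => f (x v)) N - meanAll (fun v => f' (x v)) N‖ ≤ η / 4 :=
          mean_le (by positivity) (fun v => hff _) N
        have e : mean (fun v => (q v : ZMod m) = c) (fun v => f (x v)) N -
            meanAll (fun v => f (x v)) N =
            (mean (fun v => (q v : ZMod m) = c) (fun v => f (x v)) N -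
              mean (fun v => (q v : ZMod m) = c) (fun v => f' (x v)) N) +
            (mean (fun v => (q v : ZMod m) = c) (fun v => f' (x v)) N -
              meanAll (fun v => f' (x v)) N) -
            (meanAll (fun v => f (x v)) N - meanAll (fun v => f' (x v)) N) := by ring
        rw [e]
        refine (norm_sub_le _ _).trans ((add_le_add (norm_add_le _ _) le_rfl).trans ?_)
        linarith
  have hsub : 𝒬 ⊆ T'.biUnion (fun o => 𝒬.filter (fun m => ¬ Regular (F o) η' N m)) := by
    intro m hm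
    obtain ⟨o, ho, h⟩ := key m hm
    rw [Finset.mem_biUnion]
    exact ⟨o, ho, Finset.mem_filter.2 ⟨hm, h⟩⟩
  refine (Finset.card_le_card hsub).trans (Finset.card_biUnion_le.trans ?_)
  rw [← hT'card, ← smul_eq_mul]
  refine Finset.sum_le_card_nsmul _ _ _ fun o ho => ?_
  refine hmod N hN (F o) (hFb o ho) _ (fun m hm => ?_) (fun m hm m' hm' h => ?_)
  · rw [Finset.mem_filter] at hm
    exact ⟨(h𝒬 m hm.1).1, (h𝒬 m hm.1).2.1, hm.2⟩
  · exact hco m (Finset.mem_filter.1 hm).1 m' (Finset.mem_filter.1 hm').1 h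

/-- uniformity in the Sato-Tate law -/
theorem unif1 [MeasurableSpace G] [BorelSpace G] (μ : Measure G) [IsProbabilityMeasure μ]
    (𝓕 : Set C(G, ℂ)) (h𝓕 : IsCompact 𝓕)
    (hcl : ∀ f ∈ 𝓕, ∀ g h, f (h * g * h⁻¹) = f g) {η : ℝ} (hη : 0 < η)
    {x : HeightOneSpectrum (𝓞 K) → G} (hx : Equidistributed (fun _ => True) x μ) :
    ∃ N₁ : ℕ, ∀ N : ℕ, N₁ ≤ N → ∀ f ∈ 𝓕,
      ‖meanAll (fun v => f (x v)) N - ∫ g, f g ∂μ‖ ≤ η := by
  classical
  obtain ⟨T, M, hM1, hT𝓕, hbd, hcov⟩ := net 𝓕 h𝓕 (show 0 < η / 4 by positivity)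
  have hlim : ∀ f ∈ T, ∀ᶠ N in atTop, ‖meanAll (fun v => f (x v)) N - ∫ g, f g ∂μ‖ ≤ η / 2 := by
    intro f hf
    have h1 := hx (fun g => f g) f.continuous (hcl f (hT𝓕 f hf))
    have h4 := (Metric.tendsto_nhds.1 h1) (η / 2) (by positivity)
    filter_upwards [h4] with N hN
    rw [dist_eq_norm] at hN
    exact hN.le
  have hlim2 := (T.eventually_all).2 fun f hf => hlim f hf
  obtain ⟨N₁, hN₁⟩ := eventually_atTop.1 hlim2
  refine ⟨N₁, fun N hN f hf => ?_⟩
  obtain ⟨f', hf', h1⟩ := hcov f hf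
  have h4 := hN₁ N hN f' hf'
  have h3 : ‖meanAll (fun v => f (x v)) N - meanAll (fun v => f' (x v)) N‖ ≤ η / 4 :=
    mean_le (by positivity) (fun v => h1 _) N
  have h5 : ‖∫ g, f' g ∂μ - ∫ g, f g ∂μ‖ ≤ η / 4 := by
    have hi : ∀ f : C(G, ℂ), Integrable (fun g => f g) μ := by
      intro f
      exact f.continuous.integrable_of_hasCompactSupport
        (HasCompactSupport.of_compactSpace _)
    rw [← integral_sub (hi f') (hi f)]
    have h6 := norm_integral_le_of_norm_le_const (μ := μ) (f := fun g => f' g - f g)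
      (C := η / 4) (Eventually.of_forall fun g => by
        rw [← norm_neg, neg_sub]
        exact h1 g)
    simpa using h6
  have e : meanAll (fun v => f (x v)) N - ∫ g, f g ∂μ =
      (meanAll (fun v => f (x v)) N - meanAll (fun v => f' (x v)) N) +
      (meanAll (fun v => f' (x v)) N - ∫ g, f' g ∂μ) +
      (∫ g, f' g ∂μ - ∫ g, f g ∂μ) := by ring
  rw [e]
  refine norm_add₃_le.trans ?_
  linarith

end

end Pool.Agent.H419.LC
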